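import Mathlib

set_option autoImplicit false

open Filter Topology Set

namespace Pool.Agent.H790R2.Campbell

/-- The core polynomial inequality. -/
lemma core {t e y : ℝ} (ht : 1 / 3 ≤ t) (he0 : 0 ≤ e) (hye : e ≤ y)
    (hyt : t ≤ y) (hy1 : y ≤ 1) :
    ((1 - y) * (y - t) + t * (1 - e)) * (y ^ 2 - e + 2 * t * e) ≤ t * (1 - e ^ 2) := by
  have hy0 : 0 ≤ y := by linarith
  have h1y : 0 ≤ 1 - y := by linarith
  have hyt' : 0 ≤ y - t := by linarith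
  have he1 : 0 ≤ 1 - e := by linarith
  -- step 1
  have s1 : 0 ≤ t * (1 + y + y ^ 2) - y ^ 3 := by
    have h2 : y ^ 3 ≤ y ^ 2 := by nlinarith [sq_nonneg y]
    have h3 : y ^ 2 ≤ y := by nlinarith
    nlinarith [sq_nonneg y]
  have s2 : 0 ≤ t * (1 - e) * (1 + y) - (y - t) * (y ^ 2 - e) := by
    have h4 : y ^ 2 - e ≤ y ^ 2 * (1 - e) := by
      have : y ^ 2 ≤ 1 := by nlinarith
      nlinarith [mul_nonneg he0 (sub_nonneg.2 this)]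
    have h5 : (y - t) * (y ^ 2 - e) ≤ (y - t) * (y ^ 2 * (1 - e)) := mul_le_mul_of_nonneg_left h4 hyt'
    nlinarith [mul_nonneg he1 s1]
  have s3 : 0 ≤ 2 * t * e * ((1 - e) * (1 - t) - (1 - y) * (y - t)) := by
    apply mul_nonneg
    · positivity
    · have : (1 - y) * (y - t) ≤ (1 - e) * (1 - t) := by
        apply mul_le_mul <;> linarith
      linarith
  nlinarith [mul_nonneg h1y s2]

lemma core2 {a b e y : ℝ} (ha0 : 0 < a) (ha : 1 / 3 ≤ a ^ 2) (hab : a ≤ b) (hb : b ≤ 1)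
    (he0 : 0 ≤ e) (hye : e ≤ y) (hyb : b ^ 2 ≤ y) (hy1 : y ≤ 1) :
    ((1 - y) * (y - b ^ 2) + b ^ 2 * (1 - e)) *
      (a ^ 2 * y ^ 2 + (2 * a ^ 2 - 1) * e * b ^ 2 + a * (b - a) * (1 - a * b) * e * y / (1 + e))
      ≤ (1 - e ^ 2) * b ^ 4 := by
  have hb0 : 0 < b := lt_of_lt_of_le ha0 hab
  have hy0 : 0 ≤ y := by linarith
  have ht : 1 / 3 ≤ b ^ 2 := by nlinarith
  have h1 := core ht he0 hye hyb hy1
  have hB : 0 ≤ (1 - y) * (y - b ^ 2) + b ^ 2 * (1 - e) := by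
    have := mul_nonneg (sub_nonneg.2 hy1) (sub_nonneg.2 hyb)
    have := mul_nonneg (sq_nonneg b) (sub_nonneg.2 (hye.trans hy1))
    linarith
  have hZ : a * (b - a) * (1 - a * b) * e * y / (1 + e) ≤ (b - a) * ((b + a) * y ^ 2) := by
    rw [div_le_iff₀ (by linarith)]
    have hab1 : a * b ≤ 1 := by nlinarith
    have hba : 0 ≤ b - a := by linarith
    have e1 : a * (b - a) * (1 - a * b) * e * y = (b - a) * (a * (1 - a * b) * e * y) := by ring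
    rw [e1, mul_assoc (b - a)]
    apply mul_le_mul_of_nonneg_left _ hba
    calc a * (1 - a * b) * e * y ≤ a * 1 * y * y := by
          have : 1 - a * b ≤ 1 := by nlinarith
          have h0 : 0 ≤ 1 - a * b := by linarith
          gcongr
      _ ≤ (b + a) * y ^ 2 * (1 + e) := by
          have : 0 ≤ b * y ^ 2 * (1 + e) := by positivity
          have : 0 ≤ a * y ^ 2 * e := by positivity
          nlinarith
  have hG : a ^ 2 * y ^ 2 + (2 * a ^ 2 - 1) * e * b ^ 2 + a * (b - a) * (1 - a * b) * e * y / (1 + e) ≤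
      b ^ 2 * (y ^ 2 - e + 2 * b ^ 2 * e) := by
    have h3 : 0 ≤ (b - a) * (b + a) * (2 * e * b ^ 2) := by
      have : 0 ≤ b - a := by linarith
      positivity
    nlinarith
  calc _ ≤ ((1 - y) * (y - b ^ 2) + b ^ 2 * (1 - e)) * (b ^ 2 * (y ^ 2 - e + 2 * b ^ 2 * e)) :=
        mul_le_mul_of_nonneg_left hG hB
    _ = b ^ 2 * (((1 - y) * (y - b ^ 2) + b ^ 2 * (1 - e)) * (y ^ 2 - e + 2 * b ^ 2 * e)) := by ring
    _ ≤ b ^ 2 * (b ^ 2 * (1 - e ^ 2)) := mul_le_mul_of_nonneg_left h1 (sq_nonneg b)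
    _ = _ := by ring

/-- The inequality `C_σ`. -/
lemma Csig {r c σ M Q v : ℝ} (hr0 : 0 < r) (hr1 : r < 1) (hr : 0 ≤ r ^ 2 - 4 * r + 1)
    (hc0 : 0 < c) (hc1 : c < 1) (hσ0 : 0 ≤ σ) (hσ : σ ≤ r)
    (hQ : Q ^ 2 + (1 - c ^ 2) * (1 - σ ^ 2) ^ 2 = 2 * M * Q)
    (hv : c * v = (1 + c) * (1 + σ ^ 2) - M)
    (hM : 1 - 2 * c * σ + σ ^ 2 ≤ M) (hMQ : M ≤ Q) (hQle : Q ≤ (1 + c) * (1 + σ) ^ 2) :
    v * Q * ((1 - r ^ 2) * ((1 - r ^ 2) * M + (1 - c ^ 2) * (r ^ 2 - σ ^ 2)) * Q -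
      2 * (r * (1 + r) ^ 2 * (1 - c ^ 2) * (1 - σ ^ 2) ^ 2)) ≤
      ((1 + r) ^ 2 * (1 + c) * (1 - σ ^ 2) ^ 2) ^ 2 := by
  have hσ1 : σ < 1 := lt_of_le_of_lt hσ hr1
  have hM0 : 0 < M := by nlinarith [sq_nonneg (1 - σ)]
  have hQ0 : 0 < Q := by linarith
  -- lower bounds for Q
  have hprod : 0 ≤ (Q - (1 + c) * (1 - σ) ^ 2) * (Q - (1 - c) * (1 + σ) ^ 2) := by
    have e1 : (Q - (1 + c) * (1 - σ) ^ 2) * (Q - (1 - c) * (1 + σ) ^ 2) =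
        2 * (M - (1 - 2 * c * σ + σ ^ 2)) * Q + (Q ^ 2 + (1 - c ^ 2) * (1 - σ ^ 2) ^ 2 - 2 * M * Q) := by ring
    rw [e1, hQ]
    have := mul_nonneg (sub_nonneg.2 hM) hQ0.le
    nlinarith
  have hg0 : (1 - c ^ 2) * (1 - σ ^ 2) ^ 2 ≤ Q ^ 2 := by nlinarith
  have hq1 : 0 < (1 + c) * (1 - σ) ^ 2 := by
    have : 0 < 1 - σ := by linarith
    positivity
  have hq2 : 0 < (1 - c) * (1 + σ) ^ 2 := by
    have : 0 < 1 - c := by linarith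
    positivity
  have hlow1 : (1 + c) * (1 - σ) ^ 2 ≤ Q := by
    by_contra hcon
    push Not at hcon
    have h2 : Q ≤ (1 - c) * (1 + σ) ^ 2 := by
      by_contra h3
      push Not at h3
      have := mul_neg_of_neg_of_pos (sub_neg.2 hcon) (sub_pos.2 h3)
      linarith
    have h3 : Q * Q < (1 + c) * (1 - σ) ^ 2 * ((1 - c) * (1 + σ) ^ 2) :=
      mul_lt_mul hcon h2 hQ0 hq1.le
    nlinarith
  have hlow2 : (1 - c) * (1 + σ) ^ 2 ≤ Q := by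
    by_contra hcon
    push Not at hcon
    have h2 : Q ≤ (1 + c) * (1 - σ) ^ 2 := by
      by_contra h3
      push Not at h3
      have := mul_neg_of_pos_of_neg (sub_pos.2 h3) (sub_neg.2 hcon)
      linarith
    have h3 : Q * Q < (1 - c) * (1 + σ) ^ 2 * ((1 + c) * (1 - σ) ^ 2) :=
      mul_lt_mul hcon h2 hQ0 hq2.le
    nlinarith
  have hσp : 0 < 1 + σ := by linarith
  have hcp : 0 < 1 + c := by linarith
  have hrp : 0 < 1 + r := by linarith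
  have key := core2 (a := (1 - r) / (1 + r)) (b := (1 - σ) / (1 + σ)) (e := (1 - c) / (1 + c))
    (y := Q / ((1 + c) * (1 + σ) ^ 2)) (div_pos (by linarith) hrp)
    (by rw [div_pow, div_le_div_iff₀ (by norm_num) (by positivity)]; nlinarith)
    (by rw [div_le_div_iff₀ hrp hσp]; nlinarith)
    (by rw [div_le_one hσp]; linarith)
    (by apply div_nonneg <;> linarith)
    (by rw [div_le_div_iff₀ hcp (by positivity)]; nlinarith)
    (by rw [div_pow, div_le_div_iff₀ (by positivity) (by positivity)]; nlinarith)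
    (by rw [div_le_one (by positivity)]; exact hQle)
  -- convert
  obtain ⟨G, hG⟩ : ∃ G, G = (1 - c ^ 2) * (1 - σ ^ 2) ^ 2 := ⟨_, rfl⟩
  have b1 : (1 - Q / ((1 + c) * (1 + σ) ^ 2)) * (Q / ((1 + c) * (1 + σ) ^ 2) - ((1 - σ) / (1 + σ)) ^ 2) +
        ((1 - σ) / (1 + σ)) ^ 2 * (1 - (1 - c) / (1 + c)) =
      (2 * (1 + c) * (1 + σ ^ 2) * Q - Q ^ 2 - G) / ((1 + c) ^ 2 * (1 + σ) ^ 4) := by
    rw [hG]
    field_simp
    ring
  have b2 : ((1 - r) / (1 + r)) ^ 2 * (Q / ((1 + c) * (1 + σ) ^ 2)) ^ 2 +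
        (2 * ((1 - r) / (1 + r)) ^ 2 - 1) * ((1 - c) / (1 + c)) * ((1 - σ) / (1 + σ)) ^ 2 +
        (1 - r) / (1 + r) * ((1 - σ) / (1 + σ) - (1 - r) / (1 + r)) *
          (1 - (1 - r) / (1 + r) * ((1 - σ) / (1 + σ))) * ((1 - c) / (1 + c)) *
          (Q / ((1 + c) * (1 + σ) ^ 2)) / (1 + (1 - c) / (1 + c)) =
      ((1 + r) * (1 - r) ^ 2 * Q ^ 2 + (1 + r) * (1 - 6 * r + r ^ 2) * G +
        2 * (1 - r) * (1 - c ^ 2) * (r ^ 2 - σ ^ 2) * Q) / ((1 + r) ^ 3 * (1 + c) ^ 2 * (1 + σ) ^ 4) := by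
    have h1e : 1 + (1 - c) / (1 + c) = 2 / (1 + c) := by field_simp; ring
    have h2e : (1 - σ) / (1 + σ) - (1 - r) / (1 + r) = 2 * (r - σ) / ((1 + r) * (1 + σ)) := by
      field_simp; ring
    have h3e : 1 - (1 - r) / (1 + r) * ((1 - σ) / (1 + σ)) = 2 * (r + σ) / ((1 + r) * (1 + σ)) := by
      field_simp; ring
    rw [h1e, h2e, h3e, hG]
    field_simp
    ring
  have b3 : (1 - ((1 - c) / (1 + c)) ^ 2) * ((1 - σ) / (1 + σ)) ^ 4 =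
      (4 * c * (1 - σ) ^ 4) / ((1 + c) ^ 2 * (1 + σ) ^ 4) := by
    field_simp
    ring
  rw [b1, b2, b3, div_mul_div_comm, div_le_div_iff₀ (by positivity) (by positivity)] at key
  have key2 : (2 * (1 + c) * (1 + σ ^ 2) * Q - Q ^ 2 - G) *
      ((1 + r) * (1 - r) ^ 2 * Q ^ 2 + (1 + r) * (1 - 6 * r + r ^ 2) * G +
        2 * (1 - r) * (1 - c ^ 2) * (r ^ 2 - σ ^ 2) * Q) ≤
      4 * c * (1 - σ) ^ 4 * ((1 + r) ^ 3 * (1 + c) ^ 2 * (1 + σ) ^ 4) := by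
    have hpos : 0 < (1 + c) ^ 2 * (1 + σ) ^ 4 := by positivity
    apply le_of_mul_le_mul_right _ hpos
    calc _ ≤ _ := key
      _ = _ := by ring
  have hvQ : 2 * c * v * Q = 2 * (1 + c) * (1 + σ ^ 2) * Q - Q ^ 2 - G := by
    rw [hG]
    linear_combination (2 * Q) * hv + hQ
  have hNQ : 2 * ((1 - r ^ 2) * ((1 - r ^ 2) * M + (1 - c ^ 2) * (r ^ 2 - σ ^ 2)) * Q) -
        4 * (r * (1 + r) ^ 2 * G) =
      (1 + r) * ((1 + r) * (1 - r) ^ 2 * Q ^ 2 + (1 + r) * (1 - 6 * r + r ^ 2) * G +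
        2 * (1 - r) * (1 - c ^ 2) * (r ^ 2 - σ ^ 2) * Q) := by
    rw [← hG] at hQ
    linear_combination (-(1 - r ^ 2) ^ 2) * hQ
  have hfin : (4 * c) * (v * Q * ((1 - r ^ 2) * ((1 - r ^ 2) * M + (1 - c ^ 2) * (r ^ 2 - σ ^ 2)) * Q -
      2 * (r * (1 + r) ^ 2 * (1 - c ^ 2) * (1 - σ ^ 2) ^ 2))) ≤
      (4 * c) * ((1 + r) ^ 2 * (1 + c) * (1 - σ ^ 2) ^ 2) ^ 2 := by
    have e4 : (4 * c) * (v * Q * ((1 - r ^ 2) * ((1 - r ^ 2) * M + (1 - c ^ 2) * (r ^ 2 - σ ^ 2)) * Q -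
      2 * (r * (1 + r) ^ 2 * (1 - c ^ 2) * (1 - σ ^ 2) ^ 2))) =
      (2 * c * v * Q) * (2 * ((1 - r ^ 2) * ((1 - r ^ 2) * M + (1 - c ^ 2) * (r ^ 2 - σ ^ 2)) * Q) -
        4 * (r * (1 + r) ^ 2 * G)) := by
      rw [hG]; ring
    rw [e4, hvQ, hNQ]
    calc _ = (1 + r) * ((2 * (1 + c) * (1 + σ ^ 2) * Q - Q ^ 2 - G) *
      ((1 + r) * (1 - r) ^ 2 * Q ^ 2 + (1 + r) * (1 - 6 * r + r ^ 2) * G +
        2 * (1 - r) * (1 - c ^ 2) * (r ^ 2 - σ ^ 2) * Q)) := by ring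
      _ ≤ (1 + r) * (4 * c * (1 - σ) ^ 4 * ((1 + r) ^ 3 * (1 + c) ^ 2 * (1 + σ) ^ 4)) :=
          mul_le_mul_of_nonneg_left key2 hrp.le
      _ = _ := by ring
  exact le_of_mul_le_mul_left hfin (by positivity)

end Pool.Agent.H790R2.Campbell
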