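import Mathlib
import Pool.Agent.H790R2.CampA

set_option autoImplicit false

open Filter Topology Set Complex

namespace Pool.Agent.H790R2.Campbell

/-- `E - r X` times `E + r X` etc. -/
lemma E_sq (r c : ℝ) (s : ℂ) :
    ‖(1 - r ^ 2 * c : ℂ) + (c - r ^ 2) * s‖ ^ 2 =
      (1 - r ^ 2) * ((1 - r ^ 2) * (1 + 2 * c * s.re + ‖s‖ ^ 2) + (1 - c ^ 2) * (r ^ 2 - ‖s‖ ^ 2)) +
        r ^ 2 * (1 - c) ^ 2 * ‖1 - s‖ ^ 2 := by
  simp only [← Complex.normSq_eq_norm_sq, Complex.normSq_apply]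
  simp only [Complex.add_re, Complex.sub_re, Complex.one_re, Complex.mul_re, Complex.ofReal_re,
    Complex.ofReal_im, Complex.add_im, Complex.sub_im, Complex.one_im, Complex.mul_im, sq]
  ring

lemma K_sq (c : ℝ) (s : ℂ) :
    ‖(c : ℂ) + 2 * s + c * s ^ 2‖ ^ 2 =
      (1 + 2 * c * s.re + ‖s‖ ^ 2) ^ 2 - (1 - c ^ 2) * (1 - ‖s‖ ^ 2) ^ 2 := by
  simp only [← Complex.normSq_eq_norm_sq, Complex.normSq_apply]
  simp only [Complex.add_re, Complex.mul_re, Complex.ofReal_re,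
    Complex.ofReal_im, Complex.add_im, Complex.mul_im, sq, Complex.re_ofNat, Complex.im_ofNat]
  ring

lemma ineq_open {r c : ℝ} {s : ℂ} (hr0 : 0 < r) (hr1 : r < 1) (hr : 0 ≤ r ^ 2 - 4 * r + 1)
    (hc0 : 0 < c) (hc1 : c < 1) (hs : ‖s‖ ≤ r) :
    ‖(c : ℂ) + 2 * s + c * s ^ 2‖ + (1 - c) * ‖1 - s‖ *
      (‖(1 - r ^ 2 * c : ℂ) + (c - r ^ 2) * s‖ - r * ((1 - c) * ‖1 - s‖)) / (1 + r) ^ 2 ≤
      1 + 2 * c * s.re + ‖s‖ ^ 2 := by
  obtain ⟨σ, hσ⟩ : ∃ σ, σ = ‖s‖ := ⟨_, rfl⟩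
  obtain ⟨M, hMd⟩ : ∃ M, M = 1 + 2 * c * s.re + ‖s‖ ^ 2 := ⟨_, rfl⟩
  obtain ⟨K, hKd⟩ : ∃ K, K = ‖(c : ℂ) + 2 * s + c * s ^ 2‖ := ⟨_, rfl⟩
  obtain ⟨u, hud⟩ : ∃ u, u = ‖1 - s‖ := ⟨_, rfl⟩
  obtain ⟨E, hEd⟩ : ∃ E, E = ‖(1 - r ^ 2 * c : ℂ) + (c - r ^ 2) * s‖ := ⟨_, rfl⟩
  have hE2 := E_sq r c s
  have hK2 := K_sq c s
  rw [← hMd, ← hσ, ← hud, ← hEd] at hE2
  rw [← hMd, ← hσ, ← hKd] at hK2
  rw [← hMd, ← hKd, ← hud, ← hEd]
  have hσ0 : 0 ≤ σ := by rw [hσ]; exact norm_nonneg _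
  have hσr : σ ≤ r := by rw [hσ]; exact hs
  have hσ1 : σ < 1 := by linarith
  have hK0 : 0 ≤ K := by rw [hKd]; exact norm_nonneg _
  have hu0 : 0 < u := by
    rw [hud, norm_pos_iff, sub_ne_zero]
    intro h
    rw [← h, norm_one] at hσ
    linarith
  have hE0 : 0 ≤ E := by rw [hEd]; exact norm_nonneg _
  have hre : |s.re| ≤ σ := by rw [hσ]; exact Complex.abs_re_le_norm s
  have hre1 := neg_le_of_abs_le hre
  have hre2 := le_of_abs_le hre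
  have hMlow : 1 - 2 * c * σ + σ ^ 2 ≤ M := by
    rw [hMd, ← hσ]
    have h1 : 0 ≤ c * (s.re + σ) := mul_nonneg hc0.le (by linarith)
    linarith
  have hMup : M ≤ 1 + 2 * c * σ + σ ^ 2 := by
    rw [hMd, ← hσ]
    have h1 : 0 ≤ c * (σ - s.re) := mul_nonneg hc0.le (by linarith)
    linarith
  have hM0 : 0 < M := by
    have h1 : 0 ≤ (1 - c) * σ := mul_nonneg (by linarith) hσ0
    have h2 : 0 < (1 - σ) ^ 2 := pow_pos (by linarith) 2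
    have h3 : (1 - σ) ^ 2 = 1 - 2 * σ + σ ^ 2 := by ring
    linarith
  have hKup : K ≤ c + 2 * σ + c * σ ^ 2 := by
    rw [hKd, hσ]
    calc ‖(c : ℂ) + 2 * s + c * s ^ 2‖ ≤ ‖(c:ℂ)‖ + ‖2 * s‖ + ‖(c:ℂ) * s ^ 2‖ := norm_add₃_le
      _ = c + 2 * ‖s‖ + c * ‖s‖ ^ 2 := by
        rw [norm_mul, norm_mul, norm_pow, Complex.norm_real, Real.norm_eq_abs, abs_of_pos hc0]
        simp
  have hv : c * u ^ 2 = (1 + c) * (1 + σ ^ 2) - M := by
    have : u ^ 2 = 1 - 2 * s.re + σ ^ 2 := by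
      rw [hud, hσ]
      simp only [← Complex.normSq_eq_norm_sq, Complex.normSq_apply, Complex.sub_re, Complex.sub_im,
        Complex.one_re, Complex.one_im]
      ring
    rw [this, hMd, ← hσ]
    ring
  have hQ0 : 0 < M + K := by linarith
  have hC := Csig (Q := M + K) (v := u ^ 2) hr0 hr1 hr hc0 hc1 hσ0 hσr
    (by linear_combination hK2) hv hMlow (by linarith)
    (by
      have h1 : (1 + c) * (1 + σ) ^ 2 = 1 + 2 * c * σ + σ ^ 2 + (c + 2 * σ + c * σ ^ 2) := by ring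
      linarith)
  -- L, κ
  obtain ⟨N, hN⟩ : ∃ N, N = (1 - r ^ 2) * M + (1 - c ^ 2) * (r ^ 2 - σ ^ 2) := ⟨_, rfl⟩
  obtain ⟨L, hL⟩ : ∃ L, L = (1 + r) ^ 2 * (1 + c) * (1 - σ ^ 2) ^ 2 := ⟨_, rfl⟩
  have hr2 : 0 < 1 - r ^ 2 := by
    have : (1 - r) * (1 + r) = 1 - r ^ 2 := by ring
    rw [← this]; apply mul_pos <;> linarith
  have hs2 : 0 < 1 - σ ^ 2 := by
    have : (1 - σ) * (1 + σ) = 1 - σ ^ 2 := by ring
    rw [← this]; apply mul_pos <;> linarith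
  have hc2 : 0 < 1 - c ^ 2 := by
    have : (1 - c) * (1 + c) = 1 - c ^ 2 := by ring
    rw [← this]; apply mul_pos <;> linarith
  have hN0 : 0 < N := by
    have : 0 ≤ r ^ 2 - σ ^ 2 := by
      have h1 : (r - σ) * (r + σ) = r ^ 2 - σ ^ 2 := by ring
      rw [← h1]; apply mul_nonneg <;> linarith
    rw [hN]; positivity
  have hL0 : 0 < L := by rw [hL]; positivity
  rw [← hN, ← hL] at hC
  rw [← hN] at hE2
  have hκ : r * (1 + r) ^ 2 * (1 - c ^ 2) * (1 - σ ^ 2) ^ 2 = r * (1 - c) * L := by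
    rw [hL]; ring
  rw [hκ] at hC
  have hX0 : 0 ≤ (1 - c) * u := mul_nonneg (by linarith) hu0.le
  have hs1 : u * ((1 - r ^ 2) * N * (M + K) - r * (1 - c) * L) ≤ L * E := by
    rcases le_total ((1 - r ^ 2) * N * (M + K)) (r * (1 - c) * L) with h | h
    · have h1 : u * ((1 - r ^ 2) * N * (M + K) - r * (1 - c) * L) ≤ 0 :=
        mul_nonpos_of_nonneg_of_nonpos hu0.le (by linarith)
      have h2 : 0 ≤ L * E := by positivity
      linarith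
    · apply le_of_sq_le_sq
      · have e1 : (L * E) ^ 2 - (u * ((1 - r ^ 2) * N * (M + K) - r * (1 - c) * L)) ^ 2 =
            ((1 - r ^ 2) * N) * (L ^ 2 - u ^ 2 * (M + K) * ((1 - r ^ 2) * N * (M + K) - 2 * (r * (1 - c) * L))) := by
          linear_combination L ^ 2 * hE2
        have h3 : 0 ≤ ((1 - r ^ 2) * N) * (L ^ 2 - u ^ 2 * (M + K) * ((1 - r ^ 2) * N * (M + K) - 2 * (r * (1 - c) * L))) := by
          apply mul_nonneg (by positivity)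
          linarith
        linarith
      · positivity
  have hEX : 0 < E + r * ((1 - c) * u) := by
    have : 0 < E ^ 2 := by rw [hE2]; positivity
    have : 0 < E := by
      rcases hE0.lt_or_eq with h | h
      · exact h
      · rw [← h] at this; norm_num at this
    positivity
  have hs3 : u * (E - r * ((1 - c) * u)) * (M + K) ≤ L := by
    have h4 : (u * (E - r * ((1 - c) * u)) * (M + K)) * (E + r * ((1 - c) * u)) ≤ L * (E + r * ((1 - c) * u)) := by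
      have e2 : (u * (E - r * ((1 - c) * u)) * (M + K)) * (E + r * ((1 - c) * u)) =
          u * ((1 - r ^ 2) * N * (M + K)) := by
        linear_combination (u * (M + K)) * hE2
      rw [e2]
      linarith
    exact le_of_mul_le_mul_right h4 hEX
  have hs4 : (1 - c) * u * (E - r * ((1 - c) * u)) ≤ (1 + r) ^ 2 * (M - K) := by
    have h5 : ((1 - c) * u * (E - r * ((1 - c) * u))) * (M + K) ≤ ((1 + r) ^ 2 * (M - K)) * (M + K) := by
      have e3 : ((1 + r) ^ 2 * (M - K)) * (M + K) = (1 - c) * L := by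
        rw [hL]
        linear_combination (-(1 + r) ^ 2) * hK2
      rw [e3]
      calc _ = (1 - c) * (u * (E - r * ((1 - c) * u)) * (M + K)) := by ring
        _ ≤ (1 - c) * L := mul_le_mul_of_nonneg_left hs3 (by linarith)
    exact le_of_mul_le_mul_right h5 hQ0
  have h6 : (1 - c) * u * (E - r * ((1 - c) * u)) / (1 + r) ^ 2 ≤ M - K := by
    rw [div_le_iff₀ (by positivity)]
    linarith
  linarith

/-- The inequality for all `0 ≤ c ≤ 1`. -/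
lemma ineq {r c : ℝ} {s : ℂ} (hr0 : 0 < r) (hr1 : r < 1) (hr : 0 ≤ r ^ 2 - 4 * r + 1)
    (hc0 : 0 ≤ c) (hc1 : c ≤ 1) (hs : ‖s‖ ≤ r) :
    ‖(c : ℂ) + 2 * s + c * s ^ 2‖ + (1 - c) * ‖1 - s‖ *
      (‖(1 - r ^ 2 * c : ℂ) + (c - r ^ 2) * s‖ - r * ((1 - c) * ‖1 - s‖)) / (1 + r) ^ 2 ≤
      1 + 2 * c * s.re + ‖s‖ ^ 2 := by
  have hcl : c ∈ closure (Ioo (0:ℝ) 1) := by
    rw [closure_Ioo (by norm_num)]
    exact ⟨hc0, hc1⟩
  have hf : Continuous (fun c : ℝ => ‖(c : ℂ) + 2 * s + c * s ^ 2‖ + (1 - c) * ‖1 - s‖ *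
      (‖(1 - r ^ 2 * c : ℂ) + (c - r ^ 2) * s‖ - r * ((1 - c) * ‖1 - s‖)) / (1 + r) ^ 2) := by
    fun_prop
  have hg : Continuous (fun c : ℝ => 1 + 2 * c * s.re + ‖s‖ ^ 2) := by fun_prop
  have hset : IsClosed {c : ℝ | ‖(c : ℂ) + 2 * s + c * s ^ 2‖ + (1 - c) * ‖1 - s‖ *
      (‖(1 - r ^ 2 * c : ℂ) + (c - r ^ 2) * s‖ - r * ((1 - c) * ‖1 - s‖)) / (1 + r) ^ 2 ≤
      1 + 2 * c * s.re + ‖s‖ ^ 2} := isClosed_le hf hg
  have hsub : Ioo (0:ℝ) 1 ⊆ {c : ℝ | ‖(c : ℂ) + 2 * s + c * s ^ 2‖ + (1 - c) * ‖1 - s‖ *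
      (‖(1 - r ^ 2 * c : ℂ) + (c - r ^ 2) * s‖ - r * ((1 - c) * ‖1 - s‖)) / (1 + r) ^ 2 ≤
      1 + 2 * c * s.re + ‖s‖ ^ 2} := fun c hc => ineq_open hr0 hr1 hr hc.1 hc.2 hs
  exact closure_minimal hsub hset hcl

end Pool.Agent.H790R2.Campbell
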