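import Mathlib

set_option autoImplicit false

open Filter Topology Set Complex Metric

namespace Pool.Agent.H790R2.Campbell

/-- disc automorphism sending `0` to `z` -/
noncomputable def T (z ζ : ℂ) : ℂ := (ζ + z) / (1 + (starRingEnd ℂ) z * ζ)

lemma one_add_conj_ne {z ζ : ℂ} (hz : ‖z‖ ≤ 1) (hζ : ‖ζ‖ < 1) : 1 + (starRingEnd ℂ) z * ζ ≠ 0 := by
  intro h
  have h1 : (starRingEnd ℂ) z * ζ = -1 := by linear_combination h
  have h2 : ‖(starRingEnd ℂ) z * ζ‖ = 1 := by rw [h1]; simp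
  rw [norm_mul, RCLike.norm_conj] at h2
  have : ‖z‖ * ‖ζ‖ ≤ 1 * ‖ζ‖ := mul_le_mul_of_nonneg_right hz (norm_nonneg _)
  linarith

/-- `|1 + z̄ ζ|² - |ζ + z|² = (1 - |z|²)(1 - |ζ|²)`. -/
lemma norm_identity (z ζ : ℂ) :
    ‖1 + (starRingEnd ℂ) z * ζ‖ ^ 2 - ‖ζ + z‖ ^ 2 = (1 - ‖z‖ ^ 2) * (1 - ‖ζ‖ ^ 2) := by
  simp only [← Complex.normSq_eq_norm_sq, Complex.normSq_apply, Complex.add_re, Complex.add_im,
    Complex.one_re, Complex.one_im, Complex.mul_re, Complex.mul_im, Complex.conj_re, Complex.conj_im]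
  ring

lemma T_norm {z ζ : ℂ} (hz : ‖z‖ ≤ 1) (hζ : ‖ζ‖ < 1) :
    1 - ‖T z ζ‖ ^ 2 = (1 - ‖z‖ ^ 2) * (1 - ‖ζ‖ ^ 2) / ‖1 + (starRingEnd ℂ) z * ζ‖ ^ 2 := by
  have h := one_add_conj_ne hz hζ
  have h2 : ‖1 + (starRingEnd ℂ) z * ζ‖ ^ 2 ≠ 0 := by
    have := norm_pos_iff.2 h; positivity
  rw [eq_div_iff h2, ← norm_identity]
  unfold T
  rw [norm_div, div_pow, sub_mul, one_mul, div_mul_cancel₀ _ h2]

lemma T_mem {z ζ : ℂ} (hz : ‖z‖ < 1) (hζ : ‖ζ‖ < 1) : ‖T z ζ‖ < 1 := by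
  have h := T_norm hz.le hζ
  have h1 := norm_pos_iff.2 (one_add_conj_ne hz.le hζ)
  have h2 : 0 < 1 - ‖z‖ ^ 2 := by nlinarith [norm_nonneg z]
  have h3 : 0 < 1 - ‖ζ‖ ^ 2 := by nlinarith [norm_nonneg ζ]
  have h4 : 0 < 1 - ‖T z ζ‖ ^ 2 := by rw [h]; positivity
  nlinarith [norm_nonneg (T z ζ)]

lemma T_hasDerivAt {z ζ : ℂ} (hz : ‖z‖ ≤ 1) (hζ : ‖ζ‖ < 1) :
    HasDerivAt (T z) (((1 - ‖z‖ ^ 2 : ℝ) : ℂ) / (1 + (starRingEnd ℂ) z * ζ) ^ 2) ζ := by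
  have h := one_add_conj_ne hz hζ
  unfold T
  have h1 : HasDerivAt (fun ζ : ℂ => ζ + z) 1 ζ := (hasDerivAt_id' ζ).add_const z
  have h2 : HasDerivAt (fun ζ : ℂ => 1 + (starRingEnd ℂ) z * ζ) ((starRingEnd ℂ) z) ζ := by
    simpa using ((hasDerivAt_id' ζ).const_mul ((starRingEnd ℂ) z)).const_add 1
  refine (h1.div h2 h).congr_deriv ?_
  congr 1
  have : ((‖z‖ ^ 2 : ℝ) : ℂ) = z * (starRingEnd ℂ) z := by
    rw [Complex.mul_conj, Complex.normSq_eq_norm_sq]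
  push_cast at this ⊢
  rw [this]
  ring

/-- Schwarz-Pick, derivative form, for maps into the open disc. -/
lemma sp_open {χ : ℂ → ℂ} (hd : DifferentiableOn ℂ χ (ball 0 1))
    (hm : ∀ z ∈ ball (0:ℂ) 1, ‖χ z‖ < 1) {z : ℂ} (hz : z ∈ ball (0:ℂ) 1) :
    ‖deriv χ z‖ * (1 - ‖z‖ ^ 2) ≤ 1 - ‖χ z‖ ^ 2 := by
  have hz1 : ‖z‖ < 1 := by simpa using hz
  have ha := hm z hz
  -- g = T (-χ z) ∘ χ ∘ T z
  have hg : HasDerivAt (fun ζ => T (-χ z) (χ (T z ζ)))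
      ((((1 - ‖-χ z‖ ^ 2 : ℝ) : ℂ) / (1 + (starRingEnd ℂ) (-χ z) * (χ z)) ^ 2) *
        (deriv χ z * (((1 - ‖z‖ ^ 2 : ℝ) : ℂ) / (1 + (starRingEnd ℂ) z * 0) ^ 2))) 0 := by
    have hT0 : T z 0 = z := by simp [T]
    have h1 : HasDerivAt (T z) (((1 - ‖z‖ ^ 2 : ℝ) : ℂ) / (1 + (starRingEnd ℂ) z * 0) ^ 2) 0 :=
      T_hasDerivAt hz1.le (by simp)
    have h2 : HasDerivAt χ (deriv χ z) (T z 0) := by
      rw [hT0]
      exact ((hd z hz).differentiableAt (isOpen_ball.mem_nhds hz)).hasDerivAt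
    have h3 : HasDerivAt (fun ζ => χ (T z ζ)) (deriv χ z * (((1 - ‖z‖ ^ 2 : ℝ) : ℂ) / (1 + (starRingEnd ℂ) z * 0) ^ 2)) 0 :=
      h2.comp 0 h1
    have h4 : HasDerivAt (T (-χ z)) (((1 - ‖-χ z‖ ^ 2 : ℝ) : ℂ) / (1 + (starRingEnd ℂ) (-χ z) * (χ z)) ^ 2)
        (χ (T z 0)) := by
      rw [hT0]
      exact T_hasDerivAt (by rw [norm_neg]; exact ha.le) ha
    exact h4.comp 0 h3
  have hmaps : MapsTo (fun ζ => T (-χ z) (χ (T z ζ))) (ball 0 1) (closedBall (T (-χ z) (χ (T z 0))) 1) := by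
    intro ζ hζ
    have hT0 : T z 0 = z := by simp [T]
    have e0 : T (-χ z) (χ z) = 0 := by simp [T]
    rw [hT0, e0, mem_closedBall_zero_iff]
    have hζ1 : ‖ζ‖ < 1 := by simpa using hζ
    have h5 : ‖χ (T z ζ)‖ < 1 := hm _ (by simpa using T_mem hz1 hζ1)
    exact (T_mem (by rw [norm_neg]; exact ha) h5).le
  have hdiff : DifferentiableOn ℂ (fun ζ => T (-χ z) (χ (T z ζ))) (ball 0 1) := by
    intro ζ hζ
    have hζ1 : ‖ζ‖ < 1 := by simpa using hζ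
    have hT : T z ζ ∈ ball (0:ℂ) 1 := by simpa using T_mem hz1 hζ1
    have h1 := (T_hasDerivAt hz1.le hζ1).differentiableAt
    have h2 : DifferentiableAt ℂ χ (T z ζ) := (hd _ hT).differentiableAt (isOpen_ball.mem_nhds hT)
    have h3 : DifferentiableAt ℂ (T (-χ z)) (χ (T z ζ)) :=
      (T_hasDerivAt (by rw [norm_neg]; exact ha.le) (hm _ hT)).differentiableAt
    exact (h3.comp ζ (h2.comp ζ h1)).differentiableWithinAt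
  have key := Complex.norm_deriv_le_one_of_mapsTo_ball hdiff hmaps one_pos
  rw [hg.deriv] at key
  have e1 : (1 + (starRingEnd ℂ) (-χ z) * (χ z)) = ((1 - ‖χ z‖ ^ 2 : ℝ) : ℂ) := by
    have : ((‖χ z‖ ^ 2 : ℝ) : ℂ) = χ z * (starRingEnd ℂ) (χ z) := by
      rw [Complex.mul_conj, Complex.normSq_eq_norm_sq]
    push_cast at this ⊢
    rw [this, map_neg]
    ring
  have hp1 : 0 < 1 - ‖χ z‖ ^ 2 := by nlinarith [norm_nonneg (χ z)]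
  have hp2 : 0 < 1 - ‖z‖ ^ 2 := by nlinarith [norm_nonneg z]
  rw [e1, norm_neg, norm_mul, norm_mul, norm_div, norm_div, norm_pow, mul_zero, add_zero, one_pow,
    norm_one, div_one, Complex.norm_real, Complex.norm_real, Real.norm_eq_abs, Real.norm_eq_abs,
    abs_of_pos hp1, abs_of_pos hp2] at key
  have h6 : (1 - ‖χ z‖ ^ 2) / (1 - ‖χ z‖ ^ 2) ^ 2 = (1 - ‖χ z‖ ^ 2)⁻¹ := by
    field_simp
  rw [h6, inv_mul_le_iff₀ hp1, mul_one] at key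
  exact key

/-- Schwarz-Pick, derivative form, for maps into the closed disc. -/
lemma sp {χ : ℂ → ℂ} (hd : DifferentiableOn ℂ χ (ball 0 1))
    (hm : ∀ z ∈ ball (0:ℂ) 1, ‖χ z‖ ≤ 1) {z : ℂ} (hz : z ∈ ball (0:ℂ) 1) :
    ‖deriv χ z‖ * (1 - ‖z‖ ^ 2) ≤ 1 - ‖χ z‖ ^ 2 := by
  have h1 : ∀ ρ ∈ Ioo (0:ℝ) 1, (ρ * ‖deriv χ z‖) * (1 - ‖z‖ ^ 2) ≤ 1 - (ρ * ‖χ z‖) ^ 2 := by
    intro ρ hρ
    have h2 := sp_open (χ := fun z => (ρ : ℂ) * χ z) (hd.const_mul _) (by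
      intro w hw
      rw [norm_mul, Complex.norm_real, Real.norm_eq_abs, abs_of_pos hρ.1]
      calc ρ * ‖χ w‖ ≤ ρ * 1 := by gcongr; exact hρ.1.le; exact hm w hw
        _ < 1 := by linarith [hρ.2]) hz
    have h3 : deriv (fun z => (ρ : ℂ) * χ z) z = (ρ:ℂ) * deriv χ z := by
      rw [deriv_const_mul]
      exact (hd z hz).differentiableAt (isOpen_ball.mem_nhds hz)
    rw [h3, norm_mul, norm_mul, Complex.norm_real, Real.norm_eq_abs, abs_of_pos hρ.1] at h2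
    exact h2
  have hcl : (1:ℝ) ∈ closure (Ioo (0:ℝ) 1) := by
    rw [closure_Ioo (by norm_num)]; simp
  have hset : IsClosed {ρ : ℝ | (ρ * ‖deriv χ z‖) * (1 - ‖z‖ ^ 2) ≤ 1 - (ρ * ‖χ z‖) ^ 2} :=
    isClosed_le (by fun_prop) (by fun_prop)
  have h5 : Ioo (0:ℝ) 1 ⊆ {ρ : ℝ | (ρ * ‖deriv χ z‖) * (1 - ‖z‖ ^ 2) ≤ 1 - (ρ * ‖χ z‖) ^ 2} :=
    fun ρ hρ => h1 ρ hρ
  have h6 : (1:ℝ) ∈ {ρ : ℝ | (ρ * ‖deriv χ z‖) * (1 - ‖z‖ ^ 2) ≤ 1 - (ρ * ‖χ z‖) ^ 2} :=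
    closure_minimal h5 hset hcl
  rw [Set.mem_ofPred_eq, one_mul, one_mul] at h6
  exact h6

/-- Dieudonné's lemma. -/
lemma dieudonne {η : ℂ → ℂ} (hd : DifferentiableOn ℂ η (ball 0 1)) (h0 : η 0 = 0)
    (hm : ∀ z ∈ ball (0:ℂ) 1, ‖η z‖ ≤ 1) {z : ℂ} (hz : z ∈ ball (0:ℂ) 1) (hz0 : z ≠ 0) :
    ‖z * deriv η z - η z‖ * (1 - ‖z‖ ^ 2) ≤ ‖z‖ ^ 2 - ‖η z‖ ^ 2 := by
  have hmaps : MapsTo η (ball 0 1) (closedBall (η 0) 1) := by
    intro w hw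
    rw [h0, mem_closedBall_zero_iff]
    exact hm w hw
  have hχm : ∀ w ∈ ball (0:ℂ) 1, ‖dslope η 0 w‖ ≤ 1 := by
    intro w hw
    have := Complex.norm_dslope_le_div_of_mapsTo_ball hd hmaps hw
    simpa using this
  have hχd : DifferentiableOn ℂ (dslope η 0) (ball 0 1) :=
    (Complex.differentiableOn_dslope (isOpen_ball.mem_nhds (mem_ball_self one_pos))).2 hd
  have key := sp hχd hχm hz
  have e1 : dslope η 0 z = η z / z := by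
    rw [dslope_of_ne _ hz0, slope_def_field, h0, sub_zero, sub_zero]
  have e2 : deriv (dslope η 0) z = (z * deriv η z - η z) / z ^ 2 := by
    have hev : dslope η 0 =ᶠ[𝓝 z] fun w => η w / w := by
      filter_upwards [isOpen_ne.mem_nhds hz0] with w hw
      rw [dslope_of_ne _ hw, slope_def_field, h0, sub_zero, sub_zero]
    rw [hev.deriv_eq]
    have hdz : HasDerivAt η (deriv η z) z :=
      ((hd z hz).differentiableAt (isOpen_ball.mem_nhds hz)).hasDerivAt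
    have h7 : HasDerivAt (fun w => η w / w) ((deriv η z * z - η z * 1) / z ^ 2) z :=
      hdz.div (hasDerivAt_id' z) hz0
    rw [h7.deriv]
    ring
  have hzp : 0 < ‖z‖ := norm_pos_iff.2 hz0
  rw [e1, e2, norm_div, norm_div, norm_pow, div_pow] at key
  have h3 := mul_le_mul_of_nonneg_left key (sq_nonneg ‖z‖)
  have e3 : ‖z‖ ^ 2 * (‖z * deriv η z - η z‖ / ‖z‖ ^ 2 * (1 - ‖z‖ ^ 2)) =
      ‖z * deriv η z - η z‖ * (1 - ‖z‖ ^ 2) := by field_simp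
  have e4 : ‖z‖ ^ 2 * (1 - ‖η z‖ ^ 2 / ‖z‖ ^ 2) = ‖z‖ ^ 2 - ‖η z‖ ^ 2 := by field_simp
  rw [e3, e4] at h3
  exact h3

end Pool.Agent.H790R2.Campbell
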