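import Mathlib
import Pool.Agent.H790R2.CampC

set_option autoImplicit false

open Filter Topology Set Complex Metric

namespace Pool.Agent.H790R2.Campbell

/-- Distortion along a radius. -/
lemma radial {G : ℂ → ℂ} {α : ℝ} (hd : DifferentiableOn ℂ G (ball 0 1))
    (hG : ∀ ζ ∈ ball (0:ℂ) 1, ‖(1 - ‖ζ‖ ^ 2 : ℂ) * deriv G ζ - 2 * (starRingEnd ℂ) ζ * G ζ‖ ≤ 2 * α * ‖G ζ‖)
    {ζ : ℂ} (hζ : ζ ∈ ball (0:ℂ) 1) :
    ‖G ζ‖ * ((1 - ‖ζ‖ ^ 2) * ((1 - ‖ζ‖) / (1 + ‖ζ‖)) ^ α) ≤ ‖G 0‖ := by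
  have hζ1 : ‖ζ‖ < 1 := by simpa using hζ
  rcases eq_or_ne ζ 0 with h0 | h0
  · rw [h0]; simp
  have hρ : 0 < ‖ζ‖ := norm_pos_iff.2 h0
  obtain ⟨ρ, hρd⟩ : ∃ ρ, ρ = ‖ζ‖ := ⟨_, rfl⟩
  obtain ⟨ω, hω⟩ : ∃ ω, ω = ζ / (ρ : ℂ) := ⟨_, rfl⟩
  have hωn : ‖ω‖ = 1 := by
    rw [hω, norm_div, Complex.norm_real, Real.norm_eq_abs, hρd, abs_of_pos hρ, div_self hρ.ne']
  have hζω : ζ = (ρ : ℂ) * ω := by
    rw [hω]
    have : (ρ : ℂ) ≠ 0 := by rw [hρd]; exact_mod_cast hρ.ne'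
    field_simp
  rw [← hρd] at hζ1 hρ ⊢
  -- the real function
  let φ : ℝ → ℝ := fun t => (1 - t ^ 2) * ((1 - t) / (1 + t)) ^ α
  have hφpos : ∀ t ∈ Icc (0:ℝ) ρ, 0 < φ t := by
    intro t ht
    have h1 : t < 1 := lt_of_le_of_lt ht.2 hζ1
    have h2 : 0 < 1 - t := by linarith
    have h3 : 0 < 1 + t := by linarith [ht.1]
    have h4 : 0 < 1 - t ^ 2 := by nlinarith
    exact mul_pos h4 (Real.rpow_pos_of_pos (div_pos h2 h3) _)
  have hφd : ∀ t ∈ Icc (0:ℝ) ρ, HasDerivAt φ (-(2 * t + 2 * α) / (1 - t ^ 2) * φ t) t := by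
    intro t ht
    have h1 : t < 1 := lt_of_le_of_lt ht.2 hζ1
    have h2 : 0 < 1 - t := by linarith
    have h3 : 0 < 1 + t := by linarith [ht.1]
    have h4 : 0 < 1 - t ^ 2 := by nlinarith
    have d1 : HasDerivAt (fun t : ℝ => 1 - t ^ 2) (-(2 * t)) t := by
      simpa using (hasDerivAt_pow 2 t).const_sub 1
    have d2 : HasDerivAt (fun t : ℝ => (1 - t) / (1 + t)) ((-1 * (1 + t) - (1 - t) * 1) / (1 + t) ^ 2) t :=
      ((hasDerivAt_id' t).const_sub 1).div ((hasDerivAt_id' t).const_add 1) h3.ne'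
    have hbase : 0 < (1 - t) / (1 + t) := div_pos h2 h3
    have d3 := d2.rpow_const (p := α) (Or.inl hbase.ne')
    refine (d1.mul d3).congr_deriv ?_
    have e1 : ((1 - t) / (1 + t)) ^ (α - 1) = ((1 - t) / (1 + t)) ^ α * ((1 + t) / (1 - t)) := by
      rw [Real.rpow_sub hbase, Real.rpow_one]
      field_simp
    simp only [φ]
    rw [e1]
    have h5 : (1 - t ^ 2) = (1 - t) * (1 + t) := by ring
    rw [h5]
    field_simp
    ring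
  have hmem : ∀ t ∈ Icc (0:ℝ) ρ, (t : ℂ) * ω ∈ ball (0:ℂ) 1 := by
    intro t ht
    rw [mem_ball_zero_iff, norm_mul, hωn, mul_one, Complex.norm_real, Real.norm_eq_abs, abs_of_nonneg ht.1]
    linarith [ht.2]
  have hGd : ∀ t ∈ Icc (0:ℝ) ρ, HasDerivAt (fun t : ℝ => G ((t : ℂ) * ω)) (deriv G ((t:ℂ) * ω) * ω) t := by
    intro t ht
    have h1 : HasDerivAt G (deriv G ((t:ℂ) * ω)) ((t:ℂ) * ω) :=
      ((hd _ (hmem t ht)).differentiableAt (isOpen_ball.mem_nhds (hmem t ht))).hasDerivAt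
    have h2 : HasDerivAt (fun t : ℝ => (t : ℂ) * ω) ω t := by
      simpa using (Complex.ofRealCLM.hasDerivAt (x := t)).mul_const ω
    exact h1.comp t h2
  -- squared norm
  have hN : AntitoneOn (fun t : ℝ => ‖G ((t : ℂ) * ω)‖ ^ 2 * (φ t) ^ 2) (Icc 0 ρ) := by
    have hder : ∀ t ∈ Icc (0:ℝ) ρ, HasDerivAt (fun t : ℝ => ‖G ((t : ℂ) * ω)‖ ^ 2 * (φ t) ^ 2)
        (2 * (inner ℝ (G ((t : ℂ) * ω)) (deriv G ((t:ℂ) * ω) * ω)) * (φ t) ^ 2 +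
          ‖G ((t : ℂ) * ω)‖ ^ 2 * (2 * φ t ^ (2 - 1) * (-(2 * t + 2 * α) / (1 - t ^ 2) * φ t))) t := by
      intro t ht
      exact ((hGd t ht).norm_sq).mul ((hφd t ht).pow 2)
    apply antitoneOn_of_deriv_nonpos (convex_Icc 0 ρ)
    · intro t ht
      exact (hder t ht).continuousAt.continuousWithinAt
    · intro t ht
      rw [interior_Icc] at ht
      exact (hder t ⟨ht.1.le, ht.2.le⟩).differentiableAt.differentiableWithinAt
    · intro t ht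
      rw [interior_Icc] at ht
      have ht' : t ∈ Icc (0:ℝ) ρ := ⟨ht.1.le, ht.2.le⟩
      rw [(hder t ht').deriv]
      have h1 : t < 1 := lt_of_le_of_lt ht'.2 hζ1
      have h4 : 0 < 1 - t ^ 2 := by nlinarith [ht.1]
      have hφ := hφpos t ht'
      have hin : (inner ℝ (G ((t : ℂ) * ω)) (deriv G ((t:ℂ) * ω) * ω)) * (1 - t ^ 2) ≤
          (2 * t + 2 * α) * ‖G ((t : ℂ) * ω)‖ ^ 2 := by
        have hb := hG _ (hmem t ht')
        have hnt : ‖(t:ℂ) * ω‖ = t := by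
          rw [norm_mul, hωn, mul_one, Complex.norm_real, Real.norm_eq_abs, abs_of_nonneg ht.1.le]
        rw [hnt] at hb
        have hωc : (starRingEnd ℂ) ω * ω = 1 := by
          rw [mul_comm, Complex.mul_conj, Complex.normSq_eq_norm_sq, hωn]; norm_num
        have h5 : ‖((1 - (t:ℂ) ^ 2) * deriv G ((t:ℂ) * ω) - 2 * (starRingEnd ℂ) ((t:ℂ) * ω) * G ((t:ℂ) * ω)) * ω‖ ≤
            2 * α * ‖G ((t:ℂ) * ω)‖ := by
          rw [norm_mul, hωn, mul_one]; exact hb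
        have h6 : ((1 - (t:ℂ) ^ 2) * deriv G ((t:ℂ) * ω) - 2 * (starRingEnd ℂ) ((t:ℂ) * ω) * G ((t:ℂ) * ω)) * ω =
            (1 - t ^ 2 : ℝ) • (deriv G ((t:ℂ) * ω) * ω) - (2 * t : ℝ) • G ((t:ℂ) * ω) := by
          rw [map_mul, Complex.conj_ofReal, Complex.real_smul, Complex.real_smul]
          push_cast
          linear_combination (-2 * t * G ((t:ℂ) * ω)) * hωc
        rw [h6] at h5
        generalize G ((t:ℂ) * ω) = A at h5 ⊢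
        generalize deriv G ((t:ℂ) * ω) * ω = B at h5 ⊢
        have h7 : inner ℝ A ((1 - t ^ 2 : ℝ) • B - (2 * t : ℝ) • A) ≤
            ‖A‖ * (2 * α * ‖A‖) :=
          (real_inner_le_norm _ _).trans (mul_le_mul_of_nonneg_left h5 (norm_nonneg _))
        rw [inner_sub_right, real_inner_smul_right,
          real_inner_smul_right, real_inner_self_eq_norm_sq] at h7
        nlinarith
      have e2 : 2 * (inner ℝ (G ((t : ℂ) * ω)) (deriv G ((t:ℂ) * ω) * ω)) * (φ t) ^ 2 +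
          ‖G ((t : ℂ) * ω)‖ ^ 2 * (2 * φ t ^ (2 - 1) * (-(2 * t + 2 * α) / (1 - t ^ 2) * φ t)) =
          2 * (φ t) ^ 2 / (1 - t ^ 2) * ((inner ℝ (G ((t : ℂ) * ω)) (deriv G ((t:ℂ) * ω) * ω)) * (1 - t ^ 2) -
            (2 * t + 2 * α) * ‖G ((t : ℂ) * ω)‖ ^ 2) := by
        simp only [Nat.add_one_sub_one, pow_one]
        field_simp
        ring
      rw [e2]
      apply mul_nonpos_of_nonneg_of_nonpos (by positivity)
      linarith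
  have hfin := hN (left_mem_Icc.2 hρ.le) (right_mem_Icc.2 hρ.le) hρ.le
  simp only [Complex.ofReal_zero, zero_mul] at hfin
  have hφ0 : φ 0 = 1 := by simp [φ]
  rw [hφ0, ← hζω, one_pow, mul_one, ← mul_pow] at hfin
  exact le_of_sq_le_sq hfin (norm_nonneg _)

/-- The Koebe transform of the derivative. -/
lemma koebe {F : ℂ → ℂ} {α : ℝ} (hd : DifferentiableOn ℂ F (ball 0 1))
    (hF : ∀ ζ ∈ ball (0:ℂ) 1, ‖(1 - ‖ζ‖ ^ 2 : ℂ) * deriv F ζ - 2 * (starRingEnd ℂ) ζ * F ζ‖ ≤ 2 * α * ‖F ζ‖)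
    {z : ℂ} (hz : z ∈ ball (0:ℂ) 1) {w : ℂ} (hw : w ∈ ball (0:ℂ) 1) :
    ‖F w‖ * ((1 - ‖w‖ ^ 2) * ((1 - ‖T (-z) w‖) / (1 + ‖T (-z) w‖)) ^ α) ≤ ‖F z‖ * (1 - ‖z‖ ^ 2) := by
  have hz1 : ‖z‖ < 1 := by simpa using hz
  have hw1 : ‖w‖ < 1 := by simpa using hw
  have hzp : 0 < 1 - ‖z‖ ^ 2 := by nlinarith [norm_nonneg z]
  -- G ζ = F (T z ζ) * T'(ζ)
  let D : ℂ → ℂ := fun ζ => ((1 - ‖z‖ ^ 2 : ℝ) : ℂ) / (1 + (starRingEnd ℂ) z * ζ) ^ 2
  let G : ℂ → ℂ := fun ζ => F (T z ζ) * D ζ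
  have hDd : ∀ ζ ∈ ball (0:ℂ) 1, HasDerivAt D (-2 * (starRingEnd ℂ) z / (1 + (starRingEnd ℂ) z * ζ) * D ζ) ζ := by
    intro ζ hζ
    have hζ1 : ‖ζ‖ < 1 := by simpa using hζ
    have h := one_add_conj_ne hz1.le hζ1
    have h2 : HasDerivAt (fun ζ : ℂ => 1 + (starRingEnd ℂ) z * ζ) ((starRingEnd ℂ) z) ζ := by
      simpa using ((hasDerivAt_id' ζ).const_mul ((starRingEnd ℂ) z)).const_add 1
    have h2' : HasDerivAt (fun ζ : ℂ => (1 + (starRingEnd ℂ) z * ζ) ^ 2)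
        (2 * (1 + (starRingEnd ℂ) z * ζ) * (starRingEnd ℂ) z) ζ := by
      simpa using h2.fun_pow 2
    have h3 : HasDerivAt D ((0 * (1 + (starRingEnd ℂ) z * ζ) ^ 2 - ((1 - ‖z‖ ^ 2 : ℝ) : ℂ) *
        (2 * (1 + (starRingEnd ℂ) z * ζ) * (starRingEnd ℂ) z)) / ((1 + (starRingEnd ℂ) z * ζ) ^ 2) ^ 2) ζ :=
      (hasDerivAt_const ζ _).fun_div h2' (pow_ne_zero 2 h)
    refine h3.congr_deriv ?_
    simp only [D]
    generalize 1 + (starRingEnd ℂ) z * ζ = q at h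
    field_simp
    ring
  have hGd : ∀ ζ ∈ ball (0:ℂ) 1, HasDerivAt G (deriv F (T z ζ) * D ζ * D ζ +
      F (T z ζ) * (-2 * (starRingEnd ℂ) z / (1 + (starRingEnd ℂ) z * ζ) * D ζ)) ζ := by
    intro ζ hζ
    have hζ1 : ‖ζ‖ < 1 := by simpa using hζ
    have hT : T z ζ ∈ ball (0:ℂ) 1 := by simpa using T_mem hz1 hζ1
    have h1 : HasDerivAt F (deriv F (T z ζ)) (T z ζ) :=
      ((hd _ hT).differentiableAt (isOpen_ball.mem_nhds hT)).hasDerivAt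
    have h2 : HasDerivAt (fun ζ => F (T z ζ)) (deriv F (T z ζ) * D ζ) ζ :=
      h1.comp ζ (T_hasDerivAt hz1.le hζ1)
    exact h2.mul (hDd ζ hζ)
  have hdG : DifferentiableOn ℂ G (ball 0 1) := fun ζ hζ => (hGd ζ hζ).differentiableAt.differentiableWithinAt
  have hDnorm : ∀ ζ ∈ ball (0:ℂ) 1, ‖D ζ‖ * (1 - ‖ζ‖ ^ 2) = 1 - ‖T z ζ‖ ^ 2 := by
    intro ζ hζ
    have hζ1 : ‖ζ‖ < 1 := by simpa using hζ
    rw [T_norm hz1.le hζ1]
    simp only [D]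
    rw [norm_div, norm_pow, Complex.norm_real, Real.norm_eq_abs, abs_of_pos hzp]
    ring
  have hGb : ∀ ζ ∈ ball (0:ℂ) 1, ‖(1 - ‖ζ‖ ^ 2 : ℂ) * deriv G ζ - 2 * (starRingEnd ℂ) ζ * G ζ‖ ≤ 2 * α * ‖G ζ‖ := by
    intro ζ hζ
    have hζ1 : ‖ζ‖ < 1 := by simpa using hζ
    have h := one_add_conj_ne hz1.le hζ1
    have hc : (starRingEnd ℂ) (1 + (starRingEnd ℂ) z * ζ) = 1 + z * (starRingEnd ℂ) ζ := by simp
    have hT : T z ζ ∈ ball (0:ℂ) 1 := by simpa using T_mem hz1 hζ1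
    have hb := hF _ hT
    rw [(hGd ζ hζ).deriv]
    have hzz : ((‖z‖:ℝ):ℂ) ^ 2 = z * (starRingEnd ℂ) z := by
      rw [Complex.mul_conj, Complex.normSq_eq_norm_sq]; push_cast; rfl
    have hζζ : ((‖ζ‖:ℝ):ℂ) ^ 2 = ζ * (starRingEnd ℂ) ζ := by
      rw [Complex.mul_conj, Complex.normSq_eq_norm_sq]; push_cast; rfl
    have hTT : ((‖T z ζ‖:ℝ):ℂ) ^ 2 = T z ζ * (starRingEnd ℂ) (T z ζ) := by
      rw [Complex.mul_conj, Complex.normSq_eq_norm_sq]; push_cast; rfl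
    have hne2 : 1 + z * (starRingEnd ℂ) ζ ≠ 0 := by
      rw [← hc]; exact (map_ne_zero _).2 h
    have hTc : (starRingEnd ℂ) (T z ζ) = ((starRingEnd ℂ) ζ + (starRingEnd ℂ) z) / (1 + z * (starRingEnd ℂ) ζ) := by
      unfold T
      rw [map_div₀, map_add, hc]
    have hDeq : D ζ = (1 - z * (starRingEnd ℂ) z) / (1 + (starRingEnd ℂ) z * ζ) ^ 2 := by
      simp only [D]
      push_cast
      rw [hzz]
    have e1 : (1 - (‖ζ‖:ℂ) ^ 2) * (deriv F (T z ζ) * D ζ * D ζ +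
      F (T z ζ) * (-2 * (starRingEnd ℂ) z / (1 + (starRingEnd ℂ) z * ζ) * D ζ)) -
        2 * (starRingEnd ℂ) ζ * G ζ =
        (D ζ * ((1 + z * (starRingEnd ℂ) ζ) / (1 + (starRingEnd ℂ) z * ζ))) *
        ((1 - (‖T z ζ‖:ℂ) ^ 2) * deriv F (T z ζ) - 2 * (starRingEnd ℂ) (T z ζ) * F (T z ζ)) := by
      rw [hTT, hTc, hζζ]
      simp only [G]
      rw [show T z ζ * (((starRingEnd ℂ) ζ + (starRingEnd ℂ) z) / (1 + z * (starRingEnd ℂ) ζ)) =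
        (ζ + z) / (1 + (starRingEnd ℂ) z * ζ) * (((starRingEnd ℂ) ζ + (starRingEnd ℂ) z) / (1 + z * (starRingEnd ℂ) ζ)) from rfl]
      generalize F (T z ζ) = A
      generalize deriv F (T z ζ) = B
      have hd1 : (1 - z * (starRingEnd ℂ) z) * (1 - ζ * (starRingEnd ℂ) ζ) =
        (1 + (starRingEnd ℂ) z * ζ) * (1 + z * (starRingEnd ℂ) ζ) - (ζ + z) * ((starRingEnd ℂ) ζ + (starRingEnd ℂ) z) := by ring
      have c1 : (1 - ζ * (starRingEnd ℂ) ζ) * D ζ = ((1 + z * (starRingEnd ℂ) ζ) / (1 + (starRingEnd ℂ) z * ζ)) *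
          (1 - (ζ + z) / (1 + (starRingEnd ℂ) z * ζ) * (((starRingEnd ℂ) ζ + (starRingEnd ℂ) z) / (1 + z * (starRingEnd ℂ) ζ))) := by
        rw [hDeq]
        generalize hp : 1 + (starRingEnd ℂ) z * ζ = p at *
        generalize hq : 1 + z * (starRingEnd ℂ) ζ = q at *
        field_simp
        linear_combination hd1
      have c2 : (1 - ζ * (starRingEnd ℂ) ζ) * (-2 * (starRingEnd ℂ) z / (1 + (starRingEnd ℂ) z * ζ)) - 2 * (starRingEnd ℂ) ζ =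
          -2 * (((1 + z * (starRingEnd ℂ) ζ) / (1 + (starRingEnd ℂ) z * ζ)) *
            (((starRingEnd ℂ) ζ + (starRingEnd ℂ) z) / (1 + z * (starRingEnd ℂ) ζ))) := by
        rw [div_mul_div_comm, mul_comm (1 + (starRingEnd ℂ) z * ζ) (1 + z * (starRingEnd ℂ) ζ),
          mul_div_mul_left _ _ hne2, mul_div_assoc', sub_eq_iff_eq_add, mul_div_assoc',
          div_add' _ _ _ h, div_left_inj' h]
        ring
      linear_combination (B * D ζ) * c1 + (A * D ζ) * c2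
    have e3 : ‖D ζ * ((1 + z * (starRingEnd ℂ) ζ) / (1 + (starRingEnd ℂ) z * ζ))‖ = ‖D ζ‖ := by
      have e4 : ‖(1 + z * (starRingEnd ℂ) ζ) / (1 + (starRingEnd ℂ) z * ζ)‖ = 1 := by
        rw [norm_div, ← hc, RCLike.norm_conj, div_self (norm_pos_iff.2 h).ne']
      rw [norm_mul, e4, mul_one]
    rw [e1, norm_mul, e3]
    simp only [G]
    rw [norm_mul]
    calc ‖D ζ‖ * ‖(1 - (‖T z ζ‖:ℂ) ^ 2) * deriv F (T z ζ) - 2 * (starRingEnd ℂ) (T z ζ) * F (T z ζ)‖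
        ≤ ‖D ζ‖ * (2 * α * ‖F (T z ζ)‖) := mul_le_mul_of_nonneg_left hb (norm_nonneg _)
      _ = _ := by ring
  have hζ : T (-z) w ∈ ball (0:ℂ) 1 := by
    simpa using T_mem (z := -z) (by rwa [norm_neg]) hw1
  have hTT : T z (T (-z) w) = w := by
    have h1 := one_add_conj_ne (z := -z) (by rw [norm_neg]; exact hz1.le) hw1
    have hzz : (1:ℂ) - z * (starRingEnd ℂ) z ≠ 0 := by
      have : (1:ℂ) - z * (starRingEnd ℂ) z = ((1 - ‖z‖ ^ 2 : ℝ) : ℂ) := by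
        rw [Complex.mul_conj, Complex.normSq_eq_norm_sq]; push_cast; rfl
      rw [this]; exact_mod_cast hzp.ne'
    unfold T
    have e2 : 1 + (starRingEnd ℂ) z * ((w + -z) / (1 + (starRingEnd ℂ) (-z) * w)) =
        (1 - z * (starRingEnd ℂ) z) / (1 + (starRingEnd ℂ) (-z) * w) := by
      rw [eq_div_iff h1, add_mul, mul_assoc, div_mul_cancel₀ _ h1, map_neg]
      ring
    have e3 : (w + -z) / (1 + (starRingEnd ℂ) (-z) * w) + z = w * (1 - z * (starRingEnd ℂ) z) / (1 + (starRingEnd ℂ) (-z) * w) := by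
      rw [eq_div_iff h1, add_mul, div_mul_cancel₀ _ h1, map_neg]
      ring
    rw [e2, e3, div_div_div_cancel_right₀ h1, mul_div_cancel_right₀ _ hzz]
  have key := radial hdG hGb hζ
  have hG0 : ‖G 0‖ = ‖F z‖ * (1 - ‖z‖ ^ 2) := by
    have : G 0 = F z * ((1 - ‖z‖ ^ 2 : ℝ) : ℂ) := by simp [G, D, T]
    rw [this, norm_mul, Complex.norm_real, Real.norm_eq_abs, abs_of_pos hzp]
  have hG1 : ‖G (T (-z) w)‖ = ‖F w‖ * ‖D (T (-z) w)‖ := by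
    simp only [G]
    rw [norm_mul, hTT]
  rw [hG0, hG1] at key
  have h8 := hDnorm _ hζ
  rw [hTT] at h8
  rw [← h8]
  calc _ = ‖F w‖ * ‖D (T (-z) w)‖ * ((1 - ‖T (-z) w‖ ^ 2) * ((1 - ‖T (-z) w‖) / (1 + ‖T (-z) w‖)) ^ α) := by ring
    _ ≤ _ := key

end Pool.Agent.H790R2.Campbell
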