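import Mathlib
import Pool.Agent.H790R2.CampB
import Pool.Agent.H790R2.CampD

set_option autoImplicit false

open Filter Topology Set Complex Metric

namespace Pool.Agent.H790R2.Campbell

/-- From the order bound to the bound on the logarithmic derivative of `F'`. -/
lemma ord_to {A B ζ : ℂ} {α x : ℝ} (hB : B ≠ 0)
    (h : ‖-(starRingEnd ℂ) ζ + (1 - (x : ℂ) ^ 2) * A / (2 * B)‖ ≤ α) :
    ‖(1 - (x : ℂ) ^ 2) * A - 2 * (starRingEnd ℂ) ζ * B‖ ≤ 2 * α * ‖B‖ := by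
  have e : (1 - (x : ℂ) ^ 2) * A - 2 * (starRingEnd ℂ) ζ * B =
      2 * B * (-(starRingEnd ℂ) ζ + (1 - (x : ℂ) ^ 2) * A / (2 * B)) := by
    field_simp
    ring
  rw [e, norm_mul, norm_mul, Complex.norm_ofNat]
  have hBp : 0 ≤ 2 * ‖B‖ := by positivity
  calc 2 * ‖B‖ * _ ≤ 2 * ‖B‖ * α := mul_le_mul_of_nonneg_left h hBp
    _ = _ := by ring

lemma r_cond {α r : ℝ} (hα : 1 ≤ α) (h : r < α + 1 - √(α ^ 2 + 2 * α)) :
    2 * α * r ≤ (1 - r) ^ 2 := by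
  have h1 : √(α ^ 2 + 2 * α) < α + 1 - r := by linarith
  have h2 : (√(α ^ 2 + 2 * α)) ^ 2 = α ^ 2 + 2 * α := Real.sq_sqrt (by positivity)
  have h3 := Real.sqrt_nonneg (α ^ 2 + 2 * α)
  nlinarith

/-- the main scalar inequality: hyperbolic derivative against the distortion factor. -/
lemma hyp_bound {r c : ℝ} {s δ : ℂ} {α : ℝ} (hr0 : 0 < r) (hr1 : r < 1) (hα : 1 ≤ α)
    (hαr : 2 * α * r ≤ (1 - r) ^ 2)
    (hc0 : 0 ≤ c) (hc1 : c < 1) (hs : ‖s‖ ≤ r)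
    (hδ : ‖δ‖ * (1 - r ^ 2) ≤ r ^ 2 - ‖s‖ ^ 2) {ρ : ℝ} (hρ0 : 0 ≤ ρ)
    (hρ : ρ * ‖(1 - r ^ 2 * c : ℂ) + (c - r ^ 2) * s‖ = r * ((1 - c) * ‖1 - s‖)) :
    ‖(c : ℂ) + 2 * s + c * s ^ 2 + (1 - c ^ 2) * δ‖ * (1 - r ^ 2) ≤
      ((1 - r ^ 2) * (1 + 2 * c * s.re + ‖s‖ ^ 2) + (1 - c ^ 2) * (r ^ 2 - ‖s‖ ^ 2)) *
        ((1 - ρ) / (1 + ρ)) ^ α := by
  have hr : 0 ≤ r ^ 2 - 4 * r + 1 := by nlinarith
  have key := ineq hr0 hr1 hr hc0 hc1.le hs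
  have hE2 := E_sq r c s
  obtain ⟨E, hE⟩ : ∃ E, E = ‖(1 - r ^ 2 * c : ℂ) + (c - r ^ 2) * s‖ := ⟨_, rfl⟩
  obtain ⟨X, hX⟩ : ∃ X, X = (1 - c) * ‖1 - s‖ := ⟨_, rfl⟩
  obtain ⟨M, hM⟩ : ∃ M, M = 1 + 2 * c * s.re + ‖s‖ ^ 2 := ⟨_, rfl⟩
  obtain ⟨K, hK⟩ : ∃ K, K = ‖(c : ℂ) + 2 * s + c * s ^ 2‖ := ⟨_, rfl⟩
  have hXsq : r ^ 2 * (1 - c) ^ 2 * ‖1 - s‖ ^ 2 = r ^ 2 * X ^ 2 := by rw [hX]; ring
  obtain ⟨N, hN⟩ : ∃ N, N = (1 - r ^ 2) * M + (1 - c ^ 2) * (r ^ 2 - ‖s‖ ^ 2) := ⟨_, rfl⟩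
  rw [hXsq, ← hE, ← hM, ← hN] at hE2
  rw [← hE, ← hX] at hρ
  rw [← hE, ← hX, ← hM, ← hK] at key
  rw [← hM, ← hN]
  have hE0 : 0 ≤ E := by rw [hE]; exact norm_nonneg _
  have hX0 : 0 ≤ X := by rw [hX]; exact mul_nonneg (by linarith) (norm_nonneg _)
  have hK0 : 0 ≤ K := by rw [hK]; exact norm_nonneg _
  have hs0 := norm_nonneg s
  have hq : 0 < 1 - r ^ 2 := by nlinarith
  have hc2 : 0 < 1 - c ^ 2 := by nlinarith
  -- M > 0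
  have hMpos : 0 < M := by
    have h1 : |s.re| ≤ ‖s‖ := Complex.abs_re_le_norm s
    have h2 := (abs_le.1 h1).1
    rw [hM]
    nlinarith [mul_nonneg hc0 hs0, sq_nonneg (1 - ‖s‖)]
  have hrs : 0 ≤ r ^ 2 - ‖s‖ ^ 2 := by nlinarith
  have hNpos : 0 < N := by rw [hN]; positivity
  -- E > r X
  have hErX : r * X < E := by
    have h1 : 0 < E ^ 2 - (r * X) ^ 2 := by
      have : E ^ 2 - (r * X) ^ 2 = (1 - r ^ 2) * N := by rw [hE2]; ring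
      rw [this]; positivity
    exact lt_of_pow_lt_pow_left₀ 2 hE0 (by linarith)
  have hEpos : 0 < E := lt_of_le_of_lt (by positivity) hErX
  have hρ1 : ρ < 1 := by
    by_contra hcon
    push Not at hcon
    nlinarith
  have hsum : 0 < E + r * X := by positivity
  -- Bernoulli
  have hb : 1 - (1 - r) ^ 2 * X / (E + r * X) ≤ ((1 - ρ) / (1 + ρ)) ^ α := by
    have h1 : (1 - ρ) / (1 + ρ) = 1 + (-(2 * ρ / (1 + ρ))) := by
      field_simp; ring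
    have h2 : -1 ≤ -(2 * ρ / (1 + ρ)) := by
      rw [neg_le_neg_iff, div_le_one (by linarith)]; linarith
    have h3 := one_add_mul_self_le_rpow_one_add h2 hα
    rw [← h1] at h3
    refine le_trans ?_ h3
    have h4 : 2 * ρ / (1 + ρ) = 2 * (r * X) / (E + r * X) := by
      rw [div_eq_div_iff (by linarith) hsum.ne', ← hρ]; ring
    rw [h4]
    have h5 : α * (2 * (r * X) / (E + r * X)) ≤ (1 - r) ^ 2 * X / (E + r * X) := by
      rw [mul_div_assoc']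
      apply div_le_div_of_nonneg_right _ hsum.le
      nlinarith [mul_le_mul_of_nonneg_right hαr hX0]
    linarith
  have hnorm : ‖(c : ℂ) + 2 * s + c * s ^ 2 + (1 - c ^ 2) * δ‖ * (1 - r ^ 2) ≤
      K * (1 - r ^ 2) + (1 - c ^ 2) * (r ^ 2 - ‖s‖ ^ 2) := by
    have h1 : ‖(c : ℂ) + 2 * s + c * s ^ 2 + (1 - c ^ 2) * δ‖ ≤ K + (1 - c ^ 2) * ‖δ‖ := by
      refine (norm_add_le _ _).trans ?_
      rw [hK, norm_mul]
      have : ‖(1 - (c:ℂ) ^ 2)‖ = 1 - c ^ 2 := by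
        have e : (1 - (c:ℂ) ^ 2) = ((1 - c ^ 2 : ℝ) : ℂ) := by push_cast; rfl
        rw [e, Complex.norm_real, Real.norm_eq_abs, abs_of_pos hc2]
      rw [this]
    calc _ ≤ (K + (1 - c ^ 2) * ‖δ‖) * (1 - r ^ 2) := mul_le_mul_of_nonneg_right h1 hq.le
      _ = K * (1 - r ^ 2) + (1 - c ^ 2) * (‖δ‖ * (1 - r ^ 2)) := by ring
      _ ≤ _ := by gcongr
  refine hnorm.trans ?_
  have hfinal : K * (1 - r ^ 2) + (1 - c ^ 2) * (r ^ 2 - ‖s‖ ^ 2) ≤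
      N * (1 - (1 - r) ^ 2 * X / (E + r * X)) := by
    have h1 : (1 - r ^ 2) * (X * (E - r * X) / (1 + r) ^ 2) = N * ((1 - r) ^ 2 * X / (E + r * X)) := by
      have h2 : (E - r * X) * (E + r * X) = (1 - r ^ 2) * N := by nlinarith
      have h3 : (1 + r) ≠ 0 := by positivity
      rw [mul_div_assoc', mul_div_assoc', div_eq_div_iff (by positivity) hsum.ne']
      have h4 : (1 - r ^ 2) = (1 - r) * (1 + r) := by ring
      calc (1 - r ^ 2) * (X * (E - r * X)) * (E + r * X) = (1 - r ^ 2) * X * ((E - r * X) * (E + r * X)) := by ring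
        _ = (1 - r ^ 2) ^ 2 * X * N := by rw [h2]; ring
        _ = _ := by ring
    have h5 : N * (1 - (1 - r) ^ 2 * X / (E + r * X)) = N - (1 - r ^ 2) * (X * (E - r * X) / (1 + r) ^ 2) := by
      rw [h1]; ring
    rw [h5, hN]
    have h6 := mul_le_mul_of_nonneg_left key hq.le
    nlinarith
  exact hfinal.trans (mul_le_mul_of_nonneg_left hb hNpos.le)

/-- The theorem for the point `z ≠ 0`, `c < 1`. -/
theorem main_aux {F w : ℂ → ℂ} {α : ℝ} (hα : 1 ≤ α)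
    (hF : DifferentiableOn ℂ F (ball 0 1)) (hF' : ∀ z ∈ ball (0:ℂ) 1, deriv F z ≠ 0)
    (hord : ∀ z ∈ ball (0:ℂ) 1,
      ‖-(starRingEnd ℂ) z + (1 - (‖z‖ : ℂ) ^ 2) * deriv (deriv F) z / (2 * deriv F z)‖ ≤ α)
    (hw : DifferentiableOn ℂ w (ball 0 1)) (hwz : ∀ z ∈ ball (0:ℂ) 1, ‖w z‖ ≤ ‖z‖)
    {c : ℝ} (hc : 0 ≤ c) (hc1 : c < 1) (hwc : deriv w 0 = c) {z : ℂ} (hz : z ∈ ball (0:ℂ) 1) (hz0 : z ≠ 0)
    (hr : ‖z‖ < α + 1 - √(α ^ 2 + 2 * α)) :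
    ‖deriv F (w z) * deriv w z‖ ≤ ‖deriv F z‖ := by
  have hz1 : ‖z‖ < 1 := by simpa using hz
  have hzp : 0 < ‖z‖ := norm_pos_iff.2 hz0
  have h00 : (0:ℂ) ∈ ball (0:ℂ) 1 := mem_ball_self one_pos
  have hw0 : w 0 = 0 := by
    have := hwz 0 h00
    rw [norm_zero] at this
    exact norm_le_zero_iff.1 this
  -- ψ
  let ψ : ℂ → ℂ := dslope w 0
  have hψd : DifferentiableOn ℂ ψ (ball 0 1) :=
    (Complex.differentiableOn_dslope (isOpen_ball.mem_nhds h00)).2 hw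
  have hψ0 : ψ 0 = c := by simp only [ψ]; rw [dslope_same, hwc]
  have hψw : ∀ ζ, w ζ = ζ * ψ ζ := by
    intro ζ
    simp only [ψ]
    have := sub_smul_dslope w 0 ζ
    rw [sub_zero, hw0, sub_zero, smul_eq_mul] at this
    exact this.symm
  have hψ1 : ∀ ζ ∈ ball (0:ℂ) 1, ‖ψ ζ‖ ≤ 1 := by
    intro ζ hζ
    rcases eq_or_ne ζ 0 with h | h
    · rw [h, hψ0, Complex.norm_real, Real.norm_eq_abs, abs_of_nonneg hc]; exact hc1.le
    · have h1 := hwz ζ hζ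
      rw [hψw, norm_mul] at h1
      have h2 : 0 < ‖ζ‖ := norm_pos_iff.2 h
      by_contra hcon
      push Not at hcon
      nlinarith
  -- η
  have hcψ : ∀ ζ ∈ ball (0:ℂ) 1, 1 - (c:ℂ) * ψ ζ ≠ 0 := by
    intro ζ hζ h
    have h1 : (c:ℂ) * ψ ζ = 1 := by linear_combination -h
    have h2 : ‖(c:ℂ) * ψ ζ‖ = 1 := by rw [h1]; simp
    rw [norm_mul, Complex.norm_real, Real.norm_eq_abs, abs_of_nonneg hc] at h2
    have := mul_le_mul_of_nonneg_left (hψ1 ζ hζ) hc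
    linarith
  let η : ℂ → ℂ := fun ζ => (ψ ζ - c) / (1 - c * ψ ζ)
  have hηd : DifferentiableOn ℂ η (ball 0 1) := by
    apply DifferentiableOn.div
    · exact hψd.sub_const _
    · exact (hψd.const_mul _).const_sub _
    · exact hcψ
  have hη0 : η 0 = 0 := by simp [η, hψ0]
  have hηm : ∀ ζ ∈ ball (0:ℂ) 1, ‖η ζ‖ ≤ 1 := by
    intro ζ hζ
    simp only [η]
    rw [norm_div, div_le_one (norm_pos_iff.2 (hcψ ζ hζ))]
    have h1 := norm_identity (-(c:ℂ)) (ψ ζ)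
    have h2 := hψ1 ζ hζ
    rw [map_neg, Complex.conj_ofReal, norm_neg, Complex.norm_real, Real.norm_eq_abs, abs_of_nonneg hc] at h1
    have h3 : 0 ≤ (1 - c ^ 2) * (1 - ‖ψ ζ‖ ^ 2) := by
      apply mul_nonneg
      · nlinarith
      · nlinarith [norm_nonneg (ψ ζ)]
    have e1 : 1 + -(c:ℂ) * ψ ζ = 1 - c * ψ ζ := by ring
    have e2 : ψ ζ + -(c:ℂ) = ψ ζ - c := by ring
    rw [e1, e2] at h1
    exact le_of_sq_le_sq (by linarith) (norm_nonneg _)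
  have hηz : ‖η z‖ ≤ ‖z‖ := by
    have hmaps : MapsTo η (ball 0 1) (closedBall (η 0) 1) := by
      intro ζ hζ
      rw [hη0, mem_closedBall_zero_iff]; exact hηm ζ hζ
    have h1 := Complex.norm_dslope_le_div_of_mapsTo_ball hηd hmaps hz
    have h2 := sub_smul_dslope η 0 z
    rw [sub_zero, hη0, sub_zero, smul_eq_mul] at h2
    rw [← h2, norm_mul]
    have h3 : ‖dslope η 0 z‖ ≤ 1 := by simpa using h1
    calc ‖z‖ * ‖dslope η 0 z‖ ≤ ‖z‖ * 1 := mul_le_mul_of_nonneg_left h3 hzp.le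
      _ = ‖z‖ := mul_one _
  have hdie := dieudonne hηd hη0 hηm hz hz0
  -- inverse formula
  have hcη : ∀ ζ ∈ ball (0:ℂ) 1, 1 + (c:ℂ) * η ζ ≠ 0 := by
    intro ζ hζ h
    have h1 : (c:ℂ) * η ζ = -1 := by linear_combination h
    have h2 : ‖(c:ℂ) * η ζ‖ = 1 := by rw [h1]; simp
    rw [norm_mul, Complex.norm_real, Real.norm_eq_abs, abs_of_nonneg hc] at h2
    have := mul_le_mul_of_nonneg_left (hηm ζ hζ) hc
    linarith
  have hinv : ∀ ζ ∈ ball (0:ℂ) 1, ψ ζ = (c + η ζ) / (1 + c * η ζ) := by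
    intro ζ hζ
    have gen : ∀ p q : ℂ, q ≠ 0 → q = 1 - c * p → p * (1 + c * ((p - c) / q)) = c + (p - c) / q := by
      intro p q hq hqe
      field_simp
      rw [hqe]; ring
    rw [eq_div_iff (hcη ζ hζ)]
    exact gen (ψ ζ) (1 - c * ψ ζ) (hcψ ζ hζ) rfl
  have hηder : HasDerivAt η (deriv η z) z :=
    ((hηd z hz).differentiableAt (isOpen_ball.mem_nhds hz)).hasDerivAt
  obtain ⟨s, hs⟩ : ∃ s, s = η z := ⟨_, rfl⟩
  have hcs : 1 + (c:ℂ) * s ≠ 0 := by rw [hs]; exact hcη z hz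
  have hwder : HasDerivAt w (((c:ℂ) + 2 * s + c * s ^ 2 + (1 - c ^ 2) * (z * deriv η z - s)) / (1 + c * s) ^ 2) z := by
    have h1 : HasDerivAt (fun ζ => ζ * ((c + η ζ) / (1 + c * η ζ)))
        (1 * ((c + η z) / (1 + c * η z)) + z * ((deriv η z * (1 + c * η z) - (c + η z) * (c * deriv η z)) / (1 + c * η z) ^ 2)) z :=
      (hasDerivAt_id' z).fun_mul ((hηder.const_add (c:ℂ)).fun_div ((hηder.const_mul (c:ℂ)).const_add 1) (hcη z hz))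
    have h2 : w =ᶠ[𝓝 z] fun ζ => ζ * ((c + η ζ) / (1 + c * η ζ)) := by
      filter_upwards [isOpen_ball.mem_nhds hz] with ζ hζ
      rw [hψw, hinv ζ hζ]
    refine (h1.congr_of_eventuallyEq h2).congr_deriv ?_
    rw [← hs]
    field_simp
    ring
  -- the scalar quantities
  have hs' : ‖s‖ ≤ ‖z‖ := by rw [hs]; exact hηz
  have hδ : ‖z * deriv η z - s‖ * (1 - ‖z‖ ^ 2) ≤ ‖z‖ ^ 2 - ‖s‖ ^ 2 := by rw [hs]; exact hdie
  have hwval : w z = z * ((c + s) / (1 + c * s)) := by rw [hψw, hinv z hz, hs]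
  have hw1 : ‖w z‖ < 1 := lt_of_le_of_lt (hwz z hz) hz1
  have hPc : 0 < ‖1 + (c:ℂ) * s‖ := norm_pos_iff.2 hcs
  have hzz : z * (starRingEnd ℂ) z = ((‖z‖:ℝ):ℂ) ^ 2 := by
    rw [Complex.mul_conj, Complex.normSq_eq_norm_sq]; push_cast; rfl
  have hρ : ‖T (-z) (w z)‖ * ‖(1 - ((‖z‖:ℝ):ℂ) ^ 2 * c : ℂ) + (c - ((‖z‖:ℝ):ℂ) ^ 2) * s‖ = ‖z‖ * ((1 - c) * ‖1 - s‖) := by
    have e1 : (w z + -z) * (1 + c * s) = -(z * ((1 - c) * (1 - s))) := by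
      rw [hwval]
      field_simp
      ring
    have e2 : (1 + (starRingEnd ℂ) (-z) * w z) * (1 + c * s) = (1 - ((‖z‖:ℝ):ℂ) ^ 2 * c : ℂ) + (c - ((‖z‖:ℝ):ℂ) ^ 2) * s := by
      rw [hwval, map_neg, ← hzz]
      field_simp
      ring
    have h1 := one_add_conj_ne (z := -z) (ζ := w z) (by rw [norm_neg]; exact hz1.le) hw1
    rw [← e2, ← norm_mul]
    have e3 : T (-z) (w z) * ((1 + (starRingEnd ℂ) (-z) * w z) * (1 + c * s)) = (w z + -z) * (1 + c * s) := by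
      unfold T
      rw [← mul_assoc, div_mul_cancel₀ _ h1]
    rw [e3, e1, norm_neg, norm_mul, norm_mul]
    have : ‖(1 - (c:ℂ))‖ = 1 - c := by
      have e : (1 - (c:ℂ)) = ((1 - c : ℝ) : ℂ) := by push_cast; rfl
      rw [e, Complex.norm_real, Real.norm_eq_abs, abs_of_pos (by linarith)]
    rw [this]
  have hN : (1 - ‖w z‖ ^ 2) * ‖1 + (c:ℂ) * s‖ ^ 2 =
      (1 - ‖z‖ ^ 2) * (1 + 2 * c * s.re + ‖s‖ ^ 2) + (1 - c ^ 2) * (‖z‖ ^ 2 - ‖s‖ ^ 2) := by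
    have e1 : ‖w z‖ ^ 2 * ‖1 + (c:ℂ) * s‖ ^ 2 = ‖z‖ ^ 2 * ‖(c:ℂ) + s‖ ^ 2 := by
      rw [hwval, norm_mul, norm_div]
      field_simp
    rw [sub_mul, e1, one_mul]
    simp only [← Complex.normSq_eq_norm_sq, Complex.normSq_apply]
    simp only [Complex.add_re, Complex.mul_re, Complex.ofReal_re, Complex.one_re, Complex.one_im,
      Complex.ofReal_im, Complex.add_im, Complex.mul_im]
    ring
  have hb := hyp_bound (r := ‖z‖) (c := c) (s := s) (δ := z * deriv η z - s) (α := α) hzp hz1 hα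
    (r_cond hα hr) hc hc1 hs' hδ (norm_nonneg (T (-z) (w z))) hρ
  have hk := koebe (F := deriv F) (α := α) (hF.deriv isOpen_ball)
    (fun ζ hζ => ord_to (hF' ζ hζ) (hord ζ hζ)) hz (w := w z) (by simpa using hw1)
  rw [← hN] at hb
  rw [hwder.deriv, norm_mul, norm_div, norm_pow]
  obtain ⟨P, hP⟩ : ∃ P, P = ‖1 + (c:ℂ) * s‖ := ⟨_, rfl⟩
  obtain ⟨Q, hQ⟩ : ∃ Q, Q = ‖(c:ℂ) + 2 * s + c * s ^ 2 + (1 - c ^ 2) * (z * deriv η z - s)‖ := ⟨_, rfl⟩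
  obtain ⟨Y, hY⟩ : ∃ Y, Y = ((1 - ‖T (-z) (w z)‖) / (1 + ‖T (-z) (w z)‖)) ^ α := ⟨_, rfl⟩
  rw [← hP, ← hQ, ← hY] at hb
  rw [← hY] at hk
  rw [← hP, ← hQ]
  rw [← hP] at hPc
  have hq : 0 < 1 - ‖z‖ ^ 2 := by nlinarith
  have h1 : Q / P ^ 2 * (1 - ‖z‖ ^ 2) ≤ (1 - ‖w z‖ ^ 2) * Y := by
    rw [div_mul_eq_mul_div, div_le_iff₀ (by positivity)]
    linarith
  have h2 : ‖deriv F (w z)‖ * (Q / P ^ 2) * (1 - ‖z‖ ^ 2) ≤ ‖deriv F z‖ * (1 - ‖z‖ ^ 2) := by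
    calc ‖deriv F (w z)‖ * (Q / P ^ 2) * (1 - ‖z‖ ^ 2) = ‖deriv F (w z)‖ * (Q / P ^ 2 * (1 - ‖z‖ ^ 2)) := by ring
      _ ≤ ‖deriv F (w z)‖ * ((1 - ‖w z‖ ^ 2) * Y) := mul_le_mul_of_nonneg_left h1 (norm_nonneg _)
      _ ≤ _ := hk
  exact le_of_mul_le_mul_right h2 hq

theorem main {F w : ℂ → ℂ} {α : ℝ} (hα : 1 ≤ α)
    (hF : DifferentiableOn ℂ F (ball 0 1)) (hF' : ∀ z ∈ ball (0:ℂ) 1, deriv F z ≠ 0)
    (hord : ∀ z ∈ ball (0:ℂ) 1,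
      ‖-(starRingEnd ℂ) z + (1 - (‖z‖ : ℂ) ^ 2) * deriv (deriv F) z / (2 * deriv F z)‖ ≤ α)
    (hw : DifferentiableOn ℂ w (ball 0 1)) (hwz : ∀ z ∈ ball (0:ℂ) 1, ‖w z‖ ≤ ‖z‖)
    {c : ℝ} (hc : 0 ≤ c) (hwc : deriv w 0 = c) {z : ℂ} (hz : z ∈ ball (0:ℂ) 1)
    (hr : ‖z‖ < α + 1 - √(α ^ 2 + 2 * α)) :
    ‖deriv F (w z) * deriv w z‖ ≤ ‖deriv F z‖ := by
  have hz1 : ‖z‖ < 1 := by simpa using hz
  have h00 : (0:ℂ) ∈ ball (0:ℂ) 1 := mem_ball_self one_pos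
  have hw0 : w 0 = 0 := by
    have := hwz 0 h00
    rw [norm_zero] at this
    exact norm_le_zero_iff.1 this
  let ψ : ℂ → ℂ := dslope w 0
  have hψd : DifferentiableOn ℂ ψ (ball 0 1) :=
    (Complex.differentiableOn_dslope (isOpen_ball.mem_nhds h00)).2 hw
  have hψ0 : ψ 0 = c := by simp only [ψ]; rw [dslope_same, hwc]
  have hψw : ∀ ζ, w ζ = ζ * ψ ζ := by
    intro ζ
    simp only [ψ]
    have := sub_smul_dslope w 0 ζ
    rw [sub_zero, hw0, sub_zero, smul_eq_mul] at this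
    exact this.symm
  have hψ1 : ∀ ζ ∈ ball (0:ℂ) 1, ‖ψ ζ‖ ≤ 1 := by
    intro ζ hζ
    have hmaps : MapsTo w (ball 0 1) (closedBall (w 0) 1) := by
      intro ζ hζ
      rw [hw0, mem_closedBall_zero_iff]
      have h1 : ‖ζ‖ < 1 := by simpa using hζ
      exact (hwz ζ hζ).trans h1.le
    have h1 := Complex.norm_dslope_le_div_of_mapsTo_ball hw hmaps hζ
    simpa using h1
  have hc1 : c ≤ 1 := by
    have := hψ1 0 h00
    rw [hψ0, Complex.norm_real, Real.norm_eq_abs, abs_of_nonneg hc] at this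
    exact this
  rcases eq_or_lt_of_le hc1 with h1 | h1
  · -- c = 1
    have hmax : IsMaxOn (norm ∘ ψ) (ball 0 1) 0 := by
      intro ζ hζ
      simp only [Function.comp, Set.mem_ofPred_eq]
      rw [hψ0, h1]
      simpa using hψ1 ζ hζ
    have h2 := Complex.eqOn_of_isPreconnected_of_isMaxOn_norm (convex_ball (0:ℂ) 1).isPreconnected
      isOpen_ball hψd h00 hmax
    have h3 : w =ᶠ[𝓝 z] fun ζ => ζ := by
      filter_upwards [isOpen_ball.mem_nhds hz] with ζ hζ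
      have h4 : ψ ζ = ψ 0 := h2 hζ
      rw [hψw, h4, hψ0, h1]; simp
    rw [h3.deriv_eq, h3.self_of_nhds]
    simp
  · rcases eq_or_ne z 0 with h2 | h2
    · rw [h2, hw0, hwc, norm_mul, Complex.norm_real, Real.norm_eq_abs, abs_of_nonneg hc]
      exact mul_le_of_le_one_right (norm_nonneg _) hc1
    · exact main_aux hα hF hF' hord hw hwz hc h1 hwc hz h2 hr

end Pool.Agent.H790R2.Campbell
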