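import Mathlib

set_option autoImplicit false

namespace H790R2.Rp

open Complex Metric Set Filter Topology Polynomial

/-- analytic self-map of the unit disc fixing the origin -/
structure SelfMap (φ : ℂ → ℂ) : Prop where
  diff : DifferentiableOn ℂ φ (ball 0 1)
  maps : MapsTo φ (ball 0 1) (ball 0 1)
  zero : φ 0 = 0

/-- circle average over `|z| = r` -/
noncomputable abbrev A (r : ℝ) (u : ℂ → ℝ) : ℝ := Real.circleAverage u 0 r

lemma SelfMap.norm_le {φ : ℂ → ℂ} (h : SelfMap φ) {z : ℂ} (hz : ‖z‖ < 1) : ‖φ z‖ ≤ ‖z‖ :=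
  Complex.norm_le_norm_of_mapsTo_ball h.diff (h.maps.mono_right ball_subset_closedBall) h.zero hz

lemma sph_norm {r : ℝ} (hr : 0 ≤ r) {z : ℂ} (hz : z ∈ sphere (0:ℂ) |r|) : ‖z‖ = r := by
  rw [mem_sphere_zero_iff_norm, abs_of_nonneg hr] at hz
  exact hz

lemma ci {r : ℝ} (hr : 0 ≤ r) {u : ℂ → ℝ} (hu : ContinuousOn u (closedBall 0 r)) :
    CircleIntegrable u 0 r :=
  (hu.mono sphere_subset_closedBall).circleIntegrable hr

lemma A_mono {r : ℝ} (hr : 0 ≤ r) {u v : ℂ → ℝ} (hu : ContinuousOn u (closedBall 0 r))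
    (hv : ContinuousOn v (closedBall 0 r)) (h : ∀ z : ℂ, ‖z‖ = r → u z ≤ v z) : A r u ≤ A r v :=
  Real.circleAverage_mono (ci hr hu) (ci hr hv) fun z hz => h z (sph_norm hr hz)

lemma A_congr {r : ℝ} (hr : 0 ≤ r) {u v : ℂ → ℝ} (h : ∀ z : ℂ, ‖z‖ = r → u z = v z) :
    A r u = A r v :=
  Real.circleAverage_congr_sphere fun z hz => h z (sph_norm hr hz)

lemma A_add_const {r : ℝ} (hr : 0 ≤ r) {u : ℂ → ℝ} (hu : ContinuousOn u (closedBall 0 r)) (c : ℝ) :
    A r (fun z => u z + c) = A r u + c := by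
  rw [A, Real.circleAverage_fun_add (ci hr hu) (ci hr continuousOn_const),
    Real.circleAverage_const]

lemma A_smul (r : ℝ) (u : ℂ → ℝ) (c : ℝ) : A r (fun z => c * u z) = c * A r u := by
  have := Real.circleAverage_fun_smul (f := u) (c := 0) (R := r) (a := c)
  simpa using this

lemma A_le_const {r : ℝ} (hr : 0 ≤ r) {u : ℂ → ℝ} (hu : ContinuousOn u (closedBall 0 r)) {c : ℝ}
    (h : ∀ z : ℂ, ‖z‖ = r → u z ≤ c) : A r u ≤ c :=
  Real.circleAverage_mono_on_of_le_circle (ci hr hu) fun z hz => h z (sph_norm hr hz)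

/-- `|g + a|²` averages to `|g|²` plus `|a|²` if `g(0) = 0`. -/
lemma A_add_sq {r : ℝ} (hr0 : 0 < r) {g : ℂ → ℂ} (hg : DifferentiableOn ℂ g (ball 0 r))
    (hgc : ContinuousOn g (closedBall 0 r)) (g0 : g 0 = 0) (a : ℂ) :
    A r (fun z => ‖g z + a‖ ^ 2) = A r (fun z => ‖g z‖ ^ 2) + ‖a‖ ^ 2 := by
  have hr : 0 ≤ r := hr0.le
  have hd : DiffContOnCl ℂ g (ball 0 |r|) := by
    rw [abs_of_nonneg hr]
    refine ⟨hg, ?_⟩
    rw [closure_ball _ hr0.ne']
    exact hgc
  have hm : Real.circleAverage g 0 r = 0 := by rw [hd.circleAverage, g0]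
  have hgi : CircleIntegrable g 0 r := (hgc.mono sphere_subset_closedBall).circleIntegrable hr
  have hre : A r (fun z => (g z * (starRingEnd ℂ) a).re) = 0 := by
    have h1 : CircleIntegrable (fun z => g z * (starRingEnd ℂ) a) 0 r :=
      ((hgc.mul continuousOn_const).mono sphere_subset_closedBall).circleIntegrable hr
    have h2 := Complex.reCLM.circleAverage_comp_comm h1
    have h3 : Real.circleAverage (fun z => g z * (starRingEnd ℂ) a) 0 r = 0 := by
      have h4 := Real.circleAverage_fun_smul (f := g) (c := 0) (R := r) (a := (starRingEnd ℂ) a)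
      rw [hm, smul_zero] at h4
      rw [← h4]
      congr 1
      funext z
      rw [smul_eq_mul, mul_comm]
    rw [h3, map_zero] at h2
    exact h2
  have e : ∀ z, ‖g z + a‖ ^ 2 = (‖g z‖ ^ 2 + 2 * (g z * (starRingEnd ℂ) a).re) + ‖a‖ ^ 2 := by
    intro z
    rw [← Complex.normSq_eq_norm_sq, ← Complex.normSq_eq_norm_sq, ← Complex.normSq_eq_norm_sq,
      Complex.normSq_add]
    ring
  simp_rw [e]
  have c1 : ContinuousOn (fun z => ‖g z‖ ^ 2) (closedBall 0 r) := hgc.norm.pow 2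
  have c2 : ContinuousOn (fun z => 2 * (g z * (starRingEnd ℂ) a).re) (closedBall 0 r) :=
    continuousOn_const.mul (Complex.continuous_re.comp_continuousOn (hgc.mul continuousOn_const))
  have h5 := A_add_const hr (c1.add c2) (‖a‖ ^ 2)
  simp only [Pi.add_apply] at h5
  rw [h5]
  have h6 := Real.circleAverage_fun_add (ci hr c1) (ci hr c2)
  have h7 := A_smul r (fun z => (g z * (starRingEnd ℂ) a).re) 2
  rw [hre, mul_zero] at h7
  unfold A at h7 ⊢
  rw [h7, add_zero] at h6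
  congr 1

/-- `L²` Littlewood subordination for polynomials -/
lemma littlewood_poly {φ : ℂ → ℂ} (h : SelfMap φ) {r : ℝ} (hr : 0 < r) (hr1 : r < 1) (P : ℂ[X]) :
    A r (fun z => ‖P.eval (φ z)‖ ^ 2) ≤ A r (fun z => ‖P.eval z‖ ^ 2) := by
  have hsub : closedBall (0:ℂ) r ⊆ ball 0 1 := closedBall_subset_ball hr1
  have hφc : ContinuousOn φ (closedBall 0 r) := h.diff.continuousOn.mono hsub
  have hφd : DifferentiableOn ℂ φ (ball 0 r) := h.diff.mono (ball_subset_closedBall.trans hsub)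
  have hPc : ∀ P : ℂ[X], ContinuousOn (fun z => P.eval (φ z)) (closedBall 0 r) := fun P =>
    P.continuous.comp_continuousOn hφc
  have hPd : ∀ P : ℂ[X], DifferentiableOn ℂ (fun z => P.eval (φ z)) (ball 0 r) := fun P =>
    P.differentiable.comp_differentiableOn hφd
  classical
  induction P using Polynomial.recOnHorner with
  | M0 => simp
  | MC P a hP0 _ ih =>
    have e1 : P.eval 0 = 0 := by rw [← Polynomial.coeff_zero_eq_eval_zero, hP0]
    simp only [eval_add, eval_C]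
    rw [A_add_sq hr (hPd P) (hPc P) (by rw [h.zero, e1]) a,
      A_add_sq hr P.differentiable.differentiableOn P.continuous.continuousOn e1 a]
    linarith
  | MX P _ ih =>
    simp only [eval_mul, eval_X, norm_mul, mul_pow]
    have s1 : A r (fun z => ‖P.eval (φ z)‖ ^ 2 * ‖φ z‖ ^ 2) ≤
        A r (fun z => r ^ 2 * ‖P.eval (φ z)‖ ^ 2) := by
      apply A_mono hr.le
      · exact ((hPc P).norm.pow 2).mul (hφc.norm.pow 2)
      · exact continuousOn_const.mul ((hPc P).norm.pow 2)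
      · intro z hz
        have h1 : ‖φ z‖ ≤ r := by
          rw [← hz]
          exact h.norm_le (by rw [hz]; exact hr1)
        have h2 : ‖φ z‖ ^ 2 ≤ r ^ 2 := pow_le_pow_left₀ (norm_nonneg _) h1 2
        nlinarith [sq_nonneg ‖P.eval (φ z)‖]
    have s2 : A r (fun z => ‖P.eval z‖ ^ 2 * ‖z‖ ^ 2) = A r (fun z => r ^ 2 * ‖P.eval z‖ ^ 2) := by
      apply A_congr hr.le
      intro z hz
      rw [hz]
      ring
    rw [s2, A_smul]
    rw [A_smul] at s1
    exact s1.trans (mul_le_mul_of_nonneg_left ih (sq_nonneg r))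

/-- uniform polynomial approximation on smaller discs -/
lemma poly_approx {F : ℂ → ℂ} (hF : DifferentiableOn ℂ F (ball 0 1)) {r : ℝ} (hr : 0 < r)
    (hr1 : r < 1) {ε : ℝ} (hε : 0 < ε) :
    ∃ P : ℂ[X], ∀ z : ℂ, ‖z‖ ≤ r → ‖F z - P.eval z‖ < ε := by
  obtain ⟨s, hs1, hs2⟩ := exists_between hr1
  have hs0 : 0 < s := hr.trans hs1
  have hsub : closedBall (0:ℂ) s ⊆ ball 0 1 := closedBall_subset_ball hs2
  have hd : DifferentiableOn ℂ F (closedBall 0 s) := hF.mono hsub
  have hps := (hd.mono subset_rfl).hasFPowerSeriesOnBall (R := ⟨s, hs0.le⟩) (c := 0) (by exact_mod_cast hs0)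
  obtain ⟨r', hr'1, hr'2⟩ := exists_between hs1
  have hu := hps.tendstoUniformlyOn (r' := ⟨r', (hr.trans hr'1).le⟩) (by exact_mod_cast hr'2)
  rw [Metric.tendstoUniformlyOn_iff] at hu
  obtain ⟨N, hN⟩ := (hu ε hε).exists
  refine ⟨∑ k ∈ Finset.range N, C ((cauchyPowerSeries F 0 s).coeff k) * X ^ k, ?_⟩
  intro z hz
  have h1 := hN z (by
    rw [mem_ball_zero_iff]
    exact lt_of_le_of_lt hz hr'1)
  rw [zero_add, dist_eq_norm] at h1
  have e : (∑ k ∈ Finset.range N, C ((cauchyPowerSeries F 0 s).coeff k) * X ^ k : ℂ[X]).eval z =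
      (cauchyPowerSeries F 0 s).partialSum N z := by
    rw [Polynomial.eval_finsetSum, FormalMultilinearSeries.partialSum]
    apply Finset.sum_congr rfl
    intro k _
    rw [FormalMultilinearSeries.apply_eq_pow_smul_coeff, eval_mul, eval_C, eval_pow, eval_X,
      smul_eq_mul, mul_comm]
  rw [e]
  exact h1

end H790R2.Rp
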