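import Pool.Agent.H790R2.RpA

set_option autoImplicit false

namespace H790R2.Rp

open Complex Metric Set Filter Topology Polynomial

/-- every trigonometric polynomial has real and imaginary part equal to the real part of an
analytic polynomial on the circle `|z| = r` -/
lemma trig_re {r : ℝ} (hr : 0 < r) {V : C(AddCircle (1:ℝ), ℂ)}
    (hV : V ∈ Submodule.span ℂ (range (@fourier (1:ℝ)))) :
    ∃ h₁ h₂ : ℂ[X], ∀ x : AddCircle (1:ℝ),
      (V x).re = (h₁.eval ((r:ℂ) * (AddCircle.toCircle x : ℂ))).re ∧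
      (V x).im = (h₂.eval ((r:ℂ) * (AddCircle.toCircle x : ℂ))).re := by
  have hrC : (r:ℂ) ≠ 0 := by exact_mod_cast hr.ne'
  induction hV using Submodule.span_induction with
  | mem V hV =>
    obtain ⟨n, rfl⟩ := hV
    have key : ∀ (m : ℕ) (x : AddCircle (1:ℝ)) (a : ℂ),
        (C (a * ((r:ℂ) ^ m)⁻¹) * X ^ m : ℂ[X]).eval ((r:ℂ) * (AddCircle.toCircle x : ℂ)) =
          a * (AddCircle.toCircle x : ℂ) ^ m := by
      intro m x a
      simp only [eval_mul, eval_C, eval_pow, eval_X, mul_pow]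
      field_simp
    rcases Int.eq_nat_or_neg n with ⟨m, rfl | rfl⟩
    · refine ⟨C (1 * ((r:ℂ) ^ m)⁻¹) * X ^ m, C ((-I) * ((r:ℂ) ^ m)⁻¹) * X ^ m, fun x => ?_⟩
      rw [key, key, fourier_apply, AddCircle.toCircle_zsmul]
      simp
    · refine ⟨C (1 * ((r:ℂ) ^ m)⁻¹) * X ^ m, C (I * ((r:ℂ) ^ m)⁻¹) * X ^ m, fun x => ?_⟩
      rw [key, key, fourier_neg, fourier_apply, AddCircle.toCircle_zsmul]
      simp [← map_pow]
  | zero => exact ⟨0, 0, fun x => by simp⟩
  | add U V _ _ hU hV =>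
    obtain ⟨a₁, a₂, ha⟩ := hU
    obtain ⟨b₁, b₂, hb⟩ := hV
    refine ⟨a₁ + b₁, a₂ + b₂, fun x => ?_⟩
    simp [(ha x).1, (ha x).2, (hb x).1, (hb x).2]
  | smul c V _ hV =>
    obtain ⟨a₁, a₂, ha⟩ := hV
    refine ⟨C (c.re : ℂ) * a₁ - C (c.im : ℂ) * a₂, C (c.re : ℂ) * a₂ + C (c.im : ℂ) * a₁,
      fun x => ?_⟩
    simp [(ha x).1, (ha x).2]

/-- a continuous real function on a circle is uniformly approximated by real parts of
polynomials -/
lemma re_approx {r : ℝ} (hr : 0 < r) {u : ℂ → ℝ} (hu : ContinuousOn u (sphere 0 r)) {η : ℝ}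
    (hη : 0 < η) : ∃ h : ℂ[X], ∀ z : ℂ, ‖z‖ = r → |(h.eval z).re - u z| < η := by
  have : Fact ((0:ℝ) < 1) := ⟨one_pos⟩
  have hmem : ∀ x : AddCircle (1:ℝ), (r:ℂ) * (AddCircle.toCircle x : ℂ) ∈ sphere (0:ℂ) r := by
    intro x
    rw [mem_sphere_zero_iff_norm, norm_mul, Circle.norm_coe, mul_one, Complex.norm_real,
      Real.norm_of_nonneg hr.le]
  have hc : Continuous fun x : AddCircle (1:ℝ) =>
      ((u ((r:ℂ) * (AddCircle.toCircle x : ℂ)) : ℝ) : ℂ) := by
    apply Complex.continuous_ofReal.comp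
    apply hu.comp_continuous _ hmem
    exact continuous_const.mul (continuous_subtype_val.comp AddCircle.continuous_toCircle)
  set U : C(AddCircle (1:ℝ), ℂ) := ⟨_, hc⟩ with hU
  have hd : U ∈ (Submodule.span ℂ (range (@fourier (1:ℝ)))).topologicalClosure := by
    rw [span_fourier_closure_eq_top]
    trivial
  rw [← SetLike.mem_coe, Submodule.topologicalClosure_coe, Metric.mem_closure_iff] at hd
  obtain ⟨V, hV, hUV⟩ := hd η hη
  obtain ⟨h₁, h₂, hh⟩ := trig_re hr hV
  refine ⟨h₁, fun z hz => ?_⟩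
  obtain ⟨x, hx⟩ : ∃ x : AddCircle (1:ℝ), (AddCircle.toCircle x : ℂ) = z / r := by
    have h1 : ‖z / (r:ℂ)‖ = 1 := by
      rw [norm_div, hz, Complex.norm_real, Real.norm_of_nonneg hr.le, div_self hr.ne']
    refine ⟨(AddCircle.homeomorphCircle one_ne_zero).symm ⟨z / r, mem_sphere_zero_iff_norm.2 h1⟩, ?_⟩
    have := (AddCircle.homeomorphCircle (T := (1:ℝ)) one_ne_zero).apply_symm_apply
      ⟨z / r, mem_sphere_zero_iff_norm.2 h1⟩
    rw [AddCircle.homeomorphCircle_apply] at this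
    rw [this]
  have hzx : (r:ℂ) * (AddCircle.toCircle x : ℂ) = z := by
    rw [hx, mul_div_cancel₀]
    exact_mod_cast hr.ne'
  have h3 := (hh x).1
  rw [hzx] at h3
  have h4 : dist (U x) (V x) < η := lt_of_le_of_lt (ContinuousMap.dist_apply_le_dist x) hUV
  rw [dist_comm, dist_eq_norm] at h4
  have h5 : ((V x - U x).re) = (h₁.eval z).re - u z := by
    rw [Complex.sub_re, h3, hU]
    simp [hzx]
  rw [← h5]
  exact lt_of_le_of_lt (Complex.abs_re_le_norm _) h4

/-- zero-free majorant `exp h` of an analytic function, almost sharp on the circle `|z| = r` -/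
lemma majorant {F : ℂ → ℂ} (hF : DifferentiableOn ℂ F (ball 0 1)) {r : ℝ} (hr : 0 < r)
    (hr1 : r < 1) {δ : ℝ} (hδ : 0 < δ) :
    ∃ h : ℂ[X], (∀ z : ℂ, ‖z‖ ≤ r → ‖F z‖ ≤ Real.exp (h.eval z).re) ∧
      (∀ z : ℂ, ‖z‖ = r → Real.exp (h.eval z).re ≤ ‖F z‖ + δ) := by
  have hsub : closedBall (0:ℂ) r ⊆ ball 0 1 := closedBall_subset_ball hr1
  have hFc : ContinuousOn F (closedBall 0 r) := hF.continuousOn.mono hsub
  obtain ⟨M, hM⟩ := (isCompact_closedBall (0:ℂ) r).exists_bound_of_continuousOn hFc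
  have hM0 : 0 ≤ M := (norm_nonneg _).trans (hM 0 (mem_closedBall_self hr.le))
  have hq : 0 < (δ / 2) / (M + δ / 2) := by positivity
  set η : ℝ := Real.log (1 + (δ / 2) / (M + δ / 2)) with hηdef
  have hη : 0 < η := Real.log_pos (by linarith)
  have huc : ContinuousOn (fun z => Real.log (‖F z‖ + δ / 2) + η / 2) (sphere 0 r) := by
    apply ContinuousOn.add _ continuousOn_const
    apply ContinuousOn.log
    · exact (hFc.mono sphere_subset_closedBall).norm.add continuousOn_const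
    · intro z _
      have := norm_nonneg (F z)
      positivity
  obtain ⟨h, hh⟩ := re_approx hr huc (half_pos hη)
  have hlow : ∀ z : ℂ, ‖z‖ = r → ‖F z‖ ≤ Real.exp (h.eval z).re := by
    intro z hz
    have h1 := (abs_lt.1 (hh z hz)).1
    have h2 : Real.log (‖F z‖ + δ / 2) ≤ (h.eval z).re := by linarith
    have h3 : 0 < ‖F z‖ + δ / 2 := by
      have := norm_nonneg (F z)
      positivity
    have h4 := Real.exp_le_exp.2 h2
    rw [Real.exp_log h3] at h4
    linarith
  refine ⟨h, ?_, ?_⟩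
  · intro z hz
    have hd : DiffContOnCl ℂ (fun z => F z * Complex.exp (-(h.eval z))) (ball 0 r) := by
      refine ⟨?_, ?_⟩
      · exact (hF.mono (ball_subset_closedBall.trans hsub)).mul
          (h.differentiable.neg.cexp.differentiableOn)
      · rw [closure_ball _ hr.ne']
        exact hFc.mul (h.continuous.neg.cexp.continuousOn)
    have h5 := Complex.norm_le_of_forall_mem_frontier_norm_le (C := 1) isBounded_ball hd (by
      intro w hw
      rw [frontier_ball _ hr.ne', mem_sphere_zero_iff_norm] at hw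
      have h6 := hlow w hw
      rw [norm_mul, Complex.norm_exp, Complex.neg_re, Real.exp_neg, ← div_eq_mul_inv,
        div_le_one (Real.exp_pos _)]
      exact h6) (z := z) (by
      rw [closure_ball _ hr.ne', mem_closedBall_zero_iff]
      exact hz)
    rw [norm_mul, Complex.norm_exp, Complex.neg_re, Real.exp_neg, ← div_eq_mul_inv,
        div_le_one (Real.exp_pos _)] at h5
    exact h5
  · intro z hz
    have h1 := (abs_lt.1 (hh z hz)).2
    have h2 : (h.eval z).re ≤ Real.log (‖F z‖ + δ / 2) + η := by linarith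
    have h3 : 0 < ‖F z‖ + δ / 2 := by
      have := norm_nonneg (F z)
      positivity
    have h4 := Real.exp_le_exp.2 h2
    rw [Real.exp_add, Real.exp_log h3, hηdef, Real.exp_log (by linarith)] at h4
    have h5 : (‖F z‖ + δ / 2) * ((δ / 2) / (M + δ / 2)) ≤ δ / 2 := by
      have h6 : ‖F z‖ ≤ M := hM z (by rw [mem_closedBall_zero_iff, hz])
      rw [mul_div_assoc', div_le_iff₀ (by positivity)]
      nlinarith
    linarith

/-- continuity of powers, uniform version -/
lemma pow_add_small {p M ε : ℝ} (hp : 0 < p) (hM : 0 ≤ M) (hε : 0 < ε) :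
    ∃ δ > 0, ∀ x : ℝ, 0 ≤ x → x ≤ M → (x + δ) ^ p ≤ x ^ p + ε := by
  have hc : ContinuousOn (fun x : ℝ => x ^ p) (Icc 0 (M + 1)) := by
    intro x _
    exact (Real.continuousAt_rpow_const x p (Or.inr hp.le)).continuousWithinAt
  have hu := isCompact_Icc.uniformContinuousOn_of_continuous hc
  rw [Metric.uniformContinuousOn_iff] at hu
  obtain ⟨δ, hδ, h⟩ := hu ε hε
  refine ⟨min (δ / 2) 1, lt_min (by linarith) one_pos, fun x hx0 hxM => ?_⟩
  have hm : 0 < min (δ / 2) 1 := lt_min (by linarith) one_pos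
  have h1 := h (x + min (δ / 2) 1) ⟨by linarith, by linarith [min_le_right (δ / 2) 1]⟩ x
    ⟨hx0, by linarith⟩ (by
      rw [Real.dist_eq, add_sub_cancel_left, abs_of_pos hm]
      linarith [min_le_left (δ / 2) 1])
  rw [Real.dist_eq] at h1
  linarith [(abs_lt.1 h1).2]

/-- weighted `L^p` subordination inequality -/
def WP (p r : ℝ) (φ : ℂ → ℂ) (w : ℂ → ℝ) (C : ℝ) : Prop :=
  ∀ F : ℂ → ℂ, DifferentiableOn ℂ F (ball 0 1) →
    A r (fun z => ‖F (φ z)‖ ^ p * w z) ≤ C * A r (fun z => ‖F z‖ ^ p)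

section
variable {φ : ℂ → ℂ} {r : ℝ}

lemma SelfMap.cont (h : SelfMap φ) (hr1 : r < 1) : ContinuousOn φ (closedBall 0 r) :=
  h.diff.continuousOn.mono (closedBall_subset_ball hr1)

lemma SelfMap.compc (h : SelfMap φ) (_hr : 0 < r) (hr1 : r < 1) {F : ℂ → ℂ}
    (hF : DifferentiableOn ℂ F (ball 0 1)) : ContinuousOn (fun z => F (φ z)) (closedBall 0 r) := by
  have := hF.continuousOn.comp h.diff.continuousOn h.maps
  exact this.mono (closedBall_subset_ball hr1)

lemma rpow_cont {s : Set ℂ} {u : ℂ → ℝ} (hu : ContinuousOn u s) {p : ℝ} (hp : 0 < p) :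
    ContinuousOn (fun z => u z ^ p) s := by
  intro z hz
  exact (Real.continuousAt_rpow_const (u z) p (Or.inr hp.le)).comp_continuousWithinAt (hu z hz)

/-- the weighted inequality does not depend on the exponent -/
lemma WP.transfer {p q : ℝ} (hp : 0 < p) (hq : 0 < q) (hφ : SelfMap φ) (hr : 0 < r) (hr1 : r < 1)
    {w : ℂ → ℝ} (hwc : ContinuousOn w (closedBall 0 r)) (hw0 : ∀ z, 0 ≤ w z) {C : ℝ} (hC : 0 ≤ C)
    (H : WP p r φ w C) : WP q r φ w C := by
  intro F hF
  have hsub : closedBall (0:ℂ) r ⊆ ball 0 1 := closedBall_subset_ball hr1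
  have hFc : ContinuousOn F (closedBall 0 r) := hF.continuousOn.mono hsub
  obtain ⟨M, hM⟩ := (isCompact_closedBall (0:ℂ) r).exists_bound_of_continuousOn hFc
  have hM0 : 0 ≤ M := (norm_nonneg _).trans (hM 0 (mem_closedBall_self hr.le))
  apply le_of_forall_pos_le_add
  intro ε hε
  obtain ⟨δ, hδ, hδ'⟩ := pow_add_small hq hM0 (show 0 < ε / (C + 1) by positivity)
  obtain ⟨h, h1, h2⟩ := majorant hF hr hr1 hδ
  set G : ℂ → ℂ := fun z => Complex.exp (((q / p : ℝ) : ℂ) * h.eval z) with hG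
  have hGd : DifferentiableOn ℂ G (ball 0 1) :=
    ((h.differentiable.const_mul _).cexp).differentiableOn
  have hGn : ∀ z, ‖G z‖ ^ p = Real.exp (h.eval z).re ^ q := by
    intro z
    rw [hG]
    simp only
    rw [Complex.norm_exp, Complex.re_ofReal_mul, ← Real.exp_mul, ← Real.exp_mul]
    congr 1
    field_simp
  have h3 := H G hGd
  simp_rw [hGn] at h3
  have hGc : ContinuousOn (fun z => Real.exp (h.eval z).re ^ q) (closedBall 0 r) := by
    apply rpow_cont _ hq
    exact (Real.continuous_exp.comp (Complex.continuous_re.comp h.continuous)).continuousOn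
  have hGφc : ContinuousOn (fun z => Real.exp (h.eval (φ z)).re ^ q) (closedBall 0 r) := by
    apply rpow_cont _ hq
    exact (Real.continuous_exp.comp (Complex.continuous_re.comp h.continuous)).comp_continuousOn
      (hφ.cont hr1)
  calc A r (fun z => ‖F (φ z)‖ ^ q * w z)
      ≤ A r (fun z => Real.exp (h.eval (φ z)).re ^ q * w z) := by
        apply A_mono hr.le
        · exact (rpow_cont (hφ.compc hr hr1 hF).norm hq).mul hwc
        · exact hGφc.mul hwc
        · intro z hz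
          apply mul_le_mul_of_nonneg_right _ (hw0 z)
          apply Real.rpow_le_rpow (norm_nonneg _) _ hq.le
          apply h1
          rw [← hz]
          exact hφ.norm_le (by rw [hz]; exact hr1)
    _ ≤ C * A r (fun z => Real.exp (h.eval z).re ^ q) := h3
    _ ≤ C * A r (fun z => ‖F z‖ ^ q + ε / (C + 1)) := by
        apply mul_le_mul_of_nonneg_left _ hC
        apply A_mono hr.le hGc
        · exact (rpow_cont hFc.norm hq).add continuousOn_const
        · intro z hz
          have h4 := h2 z hz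
          have h5 := hM z (by rw [mem_closedBall_zero_iff, hz])
          exact (Real.rpow_le_rpow (Real.exp_pos _).le h4 hq.le).trans
            (hδ' _ (norm_nonneg _) h5)
    _ = C * A r (fun z => ‖F z‖ ^ q) + C * (ε / (C + 1)) := by
        rw [A_add_const hr.le (rpow_cont hFc.norm hq), mul_add]
    _ ≤ C * A r (fun z => ‖F z‖ ^ q) + ε := by
        have h6 : C * (ε / (C + 1)) ≤ ε := by
          rw [mul_div_assoc', div_le_iff₀ (by positivity)]
          nlinarith
        linarith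

/-- it suffices to check the weighted `L²` inequality on polynomials -/
lemma WP.of_poly (hφ : SelfMap φ) (hr : 0 < r) (hr1 : r < 1)
    {w : ℂ → ℝ} (hwc : ContinuousOn w (closedBall 0 r)) (hw0 : ∀ z, 0 ≤ w z)
    (H : ∀ P : ℂ[X], A r (fun z => ‖P.eval (φ z)‖ ^ 2 * w z) ≤ A r (fun z => ‖P.eval z‖ ^ 2)) :
    WP 2 r φ w 1 := by
  intro F hF
  rw [one_mul]
  simp only [Real.rpow_two]
  have hsub : closedBall (0:ℂ) r ⊆ ball 0 1 := closedBall_subset_ball hr1
  have hFc : ContinuousOn F (closedBall 0 r) := hF.continuousOn.mono hsub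
  obtain ⟨M, hM⟩ := (isCompact_closedBall (0:ℂ) r).exists_bound_of_continuousOn hFc
  have hM0 : 0 ≤ M := (norm_nonneg _).trans (hM 0 (mem_closedBall_self hr.le))
  obtain ⟨W, hW⟩ := (isCompact_closedBall (0:ℂ) r).exists_bound_of_continuousOn hwc
  have hW0 : 0 ≤ W := (norm_nonneg _).trans (hW 0 (mem_closedBall_self hr.le))
  apply le_of_forall_pos_le_add
  intro ε hε
  set δ : ℝ := min 1 (ε / ((2 * M + 1) * (W + 1))) with hδdef
  have hδ : 0 < δ := lt_min one_pos (by positivity)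
  have hδ1 : δ ≤ 1 := min_le_left _ _
  have hδ2 : δ * (2 * M + 1) * (W + 1) ≤ ε := by
    have h1 : δ ≤ ε / ((2 * M + 1) * (W + 1)) := min_le_right _ _
    rw [le_div_iff₀ (by positivity)] at h1
    linarith
  obtain ⟨P, hP⟩ := poly_approx hF hr hr1 hδ
  have key : ∀ z : ℂ, ‖z‖ ≤ r → |‖F z‖ ^ 2 - ‖P.eval z‖ ^ 2| ≤ δ * (2 * M + 1) := by
    intro z hz
    have h1 := hP z hz
    have h2 := hM z (by rwa [mem_closedBall_zero_iff])
    have h3 : |‖F z‖ - ‖P.eval z‖| ≤ δ := (abs_norm_sub_norm_le _ _).trans h1.le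
    have h4 := norm_nonneg (F z)
    have h5 := norm_nonneg (P.eval z)
    rw [show ‖F z‖ ^ 2 - ‖P.eval z‖ ^ 2 = (‖F z‖ - ‖P.eval z‖) * (‖F z‖ + ‖P.eval z‖) by ring,
      abs_mul, abs_of_nonneg (by positivity : 0 ≤ ‖F z‖ + ‖P.eval z‖)]
    have h6 : ‖F z‖ + ‖P.eval z‖ ≤ 2 * M + 1 := by
      have := (abs_le.1 h3).1
      linarith
    exact mul_le_mul h3 h6 (by positivity) hδ.le
  have hFφ := hφ.compc hr hr1 hF
  have hPφ : ContinuousOn (fun z => P.eval (φ z)) (closedBall 0 r) :=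
    P.continuous.comp_continuousOn (hφ.cont hr1)
  calc A r (fun z => ‖F (φ z)‖ ^ 2 * w z)
      ≤ A r (fun z => ‖P.eval (φ z)‖ ^ 2 * w z + δ * (2 * M + 1) * W) := by
        apply A_mono hr.le
        · exact (hFφ.norm.pow 2).mul hwc
        · exact ((hPφ.norm.pow 2).mul hwc).add continuousOn_const
        · intro z hz
          have h1 : ‖φ z‖ ≤ r := by
            rw [← hz]
            exact hφ.norm_le (by rw [hz]; exact hr1)
          have h2 := (abs_le.1 (key _ h1)).2
          have h3 : w z ≤ W := (le_abs_self _).trans (hW z (by rw [mem_closedBall_zero_iff, hz]))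
          have h4 := hw0 z
          nlinarith [mul_nonneg hδ.le (by linarith : 0 ≤ 2 * M + 1)]
    _ = A r (fun z => ‖P.eval (φ z)‖ ^ 2 * w z) + δ * (2 * M + 1) * W :=
        A_add_const hr.le ((hPφ.norm.pow 2).mul hwc) _
    _ ≤ A r (fun z => ‖P.eval z‖ ^ 2) + δ * (2 * M + 1) * W := by
        have := H P
        linarith
    _ ≤ A r (fun z => ‖F z‖ ^ 2 + δ * (2 * M + 1)) + δ * (2 * M + 1) * W := by
        have : A r (fun z => ‖P.eval z‖ ^ 2) ≤ A r (fun z => ‖F z‖ ^ 2 + δ * (2 * M + 1)) := by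
          apply A_mono hr.le
          · exact (P.continuous.norm.pow 2).continuousOn
          · exact (hFc.norm.pow 2).add continuousOn_const
          · intro z hz
            have := (abs_le.1 (key z hz.le)).1
            linarith
        linarith
    _ = A r (fun z => ‖F z‖ ^ 2) + δ * (2 * M + 1) * (W + 1) := by
        have h7 := A_add_const (u := fun z => ‖F z‖ ^ 2) hr.le (hFc.norm.pow 2) (δ * (2 * M + 1))
        rw [h7]
        ring
    _ ≤ _ := by linarith

/-- Littlewood's subordination theorem, all exponents -/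
lemma littlewood {p : ℝ} (hp : 0 < p) (hφ : SelfMap φ) (hr : 0 < r) (hr1 : r < 1) :
    WP p r φ (fun _ => 1) 1 := by
  refine WP.transfer (p := 2) two_pos hp hφ hr hr1 continuousOn_const (fun _ => zero_le_one)
    zero_le_one ?_
  refine WP.of_poly hφ hr hr1 continuousOn_const (fun _ => zero_le_one) ?_
  intro P
  simpa using littlewood_poly hφ hr hr1 P

/-- convex combinations of weights -/
lemma WP.convex {p : ℝ} (hp : 0 < p) (hφ : SelfMap φ) (hr : 0 < r) (hr1 : r < 1)
    {w₀ w₁ w : ℂ → ℝ} (h0c : ContinuousOn w₀ (closedBall 0 r))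
    (h1c : ContinuousOn w₁ (closedBall 0 r)) (hwc : ContinuousOn w (closedBall 0 r)) {θ C₀ C₁ : ℝ}
    (hθ0 : 0 ≤ θ) (hθ1 : θ ≤ 1) (hw : ∀ z : ℂ, ‖z‖ = r → w z ≤ (1 - θ) * w₀ z + θ * w₁ z)
    (H0 : WP p r φ w₀ C₀) (H1 : WP p r φ w₁ C₁) : WP p r φ w ((1 - θ) * C₀ + θ * C₁) := by
  intro F hF
  have hFφ := rpow_cont (hφ.compc hr hr1 hF).norm hp
  have e1 : A r (fun z => ‖F (φ z)‖ ^ p * w z) ≤
      A r (fun z => (1 - θ) * (‖F (φ z)‖ ^ p * w₀ z) + θ * (‖F (φ z)‖ ^ p * w₁ z)) := by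
    apply A_mono hr.le
    · exact hFφ.mul hwc
    · exact (continuousOn_const.mul (hFφ.mul h0c)).add (continuousOn_const.mul (hFφ.mul h1c))
    · intro z hz
      have h1 := hw z hz
      have h2 : 0 ≤ ‖F (φ z)‖ ^ p := Real.rpow_nonneg (norm_nonneg _) _
      nlinarith
  have e2 : A r (fun z => (1 - θ) * (‖F (φ z)‖ ^ p * w₀ z) + θ * (‖F (φ z)‖ ^ p * w₁ z)) =
      (1 - θ) * A r (fun z => ‖F (φ z)‖ ^ p * w₀ z) + θ * A r (fun z => ‖F (φ z)‖ ^ p * w₁ z) := by
    rw [← A_smul, ← A_smul]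
    exact Real.circleAverage_fun_add (ci hr.le (continuousOn_const.mul (hFφ.mul h0c)))
      (ci hr.le (continuousOn_const.mul (hFφ.mul h1c)))
  have h0 := H0 F hF
  have h1 := H1 F hF
  rw [e2] at e1
  have h2 : 0 ≤ 1 - θ := by linarith
  calc A r (fun z => ‖F (φ z)‖ ^ p * w z) ≤ _ := e1
    _ ≤ (1 - θ) * (C₀ * A r (fun z => ‖F z‖ ^ p)) + θ * (C₁ * A r (fun z => ‖F z‖ ^ p)) :=
      add_le_add (mul_le_mul_of_nonneg_left h0 h2) (mul_le_mul_of_nonneg_left h1 hθ0)
    _ = _ := by ring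

end

end H790R2.Rp
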