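import Pool.Agent.H790R2.RpB

set_option autoImplicit false

namespace H790R2.Rp

open Complex Metric Set Filter Topology Polynomial
open scoped Real

/-- Taylor coefficient at `0` -/
noncomputable def cf (h : ℂ → ℂ) (n : ℕ) : ℂ := iteratedDeriv n h 0 / n.factorial

lemma intexp (k : ℤ) :
    ∫ θ in (0:ℝ)..(2 * π), Complex.exp (k * θ * Complex.I) = if k = 0 then 2 * (π : ℂ) else 0 := by
  by_cases hk : k = 0
  · subst hk
    simp
  · rw [if_neg hk]
    have hc : (k : ℂ) * Complex.I ≠ 0 := by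
      apply mul_ne_zero _ Complex.I_ne_zero
      exact_mod_cast hk
    have h1 : ∀ θ : ℝ, Complex.exp (k * θ * Complex.I) = Complex.exp ((k * Complex.I) * θ) := by
      intro θ
      congr 1
      ring
    simp_rw [h1]
    rw [integral_exp_mul_complex hc]
    have h2 : Complex.exp (k * Complex.I * ((2 * π : ℝ) : ℂ)) = 1 := by
      rw [← Complex.exp_int_mul_two_pi_mul_I k]
      congr 1
      push_cast
      ring
    rw [h2]
    simp

lemma bndexp (a : ℂ) (k : ℤ) (θ : ℝ) : ‖a * Complex.exp (k * θ * Complex.I)‖ = ‖a‖ := by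
  have h1 : (k : ℂ) * θ * Complex.I = ((k * θ : ℝ) : ℂ) * Complex.I := by push_cast; ring
  rw [norm_mul, h1, Complex.norm_exp_ofReal_mul_I, mul_one]

lemma pars (a : ℕ → ℂ) (ha : Summable fun n => ‖a n‖) (F : ℝ → ℂ)
    (hF : ∀ θ : ℝ, HasSum (fun n : ℕ => a n * Complex.exp ((n : ℤ) * θ * Complex.I)) (F θ)) :
    HasSum (fun n => 2 * π * ‖a n‖ ^ 2) (∫ θ in (0:ℝ)..(2 * π), ‖F θ‖ ^ 2) := by
  have hFt : F = fun θ : ℝ => ∑' n, a n * Complex.exp ((n : ℤ) * θ * Complex.I) := by
    funext θ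
    exact (hF θ).tsum_eq.symm
  have h1 : ∀ n : ℕ, ∫ θ in (0:ℝ)..(2 * π), F θ * Complex.exp ((-(n : ℤ) : ℤ) * θ * Complex.I) =
      2 * π * a n := by
    intro n
    have h2 : HasSum (fun m : ℕ => ∫ θ in (0:ℝ)..(2 * π), a m * Complex.exp (((m : ℤ) - n : ℤ) * θ * Complex.I))
        (∫ θ in (0:ℝ)..(2 * π), F θ * Complex.exp ((-(n : ℤ) : ℤ) * θ * Complex.I)) := by
      apply intervalIntegral.hasSum_integral_of_dominated_convergence (fun m _ => ‖a m‖)
      · intro m
        exact (by fun_prop : Continuous fun θ : ℝ =>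
          a m * Complex.exp (((m : ℤ) - n : ℤ) * θ * Complex.I)).aestronglyMeasurable
      · intro m
        exact Filter.Eventually.of_forall fun θ _ => (bndexp _ _ _).le
      · exact Filter.Eventually.of_forall fun θ _ => ha
      · exact intervalIntegrable_const
      · refine Filter.Eventually.of_forall fun θ _ => ?_
        have h3 := (hF θ).mul_right (Complex.exp ((-(n : ℤ) : ℤ) * θ * Complex.I))
        refine h3.congr_fun ?_
        intro m
        rw [mul_assoc (a m), ← Complex.exp_add]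
        congr 2
        push_cast
        ring
    have h4 : HasSum (fun m : ℕ => ∫ θ in (0:ℝ)..(2 * π), a m * Complex.exp (((m : ℤ) - n : ℤ) * θ * Complex.I))
        (2 * π * a n) := by
      have h5 : ∀ m : ℕ, ∫ θ in (0:ℝ)..(2 * π), a m * Complex.exp (((m : ℤ) - n : ℤ) * θ * Complex.I) =
          if m = n then 2 * π * a n else 0 := by
        intro m
        rw [intervalIntegral.integral_const_mul, intexp]
        by_cases h : m = n
        · subst h
          simp
          ring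
        · rw [if_neg h, if_neg (by omega), mul_zero]
      simp_rw [h5]
      exact hasSum_ite_eq n _
    exact h2.unique h4
  have hFb : ∀ θ, ‖F θ‖ ≤ ∑' m, ‖a m‖ := by
    intro θ
    rw [← (hF θ).tsum_eq]
    have h6 : ∀ n : ℕ, ‖a n * Complex.exp ((n : ℤ) * θ * Complex.I)‖ = ‖a n‖ :=
      fun n => bndexp _ _ _
    calc ‖∑' n : ℕ, a n * Complex.exp ((n : ℤ) * θ * Complex.I)‖
        ≤ ∑' n : ℕ, ‖a n * Complex.exp ((n : ℤ) * θ * Complex.I)‖ :=
          norm_tsum_le_tsum_norm (by simp_rw [h6]; exact ha)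
      _ = _ := by simp_rw [h6]
  have hFc : Continuous F := by
    rw [hFt]
    refine continuous_tsum (fun n => by fun_prop) ha ?_
    intro n θ
    exact (bndexp _ _ _).le
  have h7 : HasSum (fun n : ℕ => ∫ θ in (0:ℝ)..(2 * π), (starRingEnd ℂ) (a n) *
      (F θ * Complex.exp ((-(n : ℤ) : ℤ) * θ * Complex.I)))
      (∫ θ in (0:ℝ)..(2 * π), ((‖F θ‖ ^ 2 : ℝ) : ℂ)) := by
    apply intervalIntegral.hasSum_integral_of_dominated_convergence
      (fun n _ => ‖a n‖ * ∑' m, ‖a m‖)
    · intro m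
      exact (by fun_prop : Continuous fun θ : ℝ => (starRingEnd ℂ) (a m) *
        (F θ * Complex.exp ((-(m : ℤ) : ℤ) * θ * Complex.I))).aestronglyMeasurable
    · intro n
      refine Filter.Eventually.of_forall fun θ _ => ?_
      rw [norm_mul, bndexp, RCLike.norm_conj]
      exact mul_le_mul_of_nonneg_left (hFb θ) (norm_nonneg _)
    · exact Filter.Eventually.of_forall fun θ _ => ha.mul_right _
    · exact intervalIntegrable_const
    · refine Filter.Eventually.of_forall fun θ _ => ?_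
      have h8 : HasSum (fun n : ℕ => (starRingEnd ℂ) (a n * Complex.exp ((n : ℤ) * θ * Complex.I)))
          ((starRingEnd ℂ) (F θ)) := (Complex.hasSum_conj').2 (hF θ)
      have h9 := h8.mul_right (F θ)
      rw [Complex.conj_mul'] at h9
      push_cast
      refine h9.congr_fun ?_
      intro n
      rw [map_mul, ← Complex.exp_conj]
      have h10 : (starRingEnd ℂ) (((n : ℤ) : ℂ) * θ * Complex.I) = (-(n : ℤ) : ℤ) * θ * Complex.I := by
        rw [map_mul, map_mul, Complex.conj_I, Complex.conj_ofReal]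
        simp
      rw [h10]
      push_cast
      ring_nf
  have h11 : ∀ n : ℕ, ∫ θ in (0:ℝ)..(2 * π), (starRingEnd ℂ) (a n) *
      (F θ * Complex.exp ((-(n : ℤ) : ℤ) * θ * Complex.I)) = ((2 * π * ‖a n‖ ^ 2 : ℝ) : ℂ) := by
    intro n
    rw [intervalIntegral.integral_const_mul, h1]
    have h12 : (starRingEnd ℂ) (a n) * (2 * π * a n) = 2 * π * ((starRingEnd ℂ) (a n) * a n) := by ring
    rw [h12, Complex.conj_mul']
    push_cast
    ring
  simp_rw [h11] at h7
  rw [intervalIntegral.integral_ofReal] at h7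
  exact Complex.hasSum_ofReal.1 h7

/-- Parseval on circles -/
lemma parseval {g : ℂ → ℂ} (hg : DifferentiableOn ℂ g (ball 0 1)) {s : ℝ} (hs : 0 ≤ s)
    (hs1 : s < 1) : HasSum (fun n => ‖cf g n‖ ^ 2 * s ^ (2 * n)) (A s (fun z => ‖g z‖ ^ 2)) := by
  have hnorm : ∀ θ : ℝ, ‖(s : ℂ) * Complex.exp (θ * Complex.I)‖ = s := by
    intro θ
    rw [norm_mul, Complex.norm_exp_ofReal_mul_I, mul_one, Complex.norm_real, Real.norm_of_nonneg hs]
  have hF : ∀ θ : ℝ, HasSum (fun n : ℕ => (cf g n * (s : ℂ) ^ n) *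
      Complex.exp ((n : ℤ) * θ * Complex.I)) (g (s * Complex.exp (θ * Complex.I))) := by
    intro θ
    have h1 : (s : ℂ) * Complex.exp (θ * Complex.I) ∈ ball (0 : ℂ) 1 := by
      rw [mem_ball_zero_iff, hnorm]
      exact hs1
    have h2 := Complex.hasSum_taylorSeries_on_ball hg h1
    refine h2.congr_fun ?_
    intro n
    rw [sub_zero, mul_pow, ← Complex.exp_nat_mul, cf, smul_eq_mul, smul_eq_mul]
    have h3 : ((n : ℤ) : ℂ) * θ * Complex.I = n * (θ * Complex.I) := by
      push_cast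
      ring
    rw [h3]
    field_simp
  have ha : Summable fun n => ‖cf g n * (s : ℂ) ^ n‖ := by
    have h1 := (hF 0).summable.norm
    refine h1.congr ?_
    intro n
    exact bndexp _ _ _
  have hsum := pars _ ha _ hF
  have h2 := hsum.mul_left ((2 * π)⁻¹)
  have e : A s (fun z => ‖g z‖ ^ 2) =
      (2 * π)⁻¹ * ∫ θ in (0:ℝ)..(2 * π), ‖g (s * Complex.exp (θ * Complex.I))‖ ^ 2 := by
    rw [A, Real.circleAverage_def, smul_eq_mul]
    simp [circleMap]
  rw [e]
  refine h2.congr_fun ?_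
  intro n
  rw [norm_mul, norm_pow, Complex.norm_real, Real.norm_of_nonneg hs, mul_pow, ← pow_mul,
    mul_comm n 2]
  have := Real.pi_pos
  field_simp

lemma cf_deriv (g : ℂ → ℂ) (n : ℕ) : cf (deriv g) n = (n + 1) * cf g (n + 1) := by
  unfold cf
  rw [← iteratedDeriv_succ', Nat.factorial_succ]
  have h1 : ((n : ℂ) + 1) ≠ 0 := by exact_mod_cast Nat.succ_ne_zero n
  have h2 : ((n.factorial : ℕ) : ℂ) ≠ 0 := by exact_mod_cast Nat.factorial_ne_zero n
  push_cast
  field_simp

lemma cf_poly (P : ℂ[X]) (n : ℕ) : cf (fun z => P.eval z) n = P.coeff n := by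
  have h : ∀ (n : ℕ) (P : ℂ[X]), iteratedDeriv n (fun z => P.eval z) =
      fun z => (derivative^[n] P).eval z := by
    intro n
    induction n with
    | zero => intro P; simp
    | succ n ih =>
      intro P
      rw [iteratedDeriv_succ']
      have : deriv (fun z => P.eval z) = fun z => (derivative P).eval z := by
        funext z
        exact Polynomial.deriv P
      rw [this, ih, Function.iterate_succ_apply]
  unfold cf
  rw [h]
  simp only
  rw [← Polynomial.coeff_zero_eq_eval_zero, Polynomial.coeff_iterate_derivative, zero_add,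
    Nat.descFactorial_self, nsmul_eq_mul, mul_div_cancel_left₀]
  exact_mod_cast Nat.factorial_ne_zero n

lemma cf_comp_trunc {φ : ℂ → ℂ} (h : SelfMap φ) (P : ℂ[X]) (N n : ℕ) (hn : n < N) :
    cf (fun z => P.eval (φ z)) n =
      cf (fun z => (∑ k ∈ Finset.range N, C (P.coeff k) * X ^ k : ℂ[X]).eval (φ z)) n := by
  set T : ℂ[X] := ∑ k ∈ Finset.range N, C (P.coeff k) * X ^ k with hT
  have hφa : AnalyticAt ℂ φ 0 :=
    (h.diff.analyticOnNhd isOpen_ball) 0 (mem_ball_self one_pos)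
  have hcomp : ∀ Q : ℂ[X], AnalyticAt ℂ (fun z => Q.eval (φ z)) 0 := by
    intro Q
    exact (Q.differentiable.analyticAt (φ 0)).comp hφa
  have hdvd : X ^ N ∣ P - T := by
    rw [Polynomial.X_pow_dvd_iff]
    intro d hd
    rw [Polynomial.coeff_sub, hT, Polynomial.finset_sum_coeff]
    simp only [Polynomial.coeff_C_mul, Polynomial.coeff_X_pow, mul_ite, mul_one, mul_zero]
    rw [Finset.sum_ite_eq, if_pos (Finset.mem_range.2 hd), sub_self]
  obtain ⟨R, hR⟩ := hdvd
  have e1 : (fun z => P.eval (φ z)) - (fun z => T.eval (φ z)) =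
      (φ ^ N) * (fun z => R.eval (φ z)) := by
    funext z
    have := congrArg (fun Q : ℂ[X] => Q.eval (φ z)) hR
    simpa using this
  have hord : (N : ℕ∞) ≤ analyticOrderAt ((φ ^ N) * (fun z => R.eval (φ z))) 0 := by
    rw [analyticOrderAt_mul (hφa.pow N) (hcomp R), analyticOrderAt_pow hφa]
    have h1 : 1 ≤ analyticOrderAt φ 0 := by
      rw [Order.one_le_iff_ne_zero]
      exact (hφa.analyticOrderAt_ne_zero).2 h.zero
    calc (N : ℕ∞) = N • (1 : ℕ∞) := by simp
      _ ≤ N • analyticOrderAt φ 0 := nsmul_le_nsmul_right h1 N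
      _ ≤ _ := le_self_add
  have h2 := (natCast_le_analyticOrderAt_iff_iteratedDeriv_eq_zero
    ((hφa.pow N).mul (hcomp R))).1 hord n hn
  rw [← e1] at h2
  have h3 : iteratedDeriv n ((fun z => P.eval (φ z)) - (fun z => T.eval (φ z))) 0 =
      iteratedDeriv n (fun z => P.eval (φ z)) 0 - iteratedDeriv n (fun z => T.eval (φ z)) 0 :=
    iteratedDeriv_sub (hcomp P).contDiffAt (hcomp T).contDiffAt
  rw [h3, sub_eq_zero] at h2
  unfold cf
  rw [h2]

/-- Rogosinski's coefficient inequality -/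
lemma rogosinski {φ : ℂ → ℂ} (h : SelfMap φ) (P : ℂ[X]) (N : ℕ) :
    ∑ n ∈ Finset.range N, ‖cf (fun z => P.eval (φ z)) n‖ ^ 2 ≤
      ∑ n ∈ Finset.range N, ‖P.coeff n‖ ^ 2 := by
  set T : ℂ[X] := ∑ k ∈ Finset.range N, C (P.coeff k) * X ^ k with hT
  have hTd : DifferentiableOn ℂ (fun z => T.eval (φ z)) (ball 0 1) :=
    T.differentiable.comp_differentiableOn h.diff
  have e1 : ∑ n ∈ Finset.range N, ‖cf (fun z => P.eval (φ z)) n‖ ^ 2 =
      ∑ n ∈ Finset.range N, ‖cf (fun z => T.eval (φ z)) n‖ ^ 2 := by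
    apply Finset.sum_congr rfl
    intro n hn
    rw [cf_comp_trunc h P N n (Finset.mem_range.1 hn)]
  rw [e1]
  have hTc : ∀ n, T.coeff n = if n < N then P.coeff n else 0 := by
    intro n
    rw [hT, Polynomial.finset_sum_coeff]
    simp only [Polynomial.coeff_C_mul, Polynomial.coeff_X_pow, mul_ite, mul_one, mul_zero]
    rw [Finset.sum_ite_eq]
    simp
  have key : ∀ s ∈ Ioo (0:ℝ) 1, ∑ n ∈ Finset.range N, ‖cf (fun z => T.eval (φ z)) n‖ ^ 2 * s ^ (2 * n)
      ≤ ∑ n ∈ Finset.range N, ‖P.coeff n‖ ^ 2 := by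
    intro s hs
    have h1 := parseval hTd hs.1.le hs.2
    have h2 := parseval (T.differentiable.differentiableOn (s := ball 0 1)) hs.1.le hs.2
    have h3 := sum_le_hasSum (Finset.range N) (fun n _ => by
      have := pow_nonneg hs.1.le (2 * n)
      positivity) h1
    have h4 := littlewood_poly h hs.1 hs.2 T
    have h5 : A s (fun z => ‖T.eval z‖ ^ 2) = ∑ n ∈ Finset.range N, ‖P.coeff n‖ ^ 2 * s ^ (2 * n) := by
      rw [← h2.tsum_eq, tsum_eq_sum (s := Finset.range N)]
      · apply Finset.sum_congr rfl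
        intro n hn
        rw [cf_poly, hTc, if_pos (Finset.mem_range.1 hn)]
      · intro n hn
        rw [cf_poly, hTc, if_neg (by simpa using hn)]
        simp
    calc _ ≤ _ := h3
      _ ≤ _ := h4
      _ = _ := h5
      _ ≤ _ := by
        apply Finset.sum_le_sum
        intro n _
        have h6 : s ^ (2 * n) ≤ 1 := pow_le_one₀ hs.1.le hs.2.le
        nlinarith [sq_nonneg ‖P.coeff n‖]
  have h1 : Tendsto (fun s : ℝ => ∑ n ∈ Finset.range N, ‖cf (fun z => T.eval (φ z)) n‖ ^ 2 * s ^ (2 * n))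
      (𝓝[<] 1) (𝓝 (∑ n ∈ Finset.range N, ‖cf (fun z => T.eval (φ z)) n‖ ^ 2 * (1:ℝ) ^ (2 * n))) := by
    apply Tendsto.mono_left _ nhdsWithin_le_nhds
    apply Continuous.tendsto
    fun_prop
  have h2 := le_of_tendsto h1 (by
    filter_upwards [Ioo_mem_nhdsLT (show (0:ℝ) < 1 by norm_num)] with s hs
    exact key s hs)
  simpa using h2

lemma abel {b x y : ℕ → ℝ} (hb0 : ∀ n, 0 ≤ b n) (hb : ∀ n, b (n + 1) ≤ b n)
    (h : ∀ N, ∑ n ∈ Finset.range N, x n ≤ ∑ n ∈ Finset.range N, y n) (N : ℕ) :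
    ∑ n ∈ Finset.range N, b n * x n ≤ ∑ n ∈ Finset.range N, b n * y n := by
  have key : ∀ N, b N * (∑ n ∈ Finset.range (N + 1), y n - ∑ n ∈ Finset.range (N + 1), x n) ≤
      ∑ n ∈ Finset.range (N + 1), b n * y n - ∑ n ∈ Finset.range (N + 1), b n * x n := by
    intro N
    induction N with
    | zero => simp [mul_sub]
    | succ N ih =>
      rw [Finset.sum_range_succ y, Finset.sum_range_succ x, Finset.sum_range_succ (fun n => b n * y n),
        Finset.sum_range_succ (fun n => b n * x n)]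
      have h1 := h (N + 1)
      have h2 := hb N
      nlinarith
  cases N with
  | zero => simp
  | succ N =>
    have h1 := key N
    have h2 := h (N + 1)
    have h3 := mul_nonneg (hb0 N) (sub_nonneg.2 h2)
    linarith

lemma exists_antideriv (G : ℂ[X]) : ∃ P : ℂ[X], derivative P = G := by
  induction G using Polynomial.induction_on' with
  | add p q hp hq =>
    obtain ⟨P, hP⟩ := hp
    obtain ⟨Q, hQ⟩ := hq
    exact ⟨P + Q, by rw [derivative_add, hP, hQ]⟩
  | monomial n a =>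
    refine ⟨monomial (n + 1) (a / (n + 1)), ?_⟩
    rw [derivative_monomial]
    congr 1
    have : ((n : ℂ) + 1) ≠ 0 := by exact_mod_cast Nat.succ_ne_zero n
    push_cast
    field_simp

/-- Goluzin's inequality (`p = 2`, `r ≤ 1/2`) -/
lemma goluzin {φ : ℂ → ℂ} (h : SelfMap φ) {r : ℝ} (hr : 0 < r) (hr2 : r ≤ 1 / 2) :
    WP 2 r φ (fun z => ‖deriv φ z‖ ^ 2) 1 := by
  have hr1 : r < 1 := by linarith
  have hdφ : DifferentiableOn ℂ (deriv φ) (ball 0 1) := h.diff.deriv isOpen_ball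
  have hdc : ContinuousOn (fun z => ‖deriv φ z‖ ^ 2) (closedBall 0 r) :=
    (hdφ.continuousOn.mono (closedBall_subset_ball hr1)).norm.pow 2
  refine WP.of_poly h hr hr1 hdc (fun z => sq_nonneg _) ?_
  intro G
  obtain ⟨P, hP⟩ := exists_antideriv G
  set g : ℂ → ℂ := fun z => P.eval (φ z) with hg
  have hgd : DifferentiableOn ℂ g (ball 0 1) := P.differentiable.comp_differentiableOn h.diff
  have hdg : ∀ z ∈ ball (0:ℂ) 1, deriv g z = G.eval (φ z) * deriv φ z := by
    intro z hz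
    have h1 : DifferentiableAt ℂ φ z := h.diff.differentiableAt (isOpen_ball.mem_nhds hz)
    have h2 := (P.hasDerivAt (φ z)).comp z h1.hasDerivAt
    rw [hP] at h2
    exact h2.deriv
  have hdgd : DifferentiableOn ℂ (deriv g) (ball 0 1) := hgd.deriv isOpen_ball
  have e1 : A r (fun z => ‖G.eval (φ z)‖ ^ 2 * ‖deriv φ z‖ ^ 2) = A r (fun z => ‖deriv g z‖ ^ 2) := by
    apply A_congr hr.le
    intro z hz
    rw [hdg z (by rw [mem_ball_zero_iff, hz]; exact hr1), norm_mul, mul_pow]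
  rw [e1]
  have p1 := parseval hdgd hr.le hr1
  have p2 := parseval (G.differentiable.differentiableOn (s := ball 0 1)) hr.le hr1
  refine le_of_tendsto_of_tendsto' p1.tendsto_sum_nat p2.tendsto_sum_nat ?_
  intro N
  have e2 : ∀ n, ‖cf (deriv g) n‖ ^ 2 * r ^ (2 * n) = (((n:ℝ) + 1) ^ 2 * r ^ (2 * n)) * ‖cf g (n + 1)‖ ^ 2 := by
    intro n
    rw [cf_deriv, norm_mul]
    have : ‖(n : ℂ) + 1‖ = (n:ℝ) + 1 := by
      have h1 : ((n : ℂ) + 1) = ((n + 1 : ℕ) : ℂ) := by push_cast; ring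
      rw [h1, Complex.norm_natCast]
      push_cast
      ring
    rw [this]
    ring
  have e3 : ∀ n, ‖cf (fun z => G.eval z) n‖ ^ 2 * r ^ (2 * n) =
      (((n:ℝ) + 1) ^ 2 * r ^ (2 * n)) * ‖P.coeff (n + 1)‖ ^ 2 := by
    intro n
    rw [cf_poly, ← hP, Polynomial.coeff_derivative, norm_mul]
    have : ‖(n : ℂ) + 1‖ = (n:ℝ) + 1 := by
      have h1 : ((n : ℂ) + 1) = ((n + 1 : ℕ) : ℂ) := by push_cast; ring
      rw [h1, Complex.norm_natCast]
      push_cast
      ring
    rw [this]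
    ring
  simp_rw [e2, e3]
  apply abel
  · intro n
    positivity
  · intro n
    have h1 : r ^ (2 * (n + 1)) = r ^ (2 * n) * r ^ 2 := by ring
    rw [h1]
    have h2 : ((n:ℝ) + 1 + 1) * r ≤ (n:ℝ) + 1 := by
      have : (0:ℝ) ≤ n := Nat.cast_nonneg n
      nlinarith
    have h3 : (((n:ℝ) + 1 + 1) * r) ^ 2 ≤ ((n:ℝ) + 1) ^ 2 :=
      pow_le_pow_left₀ (by positivity) h2 2
    push_cast
    calc ((n:ℝ) + 1 + 1) ^ 2 * (r ^ (2 * n) * r ^ 2) = (((n:ℝ) + 1 + 1) * r) ^ 2 * r ^ (2 * n) := by ring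
      _ ≤ ((n:ℝ) + 1) ^ 2 * r ^ (2 * n) := mul_le_mul_of_nonneg_right h3 (by positivity)
  · intro M
    have h1 := rogosinski h P (M + 1)
    rw [Finset.sum_range_succ', Finset.sum_range_succ'] at h1
    have h2 : cf (fun z => P.eval (φ z)) 0 = P.coeff 0 := by
      unfold cf
      simp [h.zero, Polynomial.coeff_zero_eq_eval_zero]
    rw [h2] at h1
    linarith

end H790R2.Rp
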