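import Pool.Agent.H790R2.RpC
import Pool.Agent.Helper203.NSBase

set_option autoImplicit false

namespace H790R2.Rp

open Complex Metric Set Filter Topology
open scoped ComplexConjugate

/-- two-point Schwarz-Pick for maps into the closed disc -/
lemma sp_two {F : ℂ → ℂ} (hF : DifferentiableOn ℂ F (ball 0 1))
    (hm : ∀ z ∈ ball (0:ℂ) 1, ‖F z‖ ≤ 1) {z w : ℂ} (hz : ‖z‖ < 1) (hw : ‖w‖ < 1) :
    ‖F z - F w‖ * ‖1 - conj w * z‖ ≤ ‖z - w‖ * ‖1 - conj (F w) * F z‖ := by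
  have key : ∀ s ∈ Ioo (0:ℝ) 1, ‖(s:ℂ) * F z - (s:ℂ) * F w‖ * ‖1 - conj w * z‖ ≤
      ‖z - w‖ * ‖1 - conj ((s:ℂ) * F w) * ((s:ℂ) * F z)‖ := by
    intro s hs
    have hmaps : MapsTo (fun z => (s:ℂ) * F z) (ball 0 1) (ball 0 1) := by
      intro u hu
      rw [mem_ball_zero_iff, norm_mul, Complex.norm_real, Real.norm_of_nonneg hs.1.le]
      have := hm u hu
      nlinarith [hs.1, hs.2, norm_nonneg (F u)]
    exact Pool.Agent.Helper203.NS.schwarz_pick (hF.const_mul _) hmaps hz hw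
  have h1 : Tendsto (fun s : ℝ => ‖(s:ℂ) * F z - (s:ℂ) * F w‖ * ‖1 - conj w * z‖) (𝓝[<] 1)
      (𝓝 (‖((1:ℝ):ℂ) * F z - ((1:ℝ):ℂ) * F w‖ * ‖1 - conj w * z‖)) := by
    apply Tendsto.mono_left _ nhdsWithin_le_nhds
    apply Continuous.tendsto
    fun_prop
  have h2 : Tendsto (fun s : ℝ => ‖z - w‖ * ‖1 - conj ((s:ℂ) * F w) * ((s:ℂ) * F z)‖) (𝓝[<] 1)
      (𝓝 (‖z - w‖ * ‖1 - conj (((1:ℝ):ℂ) * F w) * (((1:ℝ):ℂ) * F z)‖)) := by
    apply Tendsto.mono_left _ nhdsWithin_le_nhds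
    apply Continuous.tendsto
    simp only [map_mul, Complex.conj_ofReal]
    fun_prop
  have h3 := le_of_tendsto_of_tendsto h1 h2 (by
    filter_upwards [Ioo_mem_nhdsLT (show (0:ℝ) < 1 by norm_num)] with s hs
    exact key s hs)
  simpa using h3

/-- infinitesimal Schwarz-Pick for maps into the closed disc -/
lemma sp_deriv {F : ℂ → ℂ} (hF : DifferentiableOn ℂ F (ball 0 1))
    (hm : ∀ z ∈ ball (0:ℂ) 1, ‖F z‖ ≤ 1) {w : ℂ} (hw : ‖w‖ < 1) :
    ‖deriv F w‖ * (1 - ‖w‖ ^ 2) ≤ 1 - ‖F w‖ ^ 2 := by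
  have hd : DifferentiableAt ℂ F w := hF.differentiableAt (isOpen_ball.mem_nhds (by simpa using hw))
  have key : ∀ s ∈ Ioo (0:ℝ) 1, (s * ‖deriv F w‖) * (1 - ‖w‖ ^ 2) ≤ 1 - (s * ‖F w‖) ^ 2 := by
    intro s hs
    have hmaps : MapsTo (fun z => (s:ℂ) * F z) (ball 0 1) (ball 0 1) := by
      intro u hu
      rw [mem_ball_zero_iff, norm_mul, Complex.norm_real, Real.norm_of_nonneg hs.1.le]
      have := hm u hu
      nlinarith [hs.1, hs.2, norm_nonneg (F u)]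
    have h1 := Pool.Agent.Helper203.NS.schwarz_pick_deriv (hF.const_mul _) hmaps hw
    have h2 : deriv (fun z => (s:ℂ) * F z) w = (s:ℂ) * deriv F w := deriv_const_mul _ hd
    rw [h2, norm_mul, norm_mul, Complex.norm_real, Real.norm_of_nonneg hs.1.le] at h1
    exact h1
  have h1 : Tendsto (fun s : ℝ => (s * ‖deriv F w‖) * (1 - ‖w‖ ^ 2)) (𝓝[<] 1)
      (𝓝 ((1 * ‖deriv F w‖) * (1 - ‖w‖ ^ 2))) := by
    apply Tendsto.mono_left _ nhdsWithin_le_nhds
    apply Continuous.tendsto (f := fun s : ℝ => (s * ‖deriv F w‖) * (1 - ‖w‖ ^ 2))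
    fun_prop
  have h2 : Tendsto (fun s : ℝ => 1 - (s * ‖F w‖) ^ 2) (𝓝[<] 1)
      (𝓝 (1 - (1 * ‖F w‖) ^ 2)) := by
    apply Tendsto.mono_left _ nhdsWithin_le_nhds
    apply Continuous.tendsto (f := fun s : ℝ => 1 - (s * ‖F w‖) ^ 2)
    fun_prop
  have h3 := le_of_tendsto_of_tendsto h1 h2 (by
    filter_upwards [Ioo_mem_nhdsLT (show (0:ℝ) < 1 by norm_num)] with s hs
    exact key s hs)
  simpa using h3

lemma sp_gap {a b : ℂ} {ρ : ℝ} (ha : ‖a‖ ≤ 1) (hb : ‖b‖ ≤ 1) (hρ0 : 0 ≤ ρ) (hρ1 : ρ < 1)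
    (h : ‖b - a‖ ≤ ρ * ‖1 - conj a * b‖) : |‖b‖ - ‖a‖| ≤ ρ * (1 - ‖a‖ * ‖b‖) := by
  have hid := Pool.Agent.Helper203.NS.mob_id a b
  have h1 : ‖b - a‖ ^ 2 ≤ ρ ^ 2 * ‖1 - conj a * b‖ ^ 2 := by
    rw [← mul_pow]
    exact pow_le_pow_left₀ (norm_nonneg _) h 2
  have h2 : |‖b‖ - ‖a‖| ^ 2 ≤ ‖b - a‖ ^ 2 := pow_le_pow_left₀ (abs_nonneg _) (abs_norm_sub_norm_le b a) 2
  rw [sq_abs] at h2
  have hρ2 : 0 ≤ 1 - ρ ^ 2 := by nlinarith
  have h3 : (‖b‖ - ‖a‖) ^ 2 * (1 - ρ ^ 2) ≤ ρ ^ 2 * ((1 - ‖a‖ ^ 2) * (1 - ‖b‖ ^ 2)) := by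
    have h4 := mul_le_mul_of_nonneg_right h2 hρ2
    nlinarith
  have h5 : (‖b‖ - ‖a‖) ^ 2 ≤ (ρ * (1 - ‖a‖ * ‖b‖)) ^ 2 := by nlinarith
  have h6 : 0 ≤ ρ * (1 - ‖a‖ * ‖b‖) := by
    apply mul_nonneg hρ0
    nlinarith [norm_nonneg a, norm_nonneg b]
  exact abs_le_of_sq_le_sq h5 h6

/-- the quotient `φ(z)/z` -/
noncomputable def om (φ : ℂ → ℂ) : ℂ → ℂ := dslope φ 0

section
variable {φ : ℂ → ℂ}

lemma SelfMap.om_diff (h : SelfMap φ) : DifferentiableOn ℂ (om φ) (ball 0 1) :=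
  (Complex.differentiableOn_dslope (isOpen_ball.mem_nhds (mem_ball_self one_pos))).2 h.diff

lemma SelfMap.om_le (h : SelfMap φ) (z : ℂ) (hz : z ∈ ball (0:ℂ) 1) : ‖om φ z‖ ≤ 1 := by
  have := Complex.norm_dslope_le_div_of_mapsTo_ball (R₂ := 1) h.diff (by
    rw [h.zero]
    exact h.maps.mono_right ball_subset_closedBall) hz
  simpa [om] using this

lemma SelfMap.om_mul (h : SelfMap φ) (z : ℂ) : φ z = z * om φ z := by
  have := sub_smul_dslope φ 0 z
  rw [h.zero, sub_zero, sub_zero, smul_eq_mul] at this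
  exact this.symm

lemma om_zero : om φ 0 = deriv φ 0 := dslope_same φ 0

lemma SelfMap.om_gap (h : SelfMap φ) {z : ℂ} (hz : ‖z‖ < 1) :
    |‖om φ z‖ - ‖om φ 0‖| ≤ ‖z‖ * (1 - ‖om φ 0‖ * ‖om φ z‖) := by
  have h0 : (0:ℂ) ∈ ball (0:ℂ) 1 := mem_ball_self one_pos
  have h1 := sp_two h.om_diff h.om_le hz (w := 0) (by simp)
  apply sp_gap (h.om_le 0 h0) (h.om_le z (by simpa using hz)) (norm_nonneg _) hz
  simpa using h1

lemma SelfMap.x0_le (h : SelfMap φ) : ‖deriv φ 0‖ ≤ 1 := by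
  rw [← om_zero]
  exact h.om_le 0 (mem_ball_self one_pos)

/-- growth bound for `φ` in terms of `|φ'(0)|` -/
lemma SelfMap.growth (h : SelfMap φ) {z : ℂ} (hz : ‖z‖ < 1) :
    ‖φ z‖ * (1 + ‖deriv φ 0‖ * ‖z‖) ≤ ‖z‖ * (‖deriv φ 0‖ + ‖z‖) := by
  have h1 := (abs_le.1 (h.om_gap hz)).2
  rw [om_zero] at h1
  rw [h.om_mul z, norm_mul]
  have := norm_nonneg z
  nlinarith

/-- distortion bound for `φ'` -/
lemma SelfMap.deriv_le (h : SelfMap φ) {z : ℂ} (hz : ‖z‖ < 1) :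
    ‖deriv φ z‖ ≤ 1 + (1 - ‖deriv φ 0‖) * (max (‖z‖ ^ 2 + 2 * ‖z‖ - 1) 0 / (1 - ‖z‖) ^ 2) := by
  have hzb : z ∈ ball (0:ℂ) 1 := by simpa using hz
  have hod : DifferentiableAt ℂ (om φ) z := h.om_diff.differentiableAt (isOpen_ball.mem_nhds hzb)
  have e : deriv φ z = om φ z + z * deriv (om φ) z := by
    have h1 : φ = fun z => z * om φ z := funext h.om_mul
    conv_lhs => rw [h1]
    rw [deriv_fun_mul differentiableAt_fun_id hod]
    simp
  have h1 := sp_deriv h.om_diff h.om_le hz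
  have h2 := (abs_le.1 (h.om_gap hz)).1
  rw [om_zero] at h2
  have hx := h.om_le z hzb
  have hx0 := h.x0_le
  rw [e]
  refine (norm_add_le _ _).trans ?_
  rw [norm_mul]
  set x := ‖om φ z‖
  set y := ‖deriv (om φ) z‖
  set x₀ := ‖deriv φ 0‖
  set r := ‖z‖
  have hr0 : 0 ≤ r := norm_nonneg _
  have hx' : 0 ≤ x := norm_nonneg _
  have hx0' : 0 ≤ x₀ := norm_nonneg _
  have hy' : 0 ≤ y := norm_nonneg _
  set m := max (r ^ 2 + 2 * r - 1) 0 with hm
  have hm0 : 0 ≤ m := le_max_right _ _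
  have hm1 : r ^ 2 + 2 * r - 1 ≤ m := le_max_left _ _
  have h1r : 0 < 1 - r := by linarith
  -- y ≤ (1 - x^2)/(1 - r^2)
  have hy : y ≤ (1 - x ^ 2) / (1 - r ^ 2) := by
    rw [le_div_iff₀ (by nlinarith)]
    exact h1
  have h3 : x + r * y ≤ 1 + (1 - x) * (m / (1 - r ^ 2)) := by
    have h4 : r * y ≤ r * ((1 - x ^ 2) / (1 - r ^ 2)) := mul_le_mul_of_nonneg_left hy hr0
    have h5 : x + r * ((1 - x ^ 2) / (1 - r ^ 2)) ≤ 1 + (1 - x) * (m / (1 - r ^ 2)) := by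
      have h6 : 0 < 1 - r ^ 2 := by nlinarith
      rw [← sub_nonneg]
      have h7 : 1 + (1 - x) * (m / (1 - r ^ 2)) - (x + r * ((1 - x ^ 2) / (1 - r ^ 2))) =
          ((1 - x) * (1 - r ^ 2 + m - r * (1 + x))) / (1 - r ^ 2) := by
        field_simp
        ring
      rw [h7]
      apply div_nonneg _ h6.le
      apply mul_nonneg (by linarith)
      nlinarith
    linarith
  have h8 : (1 - x) * (1 - r) ≤ (1 - x₀) * (1 + r) := by
    have h8a : 0 ≤ (1 - x) * (r * (1 - x₀)) :=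
      mul_nonneg (by linarith) (mul_nonneg hr0 (by linarith))
    nlinarith
  have h9 : (1 - x) * (m / (1 - r ^ 2)) ≤ (1 - x₀) * (m / (1 - r) ^ 2) := by
    have h10 : m / (1 - r ^ 2) = (m / ((1 - r) * (1 + r))) := by
      congr 1
      ring
    rw [h10, mul_div_assoc', mul_div_assoc', div_le_div_iff₀ (by positivity) (by positivity)]
    have h11 := mul_le_mul_of_nonneg_left h8 (mul_nonneg hm0 h1r.le)
    nlinarith
  linarith

end

/-- scaling of circle averages -/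
lemma A_scale (u : ℂ → ℝ) (c r : ℝ) : A r (fun z => u ((c:ℂ) * z)) = A (c * r) u := by
  unfold A
  rw [Real.circleAverage_def, Real.circleAverage_def]
  congr 2
  funext θ
  congr 1
  simp [circleMap]
  ring

/-- the derivative inequality at exponent `p` on the circle `|z| = r` -/
def Q (p r : ℝ) : Prop := ∀ φ : ℂ → ℂ, SelfMap φ → WP p r φ (fun z => ‖deriv φ z‖ ^ p) 1

lemma SelfMap.dcont {φ : ℂ → ℂ} (h : SelfMap φ) {r : ℝ} (hr1 : r < 1) :
    ContinuousOn (deriv φ) (closedBall 0 r) :=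
  (h.diff.deriv isOpen_ball).continuousOn.mono (closedBall_subset_ball hr1)

/-- from a radius `r₀` to a smaller radius `r` one gains a factor -/
lemma improve {p r₀ r : ℝ} (hp : 0 < p) (hr : 0 < r) (hr0 : r ≤ r₀) (hr1 : r₀ < 1)
    (H : Q p r₀) {φ : ℂ → ℂ} (h : SelfMap φ) :
    WP p r φ (fun z => ‖deriv φ z‖ ^ p)
      (((‖deriv φ 0‖ + r / r₀) / (1 + ‖deriv φ 0‖ * (r / r₀))) ^ p) := by
  intro F hF
  have hr0' : 0 < r₀ := lt_of_lt_of_le hr hr0
  set l : ℝ := r / r₀ with hl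
  have hl0 : 0 < l := by positivity
  have hl1 : l ≤ 1 := (div_le_one hr0').2 hr0
  have hlr : l * r₀ = r := by rw [hl]; field_simp
  set x₀ : ℝ := ‖deriv φ 0‖ with hx₀
  have hx0 : 0 ≤ x₀ := norm_nonneg _
  have hx1 : x₀ ≤ 1 := h.x0_le
  set s : ℝ := (x₀ + l) / (1 + x₀ * l) with hs
  have hs0 : 0 < s := by positivity
  have hs1 : s ≤ 1 := by
    rw [hs, div_le_one (by positivity)]
    nlinarith
  -- ψ z = φ (l z) / (s l)
  set ψ : ℂ → ℂ := fun z => ((s * l : ℝ) : ℂ)⁻¹ * φ ((l:ℂ) * z) with hψ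
  have hlz : ∀ z : ℂ, ‖(l:ℂ) * z‖ = l * ‖z‖ := by
    intro z
    rw [norm_mul, Complex.norm_real, Real.norm_of_nonneg hl0.le]
  have hmapl : MapsTo (fun z : ℂ => (l:ℂ) * z) (ball 0 1) (ball 0 1) := by
    intro z hz
    rw [mem_ball_zero_iff] at hz ⊢
    rw [hlz]
    nlinarith [norm_nonneg z]
  have hψS : SelfMap ψ := by
    refine ⟨?_, ?_, ?_⟩
    · apply DifferentiableOn.const_mul
      exact h.diff.comp (differentiableOn_id.const_mul _) hmapl
    · intro z hz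
      have hz1 : ‖z‖ < 1 := by simpa using hz
      rw [mem_ball_zero_iff, hψ]
      simp only
      rw [norm_mul, norm_inv, Complex.norm_real, Real.norm_of_nonneg (by positivity),
        inv_mul_lt_iff₀ (by positivity), mul_one]
      have h1 : ‖(l:ℂ) * z‖ < 1 := by simpa using hmapl hz
      have h2 := h.growth h1
      rw [hlz, ← hx₀] at h2
      have h0z := norm_nonneg z
      by_cases hz0 : ‖z‖ = 0
      · have : z = 0 := norm_eq_zero.1 hz0
        rw [this, mul_zero, h.zero, norm_zero]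
        positivity
      have hzp : 0 < ‖z‖ := lt_of_le_of_ne h0z (Ne.symm hz0)
      have h3 : ‖φ ((l:ℂ) * z)‖ ≤ l * ‖z‖ * ((x₀ + l * ‖z‖) / (1 + x₀ * (l * ‖z‖))) := by
        rw [mul_div_assoc', le_div_iff₀ (by positivity)]
        exact h2
      have h4 : (x₀ + l * ‖z‖) / (1 + x₀ * (l * ‖z‖)) ≤ s := by
        rw [hs, div_le_div_iff₀ (by positivity) (by positivity)]
        have : (x₀ + l) * (1 + x₀ * (l * ‖z‖)) - (x₀ + l * ‖z‖) * (1 + x₀ * l) =
          l * (1 - ‖z‖) * (1 - x₀ ^ 2) := by ring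
        have h5 : 0 ≤ l * (1 - ‖z‖) * (1 - x₀ ^ 2) := by
          apply mul_nonneg
          · apply mul_nonneg hl0.le
            linarith
          · nlinarith
        linarith
      calc ‖φ ((l:ℂ) * z)‖ ≤ l * ‖z‖ * s := h3.trans (mul_le_mul_of_nonneg_left h4 (by positivity))
        _ < s * l := by nlinarith [mul_pos hs0 hl0]
    · rw [hψ]
      simp [h.zero]
  -- the test function
  set G : ℂ → ℂ := fun w => F (((s * l : ℝ) : ℂ) * w) with hG
  have hGd : DifferentiableOn ℂ G (ball 0 1) := by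
    apply hF.comp (differentiableOn_id.const_mul _)
    intro w hw
    rw [mem_ball_zero_iff] at hw ⊢
    simp only [id]
    rw [norm_mul, Complex.norm_real, Real.norm_of_nonneg (by positivity)]
    have : s * l ≤ 1 := by nlinarith
    nlinarith [norm_nonneg w]
  have h1 := H ψ hψS G hGd
  rw [one_mul] at h1
  have hsl : ((s * l : ℝ) : ℂ) ≠ 0 := by
    have : s * l ≠ 0 := by positivity
    exact_mod_cast this
  have e1 : ∀ z, G (ψ z) = F (φ ((l:ℂ) * z)) := by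
    intro z
    rw [hG, hψ]
    simp only
    rw [mul_inv_cancel_left₀ hsl]
  have e2 : ∀ z : ℂ, ‖z‖ = r₀ → ‖deriv ψ z‖ ^ p = (s ^ p)⁻¹ * ‖deriv φ ((l:ℂ) * z)‖ ^ p := by
    intro z hz
    have hzb : z ∈ ball (0:ℂ) 1 := by rw [mem_ball_zero_iff, hz]; exact hr1
    have hd : DifferentiableAt ℂ φ ((l:ℂ) * z) :=
      h.diff.differentiableAt (isOpen_ball.mem_nhds (hmapl hzb))
    have h2 : HasDerivAt ψ (((s * l : ℝ) : ℂ)⁻¹ * (deriv φ ((l:ℂ) * z) * (l:ℂ))) z := by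
      have h3 : HasDerivAt (fun z : ℂ => (l:ℂ) * z) (l:ℂ) z := by
        simpa using (hasDerivAt_id z).const_mul (l:ℂ)
      exact (hd.hasDerivAt.comp z h3).const_mul _
    rw [h2.deriv]
    have h4 : ((s * l : ℝ) : ℂ)⁻¹ * (deriv φ ((l:ℂ) * z) * (l:ℂ)) = ((s : ℝ) : ℂ)⁻¹ * deriv φ ((l:ℂ) * z) := by
      have hs' : (s:ℂ) ≠ 0 := by exact_mod_cast hs0.ne'
      have hl' : (l:ℂ) ≠ 0 := by exact_mod_cast hl0.ne'
      push_cast
      field_simp
    rw [h4, norm_mul, norm_inv, Complex.norm_real, Real.norm_of_nonneg hs0.le,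
      Real.mul_rpow (by positivity) (norm_nonneg _), Real.inv_rpow hs0.le]
  have e3 : A r₀ (fun z => ‖G (ψ z)‖ ^ p * ‖deriv ψ z‖ ^ p) =
      (s ^ p)⁻¹ * A r (fun z => ‖F (φ z)‖ ^ p * ‖deriv φ z‖ ^ p) := by
    rw [← hlr, ← A_scale, ← A_smul]
    apply A_congr hr0'.le
    intro z hz
    rw [e1, e2 z hz]
    ring
  have e4 : A r₀ (fun z => ‖G z‖ ^ p) = A r (fun z => ‖F ((s:ℂ) * z)‖ ^ p) := by
    rw [← hlr, ← A_scale]
    apply A_congr hr0'.le
    intro z _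
    rw [hG]
    simp only
    congr 3
    push_cast
    ring
  have hsS : SelfMap (fun z => (s:ℂ) * z) := by
    refine ⟨differentiableOn_id.const_mul _, ?_, by simp⟩
    intro z hz
    rw [mem_ball_zero_iff] at hz ⊢
    rw [norm_mul, Complex.norm_real, Real.norm_of_nonneg hs0.le]
    nlinarith [norm_nonneg z]
  have h5 := littlewood hp hsS hr (lt_of_le_of_lt hr0 hr1) F hF
  simp only [mul_one, one_mul] at h5
  rw [e3, e4] at h1
  have h6 := h1.trans h5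
  have hsp : 0 < s ^ p := Real.rpow_pos_of_pos hs0 p
  rw [inv_mul_le_iff₀ hsp] at h6
  exact h6

/-- monotonicity in the radius -/
lemma Q.radius {p r₀ r : ℝ} (hp : 0 < p) (hr : 0 < r) (hr0 : r ≤ r₀) (hr1 : r₀ < 1)
    (H : Q p r₀) : Q p r := by
  intro φ h F hF
  have h1 := improve hp hr hr0 hr1 H h F hF
  refine h1.trans (mul_le_mul_of_nonneg_right ?_ ?_)
  · have hr0' : 0 < r₀ := lt_of_lt_of_le hr hr0
    set l : ℝ := r / r₀
    have hl0 : 0 < l := by positivity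
    have hl1 : l ≤ 1 := (div_le_one hr0').2 hr0
    have hx0 : 0 ≤ ‖deriv φ 0‖ := norm_nonneg _
    have hx1 := h.x0_le
    apply Real.rpow_le_one (by positivity) _ hp.le
    rw [div_le_one (by positivity)]
    nlinarith
  · apply Real.circleAverage_nonneg_of_nonneg
    intro z _
    exact Real.rpow_nonneg (norm_nonneg _) _

/-- monotonicity in the exponent -/
lemma Q.lower {p q r : ℝ} (hp : 0 < p) (hpq : p ≤ q) (hr : 0 < r) (hr1 : r < 1)
    (H : Q q r) : Q p r := by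
  intro φ h
  have hq : 0 < q := lt_of_lt_of_le hp hpq
  have hd := (h.dcont hr1).norm
  have h1 := WP.transfer hq hp h hr hr1 (rpow_cont hd hq)
    (fun z => Real.rpow_nonneg (norm_nonneg _) _) zero_le_one (H φ h)
  have h0 := littlewood hp h hr hr1
  have h2 := WP.convex (θ := p / q) hp h hr hr1 continuousOn_const (rpow_cont hd hq)
    (rpow_cont hd hp) (by positivity) ((div_le_one hq).2 hpq) (by
    intro z _
    have h3 : ‖deriv φ z‖ ^ p = (1:ℝ) ^ (1 - p / q) * (‖deriv φ z‖ ^ q) ^ (p / q) := by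
      rw [Real.one_rpow, one_mul, ← Real.rpow_mul (norm_nonneg _)]
      congr 1
      field_simp
    rw [h3]
    exact Real.geom_mean_le_arith_mean2_weighted (by
      rw [sub_nonneg]
      exact (div_le_one hq).2 hpq) (by positivity) zero_le_one
      (Real.rpow_nonneg (norm_nonneg _) _) (by ring)) h0 h1
  have h4 : (1 - p / q) * 1 + p / q * 1 = (1:ℝ) := by ring
  rw [h4] at h2
  exact h2

/-- raising the exponent at the cost of the radius -/
lemma Q.raise {p q r₀ r : ℝ} (hp : 0 < p) (hpq : p ≤ q) (hr : 0 < r) (hr0 : r ≤ r₀)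
    (hr1 : r₀ < 1) (H : Q p r₀)
    (hc : (q - p) * (max (r ^ 2 + 2 * r - 1) 0 / (1 - r) ^ 2) ≤ p * ((r₀ - r) / (r₀ + r))) :
    Q q r := by
  intro φ h
  have hq : 0 < q := lt_of_lt_of_le hp hpq
  have hr1' : r < 1 := lt_of_le_of_lt hr0 hr1
  have hr0' : 0 < r₀ := lt_of_lt_of_le hr hr0
  have hd := (h.dcont hr1').norm
  have h1 := improve hp hr hr0 hr1 H h
  set l : ℝ := r / r₀ with hl
  have hl0 : 0 < l := by positivity
  have hl1 : l ≤ 1 := (div_le_one hr0').2 hr0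
  set x₀ : ℝ := ‖deriv φ 0‖ with hx₀
  have hx0 : 0 ≤ x₀ := norm_nonneg _
  have hx1 : x₀ ≤ 1 := h.x0_le
  set s : ℝ := (x₀ + l) / (1 + x₀ * l) with hs
  have hs0 : 0 < s := by positivity
  set K : ℝ := max (r ^ 2 + 2 * r - 1) 0 / (1 - r) ^ 2 with hK
  have hK0 : 0 ≤ K := by
    apply div_nonneg (le_max_right _ _) (sq_nonneg _)
  set Y : ℝ := 1 + (1 - x₀) * K with hY
  have hY1 : 1 ≤ Y := by
    have := mul_nonneg (sub_nonneg.2 hx1) hK0
    linarith
  have hYs : Y ^ (q - p) * s ^ p ≤ 1 := by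
    rw [← Real.exp_log (lt_of_lt_of_le one_pos hY1), ← Real.exp_log hs0, ← Real.exp_mul,
      ← Real.exp_mul, ← Real.exp_add, Real.exp_le_one_iff]
    have e1 : Real.log Y ≤ (1 - x₀) * K := by
      have := Real.log_le_sub_one_of_pos (lt_of_lt_of_le one_pos hY1)
      linarith
    have e2 : Real.log s ≤ -((1 - x₀) * ((1 - l) / (1 + l))) := by
      have h3 := Real.log_le_sub_one_of_pos hs0
      have h4 : s - 1 ≤ -((1 - x₀) * ((1 - l) / (1 + l))) := by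
        have h5 : s - 1 = -((1 - x₀) * ((1 - l) / (1 + x₀ * l))) := by
          rw [hs]
          field_simp
          ring
        rw [h5, neg_le_neg_iff]
        apply mul_le_mul_of_nonneg_left _ (by linarith)
        apply div_le_div_of_nonneg_left (by linarith) (by positivity)
        nlinarith
      linarith
    have e3 : (1 - l) / (1 + l) = (r₀ - r) / (r₀ + r) := by
      rw [hl]
      field_simp
    rw [← e3] at hc
    have e4 : Real.log Y * (q - p) ≤ (1 - x₀) * K * (q - p) :=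
      mul_le_mul_of_nonneg_right e1 (by linarith)
    have e5 : Real.log s * p ≤ -((1 - x₀) * ((1 - l) / (1 + l))) * p :=
      mul_le_mul_of_nonneg_right e2 hp.le
    have e6 := mul_le_mul_of_nonneg_left hc (sub_nonneg.2 hx1)
    nlinarith
  -- WP p r φ (‖φ'‖^q) 1
  have h2 : WP p r φ (fun z => ‖deriv φ z‖ ^ q) 1 := by
    intro F hF
    have h3 := h1 F hF
    have hFφ := rpow_cont (h.compc hr hr1' hF).norm hp
    have h4 : A r (fun z => ‖F (φ z)‖ ^ p * ‖deriv φ z‖ ^ q) ≤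
        A r (fun z => Y ^ (q - p) * (‖F (φ z)‖ ^ p * ‖deriv φ z‖ ^ p)) := by
      apply A_mono hr.le
      · exact hFφ.mul (rpow_cont hd hq)
      · exact continuousOn_const.mul (hFφ.mul (rpow_cont hd hp))
      · intro z hz
        have h5 : ‖deriv φ z‖ ≤ Y := by
          have := h.deriv_le (z := z) (by rw [hz]; exact hr1')
          rw [hz] at this
          exact this
        have h6 : ‖deriv φ z‖ ^ q ≤ Y ^ (q - p) * ‖deriv φ z‖ ^ p := by
          have h7 : ‖deriv φ z‖ ^ q = ‖deriv φ z‖ ^ (q - p) * ‖deriv φ z‖ ^ p := by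
            rw [← Real.rpow_add_of_nonneg (norm_nonneg _) (by linarith) hp.le]
            congr 1
            ring
          rw [h7]
          apply mul_le_mul_of_nonneg_right _ (Real.rpow_nonneg (norm_nonneg _) _)
          exact Real.rpow_le_rpow (norm_nonneg _) h5 (by linarith)
        have h8 : 0 ≤ ‖F (φ z)‖ ^ p := Real.rpow_nonneg (norm_nonneg _) _
        nlinarith
    rw [A_smul] at h4
    have hYp : 0 ≤ Y ^ (q - p) := Real.rpow_nonneg (by linarith) _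
    have hA : 0 ≤ A r (fun z => ‖F z‖ ^ p) := by
      apply Real.circleAverage_nonneg_of_nonneg
      intro z _
      exact Real.rpow_nonneg (norm_nonneg _) _
    calc A r (fun z => ‖F (φ z)‖ ^ p * ‖deriv φ z‖ ^ q)
        ≤ Y ^ (q - p) * A r (fun z => ‖F (φ z)‖ ^ p * ‖deriv φ z‖ ^ p) := h4
      _ ≤ Y ^ (q - p) * (s ^ p * A r (fun z => ‖F z‖ ^ p)) :=
        mul_le_mul_of_nonneg_left h3 hYp
      _ = (Y ^ (q - p) * s ^ p) * A r (fun z => ‖F z‖ ^ p) := by ring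
      _ ≤ 1 * A r (fun z => ‖F z‖ ^ p) := mul_le_mul_of_nonneg_right hYs hA
  exact WP.transfer hp hq h hr hr1' (rpow_cont hd hq)
    (fun z => Real.rpow_nonneg (norm_nonneg _) _) zero_le_one h2

end H790R2.Rp
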