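import Pool.Agent.H790R2.RpD

set_option autoImplicit false

namespace H790R2.Rp

open Complex Metric Set Filter Topology
open scoped ComplexConjugate Real

/-- the Blaschke product `z (z + a) / (1 + a z)` -/
noncomputable def bl (a : ℝ) (z : ℂ) : ℂ := z * ((z + a) / (1 + a * z))

lemma bl_den {a : ℝ} (ha : |a| < 1) {z : ℂ} (hz : ‖z‖ < 1) : (1 + (a:ℂ) * z) ≠ 0 := by
  intro h
  have h1 : (a:ℂ) * z = -1 := by linear_combination h
  have h2 : ‖(a:ℂ) * z‖ = 1 := by rw [h1]; simp
  rw [norm_mul, Complex.norm_real, Real.norm_eq_abs] at h2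
  nlinarith [abs_nonneg a, norm_nonneg z]

lemma bl_hasDeriv {a : ℝ} (ha : |a| < 1) {z : ℂ} (hz : ‖z‖ < 1) :
    HasDerivAt (bl a) ((a + 2 * z + a * z ^ 2) / (1 + a * z) ^ 2) z := by
  have h0 := bl_den ha hz
  have h1 : HasDerivAt (fun z : ℂ => z + (a:ℂ)) 1 z := (hasDerivAt_id z).add_const _
  have h2 : HasDerivAt (fun z : ℂ => 1 + (a:ℂ) * z) (a:ℂ) z := by
    simpa using ((hasDerivAt_id z).const_mul (a:ℂ)).const_add 1
  have h3 := (hasDerivAt_id z).mul (h1.div h2 h0)
  refine h3.congr_deriv ?_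
  simp only [id]
  field_simp
  simp only [Pi.div_apply]
  field_simp
  ring

lemma bl_self {a : ℝ} (ha : |a| < 1) : SelfMap (bl a) := by
  refine ⟨?_, ?_, by simp [bl]⟩
  · intro z hz
    exact (bl_hasDeriv ha (by simpa using hz)).differentiableAt.differentiableWithinAt
  · intro z hz
    have hz1 : ‖z‖ < 1 := by simpa using hz
    have h1 := Pool.Agent.Helper203.NS.mob_lt (a := -(a:ℂ)) (b := z) (by simpa using ha) hz1
    have h2 : (z - -(a:ℂ)) / (1 - conj (-(a:ℂ)) * z) = (z + a) / (1 + a * z) := by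
      rw [map_neg, Complex.conj_ofReal]
      congr 1 <;> ring
    rw [h2] at h1
    rw [mem_ball_zero_iff, bl, norm_mul]
    have := norm_nonneg z
    have := norm_nonneg ((z + (a:ℂ)) / (1 + a * z))
    nlinarith

/-- the inequality fails for radii above `1/2` -/
lemma not_Q_of_gt {p r : ℝ} (hp : 0 < p) (hr : 1 / 2 < r) (hr1 : r < 1) : ¬ Q p r := by
  intro H
  have hs : SelfMap (fun z : ℂ => z ^ 2) := by
    refine ⟨differentiableOn_id.pow 2, ?_, by simp⟩
    intro z hz
    rw [mem_ball_zero_iff] at hz ⊢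
    rw [norm_pow]
    exact pow_lt_one₀ (norm_nonneg _) hz two_ne_zero
  have h1 := H _ hs (fun _ => 1) (differentiableOn_const _)
  simp only [norm_one, Real.one_rpow, one_mul] at h1
  have h2 : A r (fun z => ‖deriv (fun z : ℂ => z ^ 2) z‖ ^ p) = (2 * r) ^ p := by
    unfold A
    apply Real.circleAverage_const_on_circle
    intro z hz
    have hz' := sph_norm (by linarith : 0 ≤ r) hz
    have : deriv (fun z : ℂ => z ^ 2) z = 2 * z := by
      simp
    rw [this, norm_mul, hz']
    simp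
  rw [h2] at h1
  unfold A at h1
  rw [Real.circleAverage_const] at h1
  have h3 : 1 < (2 * r) ^ p := Real.one_lt_rpow (by linarith) hp
  linarith

/-- for every radius above `√2 - 1` the inequality fails for large exponents -/
lemma exists_not_Q {r : ℝ} (hr : 0 < r) (hr1 : r ≤ 1 / 2) (hc : 0 < r ^ 2 + 2 * r - 1) :
    ∃ n : ℕ, 0 < n ∧ ¬ Q n r := by
  have hr1' : r < 1 := by linarith
  -- choice of the Blaschke product
  have hr2 : 0 < r ^ 2 := by positivity
  have hlt : (1 - 2 * r) / r ^ 2 < 1 := by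
    rw [div_lt_one hr2]
    linarith
  obtain ⟨a, ha0, ha1⟩ := exists_between hlt
  have ha0' : 0 ≤ a := le_trans (div_nonneg (by linarith) hr2.le) ha0.le
  rw [div_lt_iff₀ hr2] at ha0
  have haa : |a| < 1 := by rw [abs_of_nonneg ha0']; exact ha1
  have hB := bl_self haa
  -- value at `z = r`
  have hrn : ‖(r:ℂ)‖ < 1 := by rw [Complex.norm_real, Real.norm_of_nonneg hr.le]; exact hr1'
  have hval : 1 < ‖deriv (bl a) (r:ℂ)‖ := by
    rw [(bl_hasDeriv haa hrn).deriv]
    have e : ((a:ℂ) + 2 * (r:ℂ) + a * (r:ℂ) ^ 2) / (1 + a * (r:ℂ)) ^ 2 =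
        (((a + 2 * r + a * r ^ 2) / (1 + a * r) ^ 2 : ℝ) : ℂ) := by push_cast; ring
    rw [e, Complex.norm_real, Real.norm_of_nonneg (by positivity), one_lt_div (by positivity)]
    nlinarith [mul_pos (by linarith : 0 < 1 - a) (by linarith : 0 < -1 + 2 * r + a * r ^ 2)]
  -- continuity near `z = r`
  set u : ℝ → ℝ := fun θ => ‖deriv (bl a) (circleMap 0 r θ)‖ with hu
  have hcm : ∀ θ : ℝ, circleMap 0 r θ ∈ closedBall (0:ℂ) r := fun θ =>
    circleMap_mem_closedBall 0 hr.le θ
  have huc : Continuous u :=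
    ((hB.dcont hr1').comp_continuous (continuous_circleMap 0 r) hcm).norm
  have hu0 : 1 < u 0 := by
    rw [hu]
    simpa [circleMap] using hval
  obtain ⟨b, hb1, hb2⟩ := exists_between hu0
  have hnear : ∀ᶠ θ in 𝓝 (0:ℝ), b < u θ := huc.continuousAt.eventually_const_lt hb2
  obtain ⟨δ, hδ, hδ'⟩ := Metric.eventually_nhds_iff.1 hnear
  set d : ℝ := min (δ / 2) (2 * π) with hd
  have hpi := Real.pi_pos
  have hd0 : 0 < d := lt_min (by linarith) (by linarith)
  have hd1 : d ≤ 2 * π := min_le_right _ _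
  have hb : ∀ θ ∈ Icc 0 d, b ≤ u θ := by
    intro θ hθ
    apply (hδ' _).le
    rw [Real.dist_eq, sub_zero, abs_of_nonneg hθ.1]
    have : d ≤ δ / 2 := min_le_left _ _
    linarith [hθ.2]
  -- choose the exponent
  obtain ⟨n, hn⟩ := ((tendsto_pow_atTop_atTop_of_one_lt hb1).eventually_gt_atTop (2 * π / d)).exists_forall_of_atTop
  have hn1 := hn (n + 1) (by omega)
  refine ⟨n + 1, Nat.succ_pos n, fun H => ?_⟩
  have h1 := H _ hB (fun _ => 1) (differentiableOn_const _)
  simp only [norm_one, Real.rpow_natCast, one_pow, one_mul] at h1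
  unfold A at h1
  rw [Real.circleAverage_const, Real.circleAverage_def, smul_eq_mul, inv_mul_le_iff₀ (by positivity),
    mul_one] at h1
  have hpc : Continuous fun θ => u θ ^ (n + 1) := huc.pow _
  have h2 : ∫ θ in (0:ℝ)..d, b ^ (n + 1) ≤ ∫ θ in (0:ℝ)..(2 * π), u θ ^ (n + 1) := by
    have h3 : ∫ θ in (0:ℝ)..d, b ^ (n + 1) ≤ ∫ θ in (0:ℝ)..d, u θ ^ (n + 1) := by
      apply intervalIntegral.integral_mono_on hd0.le (intervalIntegrable_const)
        (hpc.intervalIntegrable _ _)
      intro θ hθ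
      exact pow_le_pow_left₀ (by linarith) (hb θ hθ) _
    have h4 : ∫ θ in (0:ℝ)..d, u θ ^ (n + 1) ≤ ∫ θ in (0:ℝ)..(2 * π), u θ ^ (n + 1) := by
      rw [← intervalIntegral.integral_add_adjacent_intervals (hpc.intervalIntegrable 0 d)
        (hpc.intervalIntegrable d (2 * π))]
      have : 0 ≤ ∫ θ in d..(2 * π), u θ ^ (n + 1) := by
        apply intervalIntegral.integral_nonneg hd1
        intro θ _
        exact pow_nonneg (norm_nonneg _) _
      linarith
    exact h3.trans h4
  rw [intervalIntegral.integral_const, sub_zero, smul_eq_mul] at h2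
  have h5 : 2 * π < d * b ^ (n + 1) := by
    rw [div_lt_iff₀ hd0] at hn1
    linarith
  have h6 : ∫ θ in (0:ℝ)..(2 * π), u θ ^ (n + 1) ≤ 2 * π := by
    refine le_trans (le_of_eq ?_) h1
    rfl
  linarith

/-- coefficient comparison modulo `z^N` -/
lemma cf_congr_mod {f g R : ℂ → ℂ} (hg : AnalyticAt ℂ g 0)
    (hR : AnalyticAt ℂ R 0) (N n : ℕ) (hn : n < N)
    (h : ∀ᶠ z in 𝓝 (0:ℂ), f z = g z + z ^ N * R z) : cf f n = cf g n := by
  have hid : AnalyticAt ℂ (fun z : ℂ => z) 0 := analyticAt_id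
  have hprod : AnalyticAt ℂ ((fun z : ℂ => z) ^ N * R) 0 := (hid.pow N).mul hR
  have hord : (N : ℕ∞) ≤ analyticOrderAt ((fun z : ℂ => z) ^ N * R) 0 := by
    rw [analyticOrderAt_mul (hid.pow N) hR, analyticOrderAt_pow hid]
    have h1 : 1 ≤ analyticOrderAt (fun z : ℂ => z) 0 := by
      rw [Order.one_le_iff_ne_zero]
      exact (hid.analyticOrderAt_ne_zero).2 rfl
    calc (N : ℕ∞) = N • (1 : ℕ∞) := by simp
      _ ≤ N • analyticOrderAt (fun z : ℂ => z) 0 := nsmul_le_nsmul_right h1 N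
      _ ≤ _ := le_self_add
  have h2 := (natCast_le_analyticOrderAt_iff_iteratedDeriv_eq_zero hprod).1 hord n hn
  have h3 : f =ᶠ[𝓝 0] g + ((fun z : ℂ => z) ^ N * R) := by
    filter_upwards [h] with z hz
    simpa using hz
  have h4 : iteratedDeriv n f 0 = iteratedDeriv n (g + ((fun z : ℂ => z) ^ N * R)) 0 :=
    h3.iteratedDeriv_eq n
  rw [iteratedDeriv_add hg.contDiffAt hprod.contDiffAt, h2, add_zero] at h4
  unfold cf
  rw [h4]

/-- at `r = 1/2` the inequality fails for `p = 14` -/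
lemma not_Q_fourteen : ¬ Q 14 (1 / 2) := by
  intro H
  have ha : |(1/2:ℝ)| < 1 := by norm_num [abs_of_pos]
  have hB := bl_self ha
  have hr : (0:ℝ) < 1 / 2 := by norm_num
  have hr1 : (1/2:ℝ) < 1 := by norm_num
  have h1 := WP.transfer (q := 2) (by norm_num) two_pos hB hr hr1
    (rpow_cont (hB.dcont hr1).norm (by norm_num : (0:ℝ) < 14))
    (fun z => Real.rpow_nonneg (norm_nonneg _) _) zero_le_one (H _ hB)
  have h2 := h1 (fun w => 1 + w) ((differentiableOn_const _).add differentiableOn_id)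
  simp only [one_mul, Real.rpow_two] at h2
  set g : ℂ → ℂ := fun z => (1 + bl (1/2) z) * (deriv (bl (1/2)) z) ^ 7 with hg
  have hgd : DifferentiableOn ℂ g (ball 0 1) :=
    ((differentiableOn_const _).add hB.diff).mul ((hB.diff.deriv isOpen_ball).pow 7)
  have e1 : A (1/2) (fun z => ‖1 + bl (1/2) z‖ ^ 2 * ‖deriv (bl (1/2)) z‖ ^ (14:ℝ)) =
      A (1/2) (fun z => ‖g z‖ ^ 2) := by
    apply A_congr hr.le
    intro z _
    rw [hg]
    simp only
    rw [norm_mul, norm_pow, mul_pow, ← pow_mul]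
    congr 1
    rw [show (14:ℝ) = ((14:ℕ):ℝ) by norm_num, Real.rpow_natCast]
  rw [e1] at h2
  have e2 : A (1/2) (fun z => ‖1 + z‖ ^ 2) = 5 / 4 := by
    have h3 := A_add_sq hr (differentiableOn_id) (continuousOn_id) (by simp : id (0:ℂ) = 0) 1
    have h4 : A (1/2) (fun z => ‖id z‖ ^ 2) = 1 / 4 := by
      unfold A
      apply Real.circleAverage_const_on_circle
      intro z hz
      rw [id, sph_norm hr.le hz]
      norm_num
    rw [h4] at h3
    have h5 : A (1/2) (fun z => ‖1 + z‖ ^ 2) = A (1/2) (fun z => ‖id z + 1‖ ^ 2) := by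
      apply A_congr hr.le
      intro z _
      rw [id, add_comm]
    rw [h5, h3]
    norm_num
  rw [e2] at h2
  have hpars := parseval hgd hr.le hr1
  have h3 := sum_le_hasSum (Finset.range 7) (fun n _ => by positivity) hpars
  -- the coefficients
  set P : ℂ → ℂ := fun z => (1/128) + (43/256) * z + (369/256) * z^2 + (387/64) * z^3 +
    (5823/512) * z^4 + (2367/1024) * z^5 + (-7191/512) * z^6 with hP
  set R : ℂ → ℂ := fun z => ((272880) + (2377170)*z + (8514630)*z^2 + (17533404)*z^3 +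
    (24323481)*z^4 + (96678477/4)*z^5 + (17688321)*z^6 + (19386081/2)*z^7 + (64210509/16)*z^8 +
    (321395751/256)*z^9 + (75102111/256)*z^10 + (796887/16)*z^11 + (744723/128)*z^12 +
    (429093/1024)*z^13 + (7191/512)*z^14) / (2 + z)^15 with hR
  have hRa : AnalyticAt ℂ R 0 := by
    rw [hR]
    apply AnalyticAt.div
    · fun_prop
    · fun_prop
    · norm_num
  have hPa : AnalyticAt ℂ P 0 := by
    rw [hP]
    fun_prop
  have hmod : ∀ᶠ z in 𝓝 (0:ℂ), g z = P z + z ^ 7 * R z := by
    filter_upwards [ball_mem_nhds (0:ℂ) one_pos] with z hz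
    have hz1 : ‖z‖ < 1 := by simpa using hz
    rw [hg]
    simp only
    rw [(bl_hasDeriv ha hz1).deriv, bl, hP, hR]
    simp only
    have h0 := bl_den ha hz1
    have h0' : (2 + z) ≠ 0 := by
      intro h
      apply h0
      push_cast
      linear_combination h / 2
    have e3 : (1 + ((1/2:ℝ):ℂ) * z) = (2 + z) / 2 := by push_cast; ring
    rw [e3]
    push_cast
    field_simp
    ring
  have hcf : ∀ n < 7, cf g n = cf P n := fun n hn => cf_congr_mod hPa hRa 7 n hn hmod
  obtain ⟨Pp, hPp⟩ : ∃ Pp : Polynomial ℂ, Pp = (Polynomial.C (1/128 : ℂ) +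
      Polynomial.C (43/256) * Polynomial.X +
      Polynomial.C (369/256) * Polynomial.X^2 + Polynomial.C (387/64) * Polynomial.X^3 +
      Polynomial.C (5823/512) * Polynomial.X^4 + Polynomial.C (2367/1024) * Polynomial.X^5 +
      Polynomial.C (-7191/512) * Polynomial.X^6) := ⟨_, rfl⟩
  have hPoly : P = fun z => Pp.eval z := by
    funext z
    rw [hP, hPp]
    simp only [Polynomial.eval_add, Polynomial.eval_mul, Polynomial.eval_C, Polynomial.eval_X,
      Polynomial.eval_pow]
  have hc : ∀ n, cf P n = Pp.coeff n := fun n => by rw [hPoly]; exact cf_poly _ n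
  have hco : ∀ n, Pp.coeff n = (if n = 0 then (1/128 : ℂ) else 0) + (43/256) * (if n = 1 then 1 else 0)
      + (369/256) * (if n = 2 then 1 else 0) + (387/64) * (if n = 3 then 1 else 0)
      + (5823/512) * (if n = 4 then 1 else 0) + (2367/1024) * (if n = 5 then 1 else 0)
      + (-7191/512) * (if n = 6 then 1 else 0) := by
    intro n
    rw [hPp]
    simp only [Polynomial.coeff_add, Polynomial.coeff_C_mul, Polynomial.coeff_X_pow,
      Polynomial.coeff_C, Polynomial.coeff_X]
    simp only [eq_comm]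
  have hsum : ∑ n ∈ Finset.range 7, ‖cf g n‖ ^ 2 * (1/2:ℝ) ^ (2 * n) = 680176081/536870912 := by
    have k0 : cf g 0 = 1/128 := by
      rw [hcf 0 (by norm_num), hc, hco]
      norm_num
    have k1 : cf g 1 = 43/256 := by
      rw [hcf 1 (by norm_num), hc, hco]
      norm_num
    have k2 : cf g 2 = 369/256 := by
      rw [hcf 2 (by norm_num), hc, hco]
      norm_num
    have k3 : cf g 3 = 387/64 := by
      rw [hcf 3 (by norm_num), hc, hco]
      norm_num
    have k4 : cf g 4 = 5823/512 := by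
      rw [hcf 4 (by norm_num), hc, hco]
      norm_num
    have k5 : cf g 5 = 2367/1024 := by
      rw [hcf 5 (by norm_num), hc, hco]
      norm_num
    have k6 : cf g 6 = -7191/512 := by
      rw [hcf 6 (by norm_num), hc, hco]
      norm_num
    simp only [Finset.sum_range_succ, Finset.sum_range_zero, k0, k1, k2, k3, k4, k5, k6]
    norm_num
  rw [hsum] at h3
  norm_num at h3 h2
  linarith

end H790R2.Rp
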