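import Pool.Agent.H790R2.RpE

set_option autoImplicit false

namespace H790R2.Rp

open Complex Metric Set Filter Topology
open scoped Real

/-- The `p`-th integral mean `M_p(r,h)` of `h` over the circle `|z| = r`. -/
noncomputable def Mp (p r : ℝ) (h : ℂ → ℂ) : ℝ :=
  (∫ t in (0:ℝ)..(2 * π), ‖h (r * Complex.exp (t * Complex.I))‖ ^ p / (2 * π)) ^ (1 / p)

/-- Subordination `g ≺ f` on the open unit disc. -/
def Subord (g f : ℂ → ℂ) : Prop :=
  ∃ φ : ℂ → ℂ, DifferentiableOn ℂ φ (ball 0 1) ∧ MapsTo φ (ball 0 1) (ball 0 1) ∧ φ 0 = 0 ∧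
    ∀ z ∈ ball (0:ℂ) 1, g z = f (φ z)

/-- The derivative inequality on the single circle `|z| = r`, for all subordinate pairs. -/
def HoldsAt (p r : ℝ) : Prop :=
  ∀ f g : ℂ → ℂ, DifferentiableOn ℂ f (ball 0 1) → DifferentiableOn ℂ g (ball 0 1) →
    Subord g f → Mp p r (deriv g) ≤ Mp p r (deriv f)

/-- The number `r_p` of the problem. -/
noncomputable def rp (p : ℝ) : ℝ :=
  sSup {ρ : ℝ | 0 < ρ ∧ ρ ≤ 1 ∧ ∀ r : ℝ, 0 < r → r < ρ → HoldsAt p r}

lemma Mp_eq (p r : ℝ) (h : ℂ → ℂ) : Mp p r h = (A r (fun z => ‖h z‖ ^ p)) ^ (1 / p) := by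
  unfold Mp A
  congr 1
  rw [Real.circleAverage_def, smul_eq_mul, intervalIntegral.integral_div, div_eq_inv_mul]
  simp [circleMap]

lemma A_pow_nonneg (p r : ℝ) (h : ℂ → ℂ) : 0 ≤ A r (fun z => ‖h z‖ ^ p) := by
  apply Real.circleAverage_nonneg_of_nonneg
  intro z _
  exact Real.rpow_nonneg (norm_nonneg _) _

lemma Mp_le_iff {p : ℝ} (hp : 0 < p) (r : ℝ) (g f : ℂ → ℂ) :
    Mp p r g ≤ Mp p r f ↔ A r (fun z => ‖g z‖ ^ p) ≤ A r (fun z => ‖f z‖ ^ p) := by
  rw [Mp_eq, Mp_eq]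
  exact Real.rpow_le_rpow_iff (A_pow_nonneg _ _ _) (A_pow_nonneg _ _ _) (by positivity)

lemma holds_iff {p r : ℝ} (hp : 0 < p) (hr : 0 < r) (hr1 : r < 1) : HoldsAt p r ↔ Q p r := by
  have hmem : ∀ z : ℂ, ‖z‖ = r → z ∈ ball (0:ℂ) 1 := by
    intro z hz
    rw [mem_ball_zero_iff, hz]
    exact hr1
  have key : ∀ f g φ : ℂ → ℂ, DifferentiableOn ℂ f (ball 0 1) → SelfMap φ →
      (∀ z ∈ ball (0:ℂ) 1, g z = f (φ z)) → ∀ z ∈ ball (0:ℂ) 1,
      deriv g z = deriv f (φ z) * deriv φ z := by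
    intro f g φ hf hφ hg z hz
    have h1 : g =ᶠ[𝓝 z] fun z => f (φ z) := by
      filter_upwards [isOpen_ball.mem_nhds hz] with w hw
      exact hg w hw
    rw [h1.deriv_eq]
    have h2 : DifferentiableAt ℂ f (φ z) := hf.differentiableAt (isOpen_ball.mem_nhds (hφ.maps hz))
    have h3 : DifferentiableAt ℂ φ z := hφ.diff.differentiableAt (isOpen_ball.mem_nhds hz)
    exact (h2.hasDerivAt.comp z h3.hasDerivAt).deriv
  constructor
  · intro H φ hφ F hF
    obtain ⟨f, hf⟩ := hF.isExactOn_ball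
    have hfd : DifferentiableOn ℂ f (ball 0 1) := fun z hz =>
      (hf z hz).differentiableAt.differentiableWithinAt
    have h1 := H f (fun z => f (φ z)) hfd (hfd.comp hφ.diff hφ.maps)
      ⟨φ, hφ.diff, hφ.maps, hφ.zero, fun z _ => rfl⟩
    rw [Mp_le_iff hp] at h1
    rw [one_mul]
    have e1 : A r (fun z => ‖deriv (fun z => f (φ z)) z‖ ^ p) =
        A r (fun z => ‖F (φ z)‖ ^ p * ‖deriv φ z‖ ^ p) := by
      apply A_congr hr.le
      intro z hz
      rw [key f _ φ hfd hφ (fun _ _ => rfl) z (hmem z hz), norm_mul,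
        Real.mul_rpow (norm_nonneg _) (norm_nonneg _), (hf _ (hφ.maps (hmem z hz))).deriv]
    have e2 : A r (fun z => ‖deriv f z‖ ^ p) = A r (fun z => ‖F z‖ ^ p) := by
      apply A_congr hr.le
      intro z hz
      rw [(hf z (hmem z hz)).deriv]
    rw [e1, e2] at h1
    exact h1
  · intro H f g hf _ ⟨φ, h1, h2, h3, h4⟩
    have hφ : SelfMap φ := ⟨h1, h2, h3⟩
    rw [Mp_le_iff hp]
    have h5 := H φ hφ (deriv f) (hf.deriv isOpen_ball)
    rw [one_mul] at h5
    refine le_trans (le_of_eq ?_) h5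
    apply A_congr hr.le
    intro z hz
    rw [key f g φ hf hφ h4 z (hmem z hz), norm_mul,
      Real.mul_rpow (norm_nonneg _) (norm_nonneg _)]

section
variable {p : ℝ}

lemma Q_le_half {r : ℝ} (hp : 0 < p) (hr1 : r < 1) (H : Q p r) : r ≤ 1 / 2 := by
  by_contra h
  exact not_Q_of_gt hp (not_le.1 h) hr1 H

/-- the defining set of `rp` -/
def S (p : ℝ) : Set ℝ := {ρ : ℝ | 0 < ρ ∧ ρ ≤ 1 ∧ ∀ r : ℝ, 0 < r → r < ρ → HoldsAt p r}

lemma S_bdd (p : ℝ) : BddAbove (S p) := ⟨1, fun _ h => h.2.1⟩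

lemma S_le_half (hp : 0 < p) {ρ : ℝ} (h : ρ ∈ S p) : ρ ≤ 1 / 2 := by
  by_contra hc
  obtain ⟨r, h1, h2⟩ := exists_between (not_le.1 hc)
  have hr0 : 0 < r := by linarith
  have hr1 : r < 1 := lt_of_lt_of_le h2 h.2.1
  have := Q_le_half hp hr1 ((holds_iff hp hr0 hr1).1 (h.2.2 r hr0 h2))
  linarith

lemma Q_of_le_sqrt (hp : 0 < p) {r : ℝ} (hr : 0 < r) (h : r ^ 2 + 2 * r - 1 ≤ 0) : Q p r := by
  have hr2 : r ≤ 1 / 2 := by nlinarith
  have hr1 : r < 1 := by linarith
  have h0 : Q (max p 2) r := by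
    refine Q.raise (p := 2) (r₀ := 1 / 2) two_pos (le_max_right _ _) hr hr2 (by norm_num) ?_ ?_
    · intro φ hφ
      have := goluzin hφ (by norm_num : (0:ℝ) < 1 / 2) le_rfl
      simpa only [Real.rpow_two] using this
    · rw [max_eq_right h, zero_div, mul_zero]
      apply mul_nonneg zero_le_two
      exact div_nonneg (by linarith) (by linarith)
  exact Q.lower hp (le_max_left _ _) hr hr1 h0

lemma Q_two {r : ℝ} (hr : 0 < r) (hr2 : r ≤ 1 / 2) : Q 2 r := by
  intro φ hφ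
  have := goluzin hφ hr hr2
  simpa only [Real.rpow_two] using this

lemma mem_S_of_Q (hp : 0 < p) {r : ℝ} (hr : 0 < r) (hr1 : r < 1) (H : Q p r) : r ∈ S p := by
  refine ⟨hr, hr1.le, fun s hs hsr => ?_⟩
  rw [holds_iff hp hs (hsr.trans hr1)]
  exact H.radius hp hs hsr.le hr1

lemma S_nonempty (hp : 0 < p) : (S p).Nonempty :=
  ⟨1 / 4, mem_S_of_Q hp (by norm_num) (by norm_num) (Q_of_le_sqrt hp (by norm_num) (by norm_num))⟩

lemma rp_le_half (hp : 0 < p) : rp p ≤ 1 / 2 := csSup_le (S_nonempty hp) fun _ h => S_le_half hp h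

lemma rp_pos (hp : 0 < p) : 0 < rp p := by
  obtain ⟨ρ, hρ⟩ := S_nonempty hp
  exact lt_of_lt_of_le hρ.1 (le_csSup (S_bdd p) hρ)

/-- closedness: if the inequality holds at all smaller radii, it holds at the limit radius -/
lemma Q_closed {r : ℝ} (hp : 0 < p) (hr : 0 < r) (hr1 : r < 1)
    (H : ∀ s, 0 < s → s < r → Q p s) : Q p r := by
  intro φ hφ F hF
  have hcont : ∀ u : ℂ → ℝ, ContinuousOn u (ball 0 1) →
      Tendsto (fun s => A s u) (𝓝[<] r) (𝓝 (A r u)) := by
    intro u hu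
    have h1 : ContinuousOn (Real.circleAverage u 0) (Ico 0 1) := by
      apply Real.ContinuousOn.circleAverage (s := Ico (0:ℝ) 1)
      · apply hu.mono
        intro z hz
        have hz2 : ‖z - 0‖ ∈ Ico (0:ℝ) 1 := hz
        rw [sub_zero] at hz2
        rw [mem_ball_zero_iff]
        exact hz2.2
      · intro s hs
        exact hs.1
    have h2 := h1 r ⟨hr.le, hr1⟩
    apply h2.tendsto.mono_left
    rw [nhdsWithin_le_iff]
    filter_upwards [Ioo_mem_nhdsLT hr] with s hs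
    exact ⟨hs.1.le, hs.2.trans hr1⟩
  have hFφ : ContinuousOn (fun z => ‖F (φ z)‖ ^ p * ‖deriv φ z‖ ^ p) (ball 0 1) := by
    apply ContinuousOn.mul
    · exact rpow_cont (hF.continuousOn.comp hφ.diff.continuousOn hφ.maps).norm hp
    · exact rpow_cont (hφ.diff.deriv isOpen_ball).continuousOn.norm hp
  have hFc : ContinuousOn (fun z => ‖F z‖ ^ p) (ball 0 1) := rpow_cont hF.continuousOn.norm hp
  rw [one_mul]
  refine le_of_tendsto_of_tendsto (hcont _ hFφ) (hcont _ hFc) ?_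
  filter_upwards [Ioo_mem_nhdsLT hr] with s hs
  have := H s hs.1 hs.2 φ hφ F hF
  rwa [one_mul] at this

/-- the inequality holds on the circle `|z| = r` exactly when `r ≤ r_p` -/
lemma Q_iff (hp : 0 < p) {r : ℝ} (hr : 0 < r) (hr1 : r < 1) : Q p r ↔ r ≤ rp p := by
  constructor
  · intro H
    exact le_csSup (S_bdd p) (mem_S_of_Q hp hr hr1 H)
  · intro h
    have hlt : ∀ s, 0 < s → s < rp p → Q p s := by
      intro s hs hs2
      obtain ⟨ρ, hρ, hsρ⟩ := exists_lt_of_lt_csSup (S_nonempty hp) hs2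
      have hs1 : s < 1 := lt_of_lt_of_le hsρ hρ.2.1
      exact (holds_iff hp hs hs1).1 (hρ.2.2 s hs hsρ)
    have hR : Q p (rp p) := Q_closed hp (rp_pos hp) (by linarith [rp_le_half hp]) hlt
    exact hR.radius hp hr h (by linarith [rp_le_half hp])

lemma Q_rp (hp : 0 < p) : Q p (rp p) :=
  (Q_iff hp (rp_pos hp) (by linarith [rp_le_half hp])).2 le_rfl

lemma rp_eq_half (hp : 0 < p) (hp2 : p ≤ 2) : rp p = 1 / 2 := by
  apply le_antisymm (rp_le_half hp)
  rw [← Q_iff hp (by norm_num) (by norm_num)]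
  exact (Q_two (by norm_num) le_rfl).lower hp hp2 (by norm_num) (by norm_num)

lemma rp_antitone {q : ℝ} (hp : 0 < p) (hpq : p ≤ q) : rp q ≤ rp p := by
  have hq : 0 < q := lt_of_lt_of_le hp hpq
  rw [← Q_iff hp (rp_pos hq) (by linarith [rp_le_half hq])]
  exact (Q_rp hq).lower hp hpq (rp_pos hq) (by linarith [rp_le_half hq])

/-- Lipschitz type estimate -/
lemma rp_lip {q : ℝ} (hp : 0 < p) (hpq : p ≤ q) : rp p ≤ rp q + (q - p) / p := by
  have hq : 0 < q := lt_of_lt_of_le hp hpq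
  by_contra hc
  push Not at hc
  set R := rp p with hR
  have hR2 : R ≤ 1 / 2 := rp_le_half hp
  set r := R - (q - p) / p with hr
  have hd : 0 ≤ (q - p) / p := div_nonneg (by linarith) hp.le
  have hr0 : 0 < r := by
    have := rp_pos hq
    linarith
  have hrR : r ≤ R := by linarith
  have hQ : Q q r := by
    refine Q.raise hp hpq hr0 hrR (by linarith) (Q_rp hp) ?_
    have h1 : max (r ^ 2 + 2 * r - 1) 0 / (1 - r) ^ 2 ≤ 1 := by
      rw [div_le_one (by nlinarith)]
      apply max_le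
      · nlinarith
      · nlinarith
    have h2 : p * (R - r) ≤ p * ((R - r) / (R + r)) := by
      apply mul_le_mul_of_nonneg_left _ hp.le
      rw [le_div_iff₀ (by linarith)]
      nlinarith
    have h3 : p * (R - r) = q - p := by
      rw [hr]
      field_simp
      ring
    have h4 : (q - p) * (max (r ^ 2 + 2 * r - 1) 0 / (1 - r) ^ 2) ≤ (q - p) * 1 :=
      mul_le_mul_of_nonneg_left h1 (by linarith)
    linarith
  rw [Q_iff hq hr0 (by linarith)] at hQ
  linarith

lemma rp_continuous : ContinuousOn rp (Ioi 0) := by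
  intro p hp
  have hp' : 0 < p := hp
  apply ContinuousAt.continuousWithinAt
  have hpos : ∀ᶠ q in 𝓝 p, 0 < q := lt_mem_nhds hp'
  rw [ContinuousAt]
  have hb : ∀ q, 0 < q → |rp q - rp p| ≤ |q - p| / min p q := by
    intro q hq
    rcases le_total p q with h | h
    · have h1 := rp_antitone hp' h
      have h2 := rp_lip hp' h
      rw [min_eq_left h, abs_of_nonneg (sub_nonneg.2 h), abs_le]
      constructor <;> linarith
    · have h1 := rp_antitone hq h
      have h2 := rp_lip hq h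
      rw [min_eq_right h, abs_of_nonpos (sub_nonpos.2 h), abs_le, neg_sub]
      constructor
      · have : 0 ≤ (p - q) / q := div_nonneg (by linarith) hq.le
        linarith
      · linarith
  have hlim : Tendsto (fun q => |q - p| / min p q) (𝓝 p) (𝓝 0) := by
    have h1 : ContinuousAt (fun q => |q - p| / min p q) p := by
      apply ContinuousAt.div
      · fun_prop
      · fun_prop
      · rw [min_self]
        exact hp'.ne'
    have h2 := h1.tendsto
    simpa using h2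
  rw [tendsto_iff_dist_tendsto_zero]
  refine squeeze_zero' (Eventually.of_forall fun q => dist_nonneg) ?_ hlim
  filter_upwards [hpos] with q hq
  rw [Real.dist_eq]
  exact hb q hq

/-- explicit lower bound for `p > 2` -/
lemma rp_lower_explicit {r : ℝ} (hp : 2 ≤ p) (hr : 0 < r) (hr2 : r ≤ 1 / 2)
    (h : (p - 2) * (r ^ 2 + 2 * r - 1) * (1 + 2 * r) ≤ 2 * (1 - 2 * r) * (1 - r) ^ 2) :
    r ≤ rp p := by
  have hp0 : 0 < p := by linarith
  rw [← Q_iff hp0 hr (by linarith)]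
  refine Q.raise (p := 2) (r₀ := 1 / 2) two_pos hp hr hr2 (by norm_num)
    (Q_two (by norm_num) le_rfl) ?_
  rcases le_total (r ^ 2 + 2 * r - 1) 0 with h0 | h0
  · rw [max_eq_right h0, zero_div, mul_zero]
    apply mul_nonneg zero_le_two
    exact div_nonneg (by linarith) (by linarith)
  · rw [max_eq_left h0]
    have e : 2 * ((1 / 2 - r) / (1 / 2 + r)) = 2 * (1 - 2 * r) / (1 + 2 * r) := by
      field_simp
    rw [e, mul_div_assoc', div_le_div_iff₀ (by nlinarith) (by linarith)]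
    exact h

/-- quantitative strict lower bound -/
lemma rp_lower (hp : 0 < p) : Real.sqrt 2 - 1 + 1 / (100 * max p 2) ≤ rp p := by
  have hs2 : Real.sqrt 2 ^ 2 = 2 := Real.sq_sqrt (by norm_num)
  have hs0 : 0 ≤ Real.sqrt 2 := Real.sqrt_nonneg 2
  have hs1 : Real.sqrt 2 < 1.415 := by
    rw [Real.sqrt_lt' (by norm_num)]
    norm_num
  have hs3 : 1.414 < Real.sqrt 2 := by
    rw [Real.lt_sqrt (by norm_num)]
    norm_num
  have hmax : 2 ≤ max p 2 := le_max_right _ _
  have key : Real.sqrt 2 - 1 + 1 / (100 * max p 2) ≤ rp (max p 2) := by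
    set q := max p 2 with hq
    set e : ℝ := 1 / (100 * q) with he
    have he0 : 0 < e := by positivity
    have hqe : q * e = 1 / 100 := by
      rw [he]
      field_simp
    have he1 : e ≤ 1 / 200 := by nlinarith
    apply rp_lower_explicit hmax (by linarith) (by linarith)
    have h1 : (Real.sqrt 2 - 1 + e) ^ 2 + 2 * (Real.sqrt 2 - 1 + e) - 1 =
        e * (e + 2 * Real.sqrt 2) := by nlinarith
    rw [h1]
    set r := Real.sqrt 2 - 1 + e with hr
    have hr1 : r ≤ 0.42 := by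
      rw [hr]
      linarith
    have h2 : (q - 2) * (e * (e + 2 * Real.sqrt 2)) * (1 + 2 * r) ≤ 0.053 := by
      have h3 : (q - 2) * e ≤ 1 / 100 := by nlinarith
      have h4 : e + 2 * Real.sqrt 2 ≤ 2.836 := by linarith
      have h5 : (q - 2) * (e * (e + 2 * Real.sqrt 2)) ≤ 1 / 100 * 2.836 := by
        have : (q - 2) * (e * (e + 2 * Real.sqrt 2)) = ((q - 2) * e) * (e + 2 * Real.sqrt 2) := by ring
        rw [this]
        exact mul_le_mul h3 h4 (by linarith) (by norm_num)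
      have h6 : (q - 2) * (e * (e + 2 * Real.sqrt 2)) * (1 + 2 * r) ≤ (1 / 100 * 2.836) * 1.84 :=
        mul_le_mul h5 (by linarith) (by linarith) (by norm_num)
      linarith
    have h7 : (0.106 : ℝ) ≤ 2 * (1 - 2 * r) * (1 - r) ^ 2 := by
      have h8 : (0.16 : ℝ) ≤ 1 - 2 * r := by linarith
      have h9 : (0.58 : ℝ) ^ 2 ≤ (1 - r) ^ 2 := pow_le_pow_left₀ (by norm_num) (by linarith) 2
      have h10 := mul_le_mul h8 h9 (by norm_num) (by linarith)
      linarith
    linarith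
  exact key.trans (rp_antitone hp (le_max_left _ _))

lemma rp_gt (hp : 0 < p) : Real.sqrt 2 - 1 < rp p := by
  have h1 := rp_lower hp
  have h2 : 0 < 1 / (100 * max p 2) := by
    have : 0 < max p 2 := lt_of_lt_of_le two_pos (le_max_right _ _)
    positivity
  linarith

lemma rp_tendsto : Tendsto rp atTop (𝓝 (Real.sqrt 2 - 1)) := by
  rw [tendsto_order]
  constructor
  · intro a ha
    filter_upwards [eventually_gt_atTop 0] with p hp
    exact ha.trans (rp_gt hp)
  · intro b hb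
    have hs2 : Real.sqrt 2 ^ 2 = 2 := Real.sq_sqrt (by norm_num)
    have hs0 : 0 ≤ Real.sqrt 2 := Real.sqrt_nonneg 2
    have hs1 : Real.sqrt 2 < 1.415 := by
      rw [Real.sqrt_lt' (by norm_num)]
      norm_num
    have hs3 : 1.414 < Real.sqrt 2 := by
      rw [Real.lt_sqrt (by norm_num)]
      norm_num
    obtain ⟨r, hr1, hr2⟩ := exists_between (lt_min hb (show Real.sqrt 2 - 1 < 1 / 2 by linarith))
    have hr0 : 0 < r := by linarith
    have hr3 : r < b := lt_of_lt_of_le hr2 (min_le_left _ _)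
    have hr4 : r < 1 / 2 := lt_of_lt_of_le hr2 (min_le_right _ _)
    obtain ⟨n, hn, hQ⟩ := exists_not_Q hr0 hr4.le (by nlinarith)
    have hn' : (0:ℝ) < n := by exact_mod_cast hn
    filter_upwards [eventually_ge_atTop (n:ℝ)] with p hp
    have h1 := rp_antitone hn' hp
    have h2 : rp n < r := by
      by_contra hc
      exact hQ ((Q_iff hn' hr0 (by linarith)).2 (not_lt.1 hc))
    linarith

lemma rp_lt_half (hp : 14 ≤ p) : rp p < 1 / 2 := by
  have h1 := rp_antitone (show (0:ℝ) < 14 by norm_num) hp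
  have h2 : rp 14 < 1 / 2 := by
    by_contra hc
    exact not_Q_fourteen ((Q_iff (by norm_num) (by norm_num) (by norm_num)).2 (not_lt.1 hc))
  linarith

end

/-- closed form lower bound for `p ≥ 2` -/
theorem rp_lower_closed {p : ℝ} (hp : 2 ≤ p) :
    Real.sqrt 2 - 1 + (3 - 2 * Real.sqrt 2) ^ 2 / (2 * (p + 1 - 2 * Real.sqrt 2)) ≤ rp p := by
  have hs2 : Real.sqrt 2 ^ 2 = 2 := Real.sq_sqrt (by norm_num)
  have hs0 : 0 ≤ Real.sqrt 2 := Real.sqrt_nonneg 2
  have hs1 : Real.sqrt 2 < 1.415 := by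
    rw [Real.sqrt_lt' (by norm_num)]
    norm_num
  have hs3 : 1.414 < Real.sqrt 2 := by
    rw [Real.lt_sqrt (by norm_num)]
    norm_num
  set s := Real.sqrt 2 with hs
  have hm : 0 < 3 - 2 * s := by linarith
  have hd : 0 < p + 1 - 2 * s := by linarith
  set e : ℝ := (3 - 2 * s) ^ 2 / (2 * (p + 1 - 2 * s)) with he
  have he0 : 0 ≤ e := by positivity
  have hee : e * (2 * (p + 1 - 2 * s)) = (3 - 2 * s) ^ 2 := by
    rw [he]
    field_simp
  -- `D - e` with `D = 3/2 - s`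
  have hDe : (3 / 2 - s - e) * (p + 1 - 2 * s) = (3 / 2 - s) * (p - 2) := by
    nlinarith
  have hDe0 : 0 ≤ 3 / 2 - s - e := by
    by_contra hc
    have h1 : (3 / 2 - s - e) * (p + 1 - 2 * s) < 0 := mul_neg_of_neg_of_pos (not_le.1 hc) hd
    have h2 : 0 ≤ (3 / 2 - s) * (p - 2) := mul_nonneg (by linarith) (by linarith)
    linarith
  have hkey : (p - 2) * e = (3 - 2 * s) * (3 / 2 - s - e) := by
    have h1 : ((p - 2) * e - (3 - 2 * s) * (3 / 2 - s - e)) * (p + 1 - 2 * s) = 0 := by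
      nlinarith
    have h2 := (mul_eq_zero.1 h1).resolve_right hd.ne'
    linarith
  apply rp_lower_explicit hp (by linarith) (by linarith)
  have h1 : (s - 1 + e) ^ 2 + 2 * (s - 1 + e) - 1 = e * (e + 2 * s) := by nlinarith
  rw [h1]
  have h2 : (p - 2) * (e * (e + 2 * s)) * (1 + 2 * (s - 1 + e)) =
      (3 / 2 - s - e) * ((3 - 2 * s) * (e + 2 * s) * (1 + 2 * (s - 1 + e))) := by
    have : (p - 2) * (e * (e + 2 * s)) = ((p - 2) * e) * (e + 2 * s) := by ring
    rw [this, hkey]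
    ring
  have h3 : 2 * (1 - 2 * (s - 1 + e)) * (1 - (s - 1 + e)) ^ 2 =
      (3 / 2 - s - e) * (4 * (2 - s - e) ^ 2) := by ring
  rw [h2, h3]
  apply mul_le_mul_of_nonneg_left _ hDe0
  have h4 : (3 - 2 * s) * (e + 2 * s) * (1 + 2 * (s - 1 + e)) ≤ 1 := by
    have h5 : (e + 2 * s) ≤ 3 / 2 + s := by linarith
    have h6 : 1 + 2 * (s - 1 + e) ≤ 2 := by linarith
    calc (3 - 2 * s) * (e + 2 * s) * (1 + 2 * (s - 1 + e))
        ≤ (3 - 2 * s) * (3 / 2 + s) * 2 := by
          apply mul_le_mul _ h6 (by linarith) (by nlinarith)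
          exact mul_le_mul_of_nonneg_left h5 hm.le
      _ = 9 - 4 * s ^ 2 := by ring
      _ = 1 := by rw [hs2]; norm_num
  have h7 : (1:ℝ) ≤ 4 * (2 - s - e) ^ 2 := by
    have : (1/2:ℝ) ≤ 2 - s - e := by linarith
    nlinarith
  linarith

theorem holds_iff_le {p r : ℝ} (hp : 0 < p) (hr : 0 < r) (hr1 : r < 1) :
    HoldsAt p r ↔ r ≤ rp p := by
  rw [holds_iff hp hr hr1, Q_iff hp hr hr1]

theorem rp_tendsto_gt : Tendsto rp atTop (𝓝[>] (Real.sqrt 2 - 1)) := by
  rw [tendsto_nhdsWithin_iff]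
  refine ⟨rp_tendsto, ?_⟩
  filter_upwards [eventually_gt_atTop 0] with p hp
  exact rp_gt hp

end H790R2.Rp
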