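import Mathlib

set_option autoImplicit false

open Set Filter Topology Complex Metric

namespace Pool.Agent.H790R2.Tip

/-- The slit `γ` lies in the closed sector with vertex at its tip `γ 0`, whose directions make with
the radial direction `γ 0` an (oriented) angle between `a` and `b`. -/
def InCone (a b : ℝ) (γ : ℝ → ℂ) : Prop :=
  ∀ ω ∈ γ '' Ici 0, ω ≠ γ 0 → ∃ θ ∈ Icc a b, (ω - γ 0) / γ 0 = ‖(ω - γ 0) / γ 0‖ * exp (θ * I)

end Pool.Agent.H790R2.Tip
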