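import Mathlib

set_option autoImplicit false

open Set Filter Topology Complex Metric

namespace Pool.Agent.H790R2.Tip

/-- The class `S`: analytic and univalent in the unit disc, `f 0 = 0`, `f' 0 = 1`. -/
structure ClassS (f : ℂ → ℂ) : Prop where
  diff : DifferentiableOn ℂ f (ball 0 1)
  inj : InjOn f (ball 0 1)
  map_zero : f 0 = 0
  deriv_zero : deriv f 0 = 1

/-- On the parameter interval `J` the curve `γ` is a regular analytic arc: it coincides on `J` with
a function that is real analytic with non-zero derivative at every point of `J`. -/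
def IsAnalyticArcOn (γ : ℝ → ℂ) (J : Set ℝ) : Prop :=
  ∃ σ : ℝ → ℂ, EqOn γ σ J ∧ ∀ t ∈ J, AnalyticAt ℝ σ t ∧ deriv σ t ≠ 0

/-- `γ : [0, ∞) → ℂ` parametrises a Jordan arc from the finite point `γ 0` to `∞`, made up of
finitely many analytic arcs. -/
structure IsSlitArc (γ : ℝ → ℂ) : Prop where
  cont : ContinuousOn γ (Ici 0)
  inj : InjOn γ (Ici 0)
  tends : Tendsto γ atTop (cocompact ℂ)
  pieces : ∃ (m : ℕ) (t : ℕ → ℝ), t 0 = 0 ∧ (∀ i < m, t i < t (i + 1)) ∧
    (∀ i < m, IsAnalyticArcOn γ (Icc (t i) (t (i + 1)))) ∧ IsAnalyticArcOn γ (Ici (t m))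

/-- `f` is a function of class `S` whose omitted set is the slit parametrised by `γ`. -/
structure IsSlitMap (f : ℂ → ℂ) (γ : ℝ → ℂ) : Prop where
  mem : ClassS f
  arc : IsSlitArc γ
  compl : (f '' ball 0 1)ᶜ = γ '' Ici 0

/-- The continuous extension of `f` to the closed disc, with values in the Riemann sphere, has
`-1` as its only preimage of `∞` and `exp (i φ)` as its only preimage of `ω`. -/
def HasTipAt (f : ℂ → ℂ) (ω : ℂ) (φ : ℝ) : Prop :=
  ∃ F : ℂ → OnePoint ℂ, ContinuousOn F (closedBall 0 1) ∧ (∀ z ∈ ball (0 : ℂ) 1, F z = (f z : ℂ)) ∧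
    (∀ z ∈ sphere (0 : ℂ) 1, F z = OnePoint.infty ↔ z = -1) ∧
    (∀ z ∈ sphere (0 : ℂ) 1, F z = (ω : OnePoint ℂ) ↔ z = exp (φ * I))

end Pool.Agent.H790R2.Tip
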