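import Mathlib
import Pool.Agent.H790R2.TipDefs

set_option autoImplicit false

open Set Filter Topology Complex Metric

namespace Pool.Agent.H790R2.Tip

/-- `e = exp (i ψ)` -/
noncomputable def ee (ψ : ℝ) : ℂ := exp (ψ * I)

lemma ee_norm (ψ : ℝ) : ‖ee ψ‖ = 1 := norm_exp_ofReal_mul_I ψ

lemma ee_conj (ψ : ℝ) : (starRingEnd ℂ) (ee ψ) = ee (-ψ) := by
  unfold ee
  rw [← exp_conj, map_mul, conj_ofReal, conj_I]
  push_cast
  congr 1
  ring

lemma ee_mul (ψ : ℝ) : ee ψ * ee (-ψ) = 1 := by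
  unfold ee
  rw [← exp_add]
  push_cast
  rw [show (ψ:ℂ) * I + -(ψ:ℂ) * I = 0 by ring, exp_zero]

lemma ee_ne (ψ : ℝ) : ee ψ ≠ 0 := exp_ne_zero _

lemma ee_add (ψ : ℝ) : ee ψ + ee (-ψ) = 2 * Real.cos ψ := by
  unfold ee
  push_cast
  rw [Complex.cos]
  ring_nf

lemma ee_sq (ψ : ℝ) : ee ψ ^ 2 = exp ((2 * ψ : ℝ) * I) := by
  unfold ee
  rw [← exp_nat_mul]
  congr 1
  push_cast
  ring

/-- The Moebius map onto the right half plane. -/
noncomputable def uu (ψ : ℝ) (z : ℂ) : ℂ := (ee ψ - ee (-ψ) * z) / (1 + z)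

/-- the slit map -/
noncomputable def hl (ψ : ℝ) (z : ℂ) : ℂ := (ee ψ ^ 2 - uu ψ z ^ 2) * ee (-ψ) / (4 * Real.cos ψ)

/-- the slit -/
noncomputable def γhl (ψ t : ℝ) : ℂ := ee ψ / (4 * Real.cos ψ) + t * ee (-ψ)

lemma one_add_ne {z : ℂ} (hz : z ∈ ball (0:ℂ) 1) : 1 + z ≠ 0 := by
  intro h
  have h1 : z = -1 := by linear_combination h
  rw [h1] at hz
  simp at hz

lemma uu_re {ψ : ℝ} {z : ℂ} (hz : 1 + z ≠ 0) :
    (uu ψ z).re = Real.cos ψ * (1 - ‖z‖ ^ 2) / ‖1 + z‖ ^ 2 := by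
  have h1 : 0 < ‖1 + z‖ ^ 2 := by have := norm_pos_iff.2 hz; positivity
  rw [eq_div_iff h1.ne']
  have h2 : (uu ψ z) * ((‖1 + z‖ ^ 2 : ℝ) : ℂ) = (ee ψ - ee (-ψ) * z) * (starRingEnd ℂ) (1 + z) := by
    have : ((‖1 + z‖ ^ 2 : ℝ) : ℂ) = (1 + z) * (starRingEnd ℂ) (1 + z) := by
      rw [Complex.mul_conj, Complex.normSq_eq_norm_sq]
    rw [this]
    unfold uu
    field_simp
  have h3 := congrArg re h2
  rw [Complex.re_mul_ofReal] at h3
  rw [h3]
  have h4 : (ee (-ψ)).re = Real.cos ψ := by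
    unfold ee; rw [exp_ofReal_mul_I_re, Real.cos_neg]
  have h5 : (ee (-ψ)).im = -Real.sin ψ := by
    unfold ee; rw [exp_ofReal_mul_I_im, Real.sin_neg]
  have h6 : (ee (ψ)).re = Real.cos ψ := by
    unfold ee; rw [exp_ofReal_mul_I_re]
  have h7 : (ee (ψ)).im = Real.sin ψ := by
    unfold ee; rw [exp_ofReal_mul_I_im]
  rw [← Complex.normSq_eq_norm_sq, Complex.normSq_apply]
  simp only [Complex.mul_re, Complex.sub_re, Complex.sub_im, Complex.mul_im, Complex.conj_re,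
    Complex.conj_im, Complex.add_re, Complex.add_im, Complex.one_re, Complex.one_im, h4, h5, h6, h7]
  ring

lemma uu_re_pos {ψ : ℝ} (hψ : 0 < Real.cos ψ) {z : ℂ} (hz : z ∈ ball (0:ℂ) 1) : 0 < (uu ψ z).re := by
  have h1 := one_add_ne hz
  rw [uu_re h1]
  have h2 : ‖z‖ < 1 := by simpa using hz
  have h3 := norm_pos_iff.2 h1
  have h4 : 0 < 1 - ‖z‖ ^ 2 := by nlinarith [norm_nonneg z]
  positivity

lemma cos_ne {ψ : ℝ} (hψ : 0 < Real.cos ψ) : ((Real.cos ψ : ℝ) : ℂ) ≠ 0 := by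
  exact_mod_cast hψ.ne'

lemma hl_diffAt {ψ : ℝ} {z : ℂ} (hz : 1 + z ≠ 0) : DifferentiableAt ℂ (hl ψ) z := by
  unfold hl uu
  fun_prop (disch := exact hz)

lemma uu_hasDerivAt {ψ : ℝ} {z : ℂ} (hz : 1 + z ≠ 0) :
    HasDerivAt (uu ψ) ((-(ee (-ψ)) * (1 + z) - (ee ψ - ee (-ψ) * z) * 1) / (1 + z) ^ 2) z := by
  have h1 : HasDerivAt (fun z : ℂ => ee ψ - ee (-ψ) * z) (-(ee (-ψ))) z := by
    simpa using ((hasDerivAt_id' z).const_mul (ee (-ψ))).const_sub (ee ψ)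
  have h2 : HasDerivAt (fun z : ℂ => 1 + z) 1 z := (hasDerivAt_id' z).const_add 1
  exact h1.fun_div h2 hz

lemma hl_deriv_zero {ψ : ℝ} (hψ : 0 < Real.cos ψ) : deriv (hl ψ) 0 = 1 := by
  have h0 : (1:ℂ) + 0 ≠ 0 := by simp
  have h1 := uu_hasDerivAt (ψ := ψ) h0
  have h2 : HasDerivAt (fun z => uu ψ z ^ 2) (2 * uu ψ 0 * ((-(ee (-ψ)) * (1 + 0) - (ee ψ - ee (-ψ) * 0) * 1) / (1 + 0) ^ 2)) 0 := by
    simpa using h1.fun_pow 2
  have h3 := ((h2.const_sub (ee ψ ^ 2)).mul_const (ee (-ψ))).div_const (4 * (Real.cos ψ : ℂ))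
  have h4 : HasDerivAt (hl ψ) (-(2 * uu ψ 0 * ((-(ee (-ψ)) * (1 + 0) - (ee ψ - ee (-ψ) * 0) * 1) / (1 + 0) ^ 2)) * ee (-ψ) / (4 * Real.cos ψ)) 0 := h3
  rw [h4.deriv]
  have h5 : uu ψ 0 = ee ψ := by simp [uu]
  rw [h5, div_eq_iff (mul_ne_zero (by norm_num) (cos_ne hψ))]
  simp only [add_zero, mul_zero, sub_zero, mul_one, one_pow, div_one]
  linear_combination (2 * (ee ψ + ee (-ψ))) * ee_mul ψ + 2 * ee_add ψ

lemma hl_zero (ψ : ℝ) : hl ψ 0 = 0 := by simp [hl, uu]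

lemma uu_inj {ψ : ℝ} (hψ : 0 < Real.cos ψ) {z w : ℂ} (hz : 1 + z ≠ 0) (hw : 1 + w ≠ 0) (h : uu ψ z = uu ψ w) : z = w := by
  unfold uu at h
  rw [div_eq_div_iff hz hw] at h
  have h1 : (ee ψ + ee (-ψ)) * (z - w) = 0 := by linear_combination -h
  rw [ee_add] at h1
  have h2 := (mul_eq_zero.1 h1).resolve_left (mul_ne_zero two_ne_zero (cos_ne hψ))
  linear_combination h2

lemma hl_injOn {ψ : ℝ} (hψ : 0 < Real.cos ψ) : InjOn (hl ψ) (ball 0 1) := by
  intro z hz w hw h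
  unfold hl at h
  have h4 : (4 * (Real.cos ψ : ℂ)) ≠ 0 := mul_ne_zero (by norm_num) (cos_ne hψ)
  rw [div_left_inj' h4, mul_left_inj' (ee_ne _)] at h
  have h1 : (uu ψ z - uu ψ w) * (uu ψ z + uu ψ w) = 0 := by linear_combination -h
  rcases mul_eq_zero.1 h1 with h2 | h2
  · exact uu_inj hψ (one_add_ne hz) (one_add_ne hw) (by linear_combination h2)
  · exfalso
    have h3 := congrArg re h2
    have h5 := uu_re_pos hψ hz
    have h6 := uu_re_pos hψ hw
    simp only [add_re, zero_re] at h3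
    linarith

lemma hl_classS {ψ : ℝ} (hψ : 0 < Real.cos ψ) : ClassS (hl ψ) where
  diff := fun z hz => (hl_diffAt (one_add_ne hz)).differentiableWithinAt
  inj := hl_injOn hψ
  map_zero := hl_zero ψ
  deriv_zero := hl_deriv_zero hψ

lemma γhl_hasDerivAt (ψ t : ℝ) : HasDerivAt (γhl ψ) (ee (-ψ)) t := by
  have h1 : HasDerivAt (fun t : ℝ => (t : ℂ) * ee (-ψ)) (ee (-ψ)) t := by
    simpa using (Complex.ofRealCLM.hasDerivAt (x := t)).mul_const (ee (-ψ))
  exact h1.const_add (ee ψ / (4 * Real.cos ψ))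

lemma γhl_isSlitArc (ψ : ℝ) : IsSlitArc (γhl ψ) where
  cont := fun t _ => (γhl_hasDerivAt ψ t).continuousAt.continuousWithinAt
  inj := by
    intro s _ t _ h
    unfold γhl at h
    have h1 : ((s:ℂ) - t) * ee (-ψ) = 0 := by linear_combination h
    have h2 := (mul_eq_zero.1 h1).resolve_right (ee_ne _)
    have h3 : (s:ℂ) = t := by linear_combination h2
    exact_mod_cast h3
  tends := by
    rw [← Metric.cobounded_eq_cocompact, ← tendsto_norm_atTop_iff_cobounded]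
    have h1 : Tendsto (fun t : ℝ => t - ‖ee ψ / (4 * Real.cos ψ)‖) atTop atTop :=
      tendsto_atTop_add_const_right _ _ tendsto_id
    apply tendsto_atTop_mono _ h1
    intro t
    unfold γhl
    have h2 : ‖(t:ℂ) * ee (-ψ)‖ = |t| := by rw [norm_mul, ee_norm, mul_one, norm_real, Real.norm_eq_abs]
    have h3 := norm_sub_norm_le ((t:ℂ) * ee (-ψ)) (-(ee ψ / (4 * Real.cos ψ)))
    rw [norm_neg, h2, sub_neg_eq_add, add_comm ((t:ℂ) * ee (-ψ))] at h3
    have := le_abs_self t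
    linarith
  pieces := by
    refine ⟨0, fun _ => 0, rfl, by simp, by simp, γhl ψ, fun _ _ => rfl, ?_⟩
    intro t _
    refine ⟨?_, ?_⟩
    · unfold γhl
      exact analyticAt_const.add ((Complex.ofRealCLM.analyticAt t).mul analyticAt_const)
    rw [(γhl_hasDerivAt ψ t).deriv]
    exact ee_ne _

/-- Inverse of the Moebius map. -/
lemma uu_surj {ψ : ℝ} (hψ : 0 < Real.cos ψ) {u : ℂ} (hu : 0 < u.re) :
    ∃ z ∈ ball (0:ℂ) 1, uu ψ z = u := by
  have hre : (ee (-ψ)).re = Real.cos ψ := by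
    unfold ee; rw [exp_ofReal_mul_I_re, Real.cos_neg]
  have hd : u + ee (-ψ) ≠ 0 := by
    intro h
    have := congrArg re h
    rw [add_re, hre, zero_re] at this
    linarith
  have hz1 : 1 + (ee ψ - u) / (u + ee (-ψ)) = 2 * Real.cos ψ / (u + ee (-ψ)) := by
    rw [← ee_add]; field_simp; ring
  have hz1' : 1 + (ee ψ - u) / (u + ee (-ψ)) ≠ 0 := by
    rw [hz1]
    exact div_ne_zero (mul_ne_zero two_ne_zero (cos_ne hψ)) hd
  have huz : uu ψ ((ee ψ - u) / (u + ee (-ψ))) = u := by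
    unfold uu
    rw [div_eq_iff hz1', hz1, ← ee_add]
    field_simp
    ring
  refine ⟨(ee ψ - u) / (u + ee (-ψ)), ?_, huz⟩
  have h1 := uu_re (ψ := ψ) hz1'
  rw [huz] at h1
  have h2 : 0 < ‖1 + (ee ψ - u) / (u + ee (-ψ))‖ ^ 2 := by
    have := norm_pos_iff.2 hz1'; positivity
  rw [mem_ball_zero_iff]
  by_contra hcon
  push Not at hcon
  have h3 : Real.cos ψ * (1 - ‖(ee ψ - u) / (u + ee (-ψ))‖ ^ 2) / ‖1 + (ee ψ - u) / (u + ee (-ψ))‖ ^ 2 ≤ 0 := by
    apply div_nonpos_of_nonpos_of_nonneg _ h2.le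
    apply mul_nonpos_of_nonneg_of_nonpos hψ.le
    nlinarith
  linarith

lemma hl_compl {ψ : ℝ} (hψ : 0 < Real.cos ψ) : (hl ψ '' ball 0 1)ᶜ = γhl ψ '' Ici 0 := by
  have h4 : (4 * (Real.cos ψ : ℂ)) ≠ 0 := mul_ne_zero (by norm_num) (cos_ne hψ)
  have hinv : ∀ w u : ℂ, (ee ψ ^ 2 - u) * ee (-ψ) / (4 * Real.cos ψ) = w ↔ u = ee ψ ^ 2 - 4 * Real.cos ψ * ee ψ * w := by
    intro w u
    rw [div_eq_iff h4]
    constructor
    · intro h
      linear_combination (-ee ψ) * h + (ee ψ ^ 2 - u) * ee_mul ψ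
    · intro h
      rw [h]
      linear_combination (4 * Real.cos ψ * w) * ee_mul ψ
  ext w
  constructor
  · intro hw
    -- v ∉ slitPlane
    set v := ee ψ ^ 2 - 4 * Real.cos ψ * ee ψ * w with hv
    have h1 : v ∉ slitPlane := by
      intro hsl
      have h2 : v ≠ 0 := slitPlane_ne_zero hsl
      have h3 : 0 < (v ^ (1/2 : ℂ)).re := by
        rw [cpow_def_of_ne_zero h2, exp_re]
        apply mul_pos (Real.exp_pos _)
        have h5 : (log v * (1/2)).im = arg v / 2 := by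
          rw [show log v * (1/2) = ((1/2 : ℝ) : ℂ) * log v by push_cast; ring, im_ofReal_mul, log_im]
          ring
        rw [h5]
        have h6 := neg_pi_lt_arg v
        have h7 := arg_le_pi v
        have h8 : arg v ≠ Real.pi := slitPlane_arg_ne_pi hsl
        have h9 : arg v < Real.pi := lt_of_le_of_ne h7 h8
        exact Real.cos_pos_of_mem_Ioo ⟨by linarith, by linarith⟩
      obtain ⟨z, hz, huz⟩ := uu_surj hψ h3
      apply hw
      refine ⟨z, hz, ?_⟩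
      unfold hl
      rw [huz, hinv]
      rw [← cpow_nat_mul, ← hv]
      norm_num
    rw [mem_slitPlane_iff, not_or, not_lt, not_ne_iff] at h1
    refine ⟨-v.re / (4 * Real.cos ψ), ?_, ?_⟩
    · rw [mem_Ici]
      apply div_nonneg (by linarith [h1.1]) (by linarith)
    · have hvr : v = (v.re : ℂ) := by
        apply Complex.ext
        · simp
        · simpa using h1.2
      have h5 := (hinv w v).2 hv
      rw [hvr] at h5
      rw [← h5]
      unfold γhl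
      simp only [ofReal_neg, ofReal_div, ofReal_mul, ofReal_ofNat]
      rw [div_mul_eq_mul_div, ← add_div, div_left_inj' h4]
      linear_combination (-ee ψ) * ee_mul ψ
  · rintro ⟨t, ht, rfl⟩ ⟨z, hz, hzw⟩
    unfold hl at hzw
    rw [hinv] at hzw
    have h5 : ee ψ ^ 2 - 4 * Real.cos ψ * ee ψ * γhl ψ t = ((-(4 * Real.cos ψ * t) : ℝ) : ℂ) := by
      unfold γhl
      simp only [ofReal_neg, ofReal_mul, ofReal_ofNat]
      have h6 : 4 * (Real.cos ψ : ℂ) * ee ψ * (ee ψ / (4 * Real.cos ψ)) = ee ψ ^ 2 := by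
        rw [mul_div_assoc', div_eq_iff h4]; ring
      linear_combination (-1 : ℂ) * h6 - (4 * Real.cos ψ * t) * ee_mul ψ
    rw [h5] at hzw
    have h6 := uu_re_pos hψ hz
    have h7 : (uu ψ z ^ 2).re = -(4 * Real.cos ψ * t) := by rw [hzw, ofReal_re]
    have h8 : (uu ψ z ^ 2).im = 0 := by rw [hzw, ofReal_im]
    rw [sq, mul_im] at h8
    rw [sq, mul_re] at h7
    have h9 : (uu ψ z).im = 0 := by
      have : 2 * (uu ψ z).re * (uu ψ z).im = 0 := by linarith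
      rcases mul_eq_zero.1 this with h | h
      · nlinarith
      · exact h
    rw [h9] at h7
    have ht' : 0 ≤ t := ht
    have : 0 ≤ 4 * Real.cos ψ * t := by positivity
    nlinarith

/-- The extension of `hl ψ` to the closed disc. -/
noncomputable def Fhl (ψ : ℝ) (z : ℂ) : OnePoint ℂ :=
  open Classical in if z = -1 then OnePoint.infty else ((hl ψ z : ℂ) : OnePoint ℂ)

lemma hl_formula {ψ : ℝ} (hψ : 0 < Real.cos ψ) {z : ℂ} (hz : 1 + z ≠ 0) :
    hl ψ z = z * (ee ψ + ee ψ + (ee ψ - ee (-ψ)) * z) * ee (-ψ) / 2 / (1 + z) ^ 2 := by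
  have h4 : (4 * (Real.cos ψ : ℂ)) ≠ 0 := mul_ne_zero (by norm_num) (cos_ne hψ)
  unfold hl uu
  rw [div_eq_iff h4, show (4 * (Real.cos ψ : ℂ)) = 2 * (ee ψ + ee (-ψ)) by rw [ee_add]; ring]
  field_simp
  ring

lemma hl_tendsto {ψ : ℝ} (hψ : 0 < Real.cos ψ) :
    Tendsto (hl ψ) (𝓝[≠] (-1)) (cocompact ℂ) := by
  rw [← Metric.cobounded_eq_cocompact, ← tendsto_norm_atTop_iff_cobounded]
  have h1 : Tendsto (fun z : ℂ => ‖z * (ee ψ + ee ψ + (ee ψ - ee (-ψ)) * z) * ee (-ψ) / 2‖) (𝓝[≠] (-1))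
      (𝓝 ‖(-1) * (ee ψ + ee ψ + (ee ψ - ee (-ψ)) * (-1)) * ee (-ψ) / 2‖) := by
    apply Tendsto.mono_left _ nhdsWithin_le_nhds
    apply Continuous.tendsto (f := fun z : ℂ => ‖z * (ee ψ + ee ψ + (ee ψ - ee (-ψ)) * z) * ee (-ψ) / 2‖)
    fun_prop
  have h2 : 0 < ‖(-1) * (ee ψ + ee ψ + (ee ψ - ee (-ψ)) * (-1)) * ee (-ψ) / 2‖ := by
    rw [norm_pos_iff, show (-1) * (ee ψ + ee ψ + (ee ψ - ee (-ψ)) * (-1)) * ee (-ψ) / 2 =
      -((ee ψ + ee (-ψ)) * ee (-ψ) / 2) by ring, neg_ne_zero, ee_add]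
    exact div_ne_zero (mul_ne_zero (mul_ne_zero two_ne_zero (cos_ne hψ)) (ee_ne _)) two_ne_zero
  have h3 : Tendsto (fun z : ℂ => (‖1 + z‖ ^ 2)⁻¹) (𝓝[≠] (-1)) atTop := by
    apply tendsto_inv_nhdsGT_zero.comp
    rw [tendsto_nhdsWithin_iff]
    constructor
    · have : Tendsto (fun z : ℂ => ‖1 + z‖ ^ 2) (𝓝 (-1)) (𝓝 (‖1 + (-1 : ℂ)‖ ^ 2)) :=
        Continuous.tendsto (by fun_prop) _
      rw [add_neg_cancel, norm_zero, zero_pow two_ne_zero] at this
      exact this.mono_left nhdsWithin_le_nhds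
    · filter_upwards [self_mem_nhdsWithin] with z hz
      have hz' : z ≠ -1 := hz
      have : 1 + z ≠ 0 := by
        intro h; apply hz'; linear_combination h
      have := norm_pos_iff.2 this
      rw [mem_Ioi]; positivity
  refine (h1.pos_mul_atTop h2 h3).congr' ?_
  filter_upwards [self_mem_nhdsWithin] with z hz
  have hz' : z ≠ -1 := hz
  have h5 : 1 + z ≠ 0 := by
    intro h; apply hz'; linear_combination h
  rw [hl_formula hψ h5, norm_div _ ((1 + z) ^ 2), norm_pow]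
  exact (div_eq_mul_inv _ _).symm

lemma Fhl_continuous {ψ : ℝ} (hψ : 0 < Real.cos ψ) : Continuous (Fhl ψ) := by
  rw [continuous_iff_continuousAt]
  intro z
  rcases eq_or_ne z (-1) with rfl | hne
  · rw [continuousAt_iff_punctured_nhds]
    have h2 : Fhl ψ (-1) = OnePoint.infty := by simp [Fhl]
    rw [h2]
    have h3 : Tendsto (fun z => ((hl ψ z : ℂ) : OnePoint ℂ)) (𝓝[≠] (-1)) (𝓝 OnePoint.infty) := by
      apply OnePoint.tendsto_coe_infty.comp
      rw [coclosedCompact_eq_cocompact]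
      exact hl_tendsto hψ
    refine h3.congr' ?_
    filter_upwards [self_mem_nhdsWithin] with z hz
    have : z ≠ -1 := hz
    simp [Fhl, this]
  · have h5 : 1 + z ≠ 0 := by
      intro h; apply hne; linear_combination h
    have h1 : ContinuousAt (fun z => ((hl ψ z : ℂ) : OnePoint ℂ)) z :=
      (OnePoint.continuous_coe.continuousAt).comp (hl_diffAt h5).continuousAt
    apply h1.congr
    filter_upwards [isOpen_compl_singleton.mem_nhds hne] with x hx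
    have : x ≠ -1 := hx
    simp [Fhl, this]

lemma hl_hasTipAt {ψ : ℝ} (hψ : 0 < Real.cos ψ) : HasTipAt (hl ψ) (γhl ψ 0) (2 * ψ) := by
  have h4 : (4 * (Real.cos ψ : ℂ)) ≠ 0 := mul_ne_zero (by norm_num) (cos_ne hψ)
  refine ⟨Fhl ψ, (Fhl_continuous hψ).continuousOn, ?_, ?_, ?_⟩
  · intro z hz
    have : z ≠ -1 := by
      rintro rfl
      simp at hz
    simp [Fhl, this]
  · intro z _
    by_cases h : z = -1
    · simp [Fhl, h]
    · simp [Fhl, h]
  · intro z hz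
    have key : ∀ z : ℂ, 1 + z ≠ 0 → (hl ψ z = γhl ψ 0 ↔ z = exp ((2 * ψ : ℝ) * I)) := by
      intro z h5
      have h6 : γhl ψ 0 = ee ψ ^ 2 * ee (-ψ) / (4 * Real.cos ψ) := by
        unfold γhl
        rw [ofReal_zero, zero_mul, add_zero, div_left_inj' h4]
        linear_combination (-ee ψ) * ee_mul ψ
      rw [h6, ← ee_sq]
      unfold hl
      rw [div_left_inj' h4, mul_left_inj' (ee_ne _)]
      have h7 : ee ψ ^ 2 - uu ψ z ^ 2 = ee ψ ^ 2 ↔ ee ψ - ee (-ψ) * z = 0 := by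
        rw [sub_eq_self, sq_eq_zero_iff]
        unfold uu
        rw [div_eq_zero_iff, or_iff_left h5]
      rw [h7]
      constructor
      · intro h
        linear_combination (-ee ψ) * h - z * ee_mul ψ
      · intro h
        rw [h]
        linear_combination (-ee ψ) * ee_mul ψ
    by_cases h : z = -1
    · have h1 : Fhl ψ z = OnePoint.infty := by simp [Fhl, h]
      rw [h1]
      constructor
      · intro h2
        exact absurd h2 (OnePoint.infty_ne_coe _)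
      · intro h2
        exfalso
        rw [h, ← ee_sq] at h2
        have h3 : ee ψ * (ee ψ + ee (-ψ)) = 0 := by linear_combination (-1 : ℂ) * h2 + ee_mul ψ
        rw [ee_add] at h3
        exact (mul_ne_zero (ee_ne _) (mul_ne_zero two_ne_zero (cos_ne hψ))) h3
    · have h5 : 1 + z ≠ 0 := by
        intro h'; apply h; linear_combination h'
      have h1 : Fhl ψ z = ((hl ψ z : ℂ) : OnePoint ℂ) := by simp [Fhl, h]
      rw [h1, ← key z h5]
      exact OnePoint.coe_injective.eq_iff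

lemma hl_isSlitMap {ψ : ℝ} (hψ : 0 < Real.cos ψ) : IsSlitMap (hl ψ) (γhl ψ) :=
  ⟨hl_classS hψ, γhl_isSlitArc ψ, hl_compl hψ⟩

lemma γhl_zero (ψ : ℝ) : γhl ψ 0 = ee ψ / (4 * Real.cos ψ) := by
  unfold γhl; rw [ofReal_zero, zero_mul, add_zero]

lemma γhl_sub (ψ t : ℝ) : γhl ψ t - γhl ψ 0 = t * ee (-ψ) := by
  rw [γhl_zero]; unfold γhl; ring

end Pool.Agent.H790R2.Tip
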