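import Mathlib
import Pool.Agent.H790R2.TipDefs

set_option autoImplicit false

open Set Filter Topology Complex Metric

namespace Pool.Agent.H790R2.Tip

/-- Continuous logarithms on convex sets. -/
theorem exists_log_on_convex {E : Type*} [NormedAddCommGroup E] [NormedSpace ℝ E] {S : Set E}
    (hS : Convex ℝ S) {a : E} (ha : a ∈ S) {h : E → ℂ} (hc : ContinuousOn h S)
    (h0 : ∀ x ∈ S, h x ≠ 0) {e : ℂ} (he : exp e = h a) :
    ∃ g : E → ℂ, ContinuousOn g S ∧ g a = e ∧ ∀ x ∈ S, exp (g x) = h x := by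
  classical
  have := hS.contractibleSpace ⟨a, ha⟩
  have := hS.locallyPathConnectedSpace
  rcases isCoveringMapOn_exp.existsUnique_continuousMap_lifts
    ⟨S.domRestrict h, continuousOn_iff_continuous_domRestrict.mp hc⟩ (a₀ := ⟨a, ha⟩) (e₀ := e)
    (by simpa using he) (fun x ↦ by simpa using h0 x x.2) with ⟨f, ⟨hf0, hf⟩, -⟩
  refine ⟨fun z ↦ if hz : z ∈ S then f ⟨z, hz⟩ else 0, ?_, ?_, ?_⟩
  · rw [continuousOn_iff_continuous_domRestrict]
    convert! map_continuous f
    ext z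
    simp
  · simp [ha, hf0]
  · intro x hx
    have := congrFun hf ⟨x, hx⟩
    simp only [hx, dif_pos]
    simpa using this

/-- A continuous function whose values are integer multiples of `2πi` on a preconnected set is
constant. -/
theorem eq_of_exp_eq_one {X : Type*} [TopologicalSpace X] {S : Set X} (hS : IsPreconnected S)
    {u : X → ℂ} (hu : ContinuousOn u S) (h1 : ∀ x ∈ S, exp (u x) = 1) {x y : X} (hx : x ∈ S)
    (hy : y ∈ S) : u x = u y := by
  have hd : IsDiscrete ((AddSubgroup.zmultiples (2 * Real.pi * I) : AddSubgroup ℂ) : Set ℂ) :=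
    ⟨NormedSpace.discreteTopology_zmultiples _⟩
  have hm : MapsTo u S ((AddSubgroup.zmultiples (2 * Real.pi * I) : AddSubgroup ℂ) : Set ℂ) := by
    intro z hz
    obtain ⟨n, hn⟩ := exp_eq_one_iff.mp (h1 z hz)
    rw [SetLike.mem_coe, AddSubgroup.mem_zmultiples_iff]
    exact ⟨n, by rw [hn]; simp⟩
  exact hS.constant_of_mapsTo hd hu hm hx hy

/-- A boundary value of an injective analytic function in the disc is not attained inside. -/
theorem notMem_image_of_boundary {f : ℂ → ℂ} (hd : DifferentiableOn ℂ f (ball 0 1))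
    (hi : InjOn f (ball 0 1)) {z w : ℂ} (hz : z ∈ sphere (0 : ℂ) 1)
    (hlim : Tendsto f (𝓝[ball 0 1] z) (𝓝 w)) : w ∉ f '' ball 0 1 := by
  rintro ⟨z₁, hz₁, rfl⟩
  have han : AnalyticAt ℂ f z₁ := hd.analyticAt (isOpen_ball.mem_nhds hz₁)
  rcases han.eventually_constant_or_nhds_le_map_nhds with h | h
  · have h1 : ∀ᶠ x in 𝓝[≠] z₁, f x = f z₁ := h.filter_mono nhdsWithin_le_nhds
    have h2 : ∀ᶠ x in 𝓝[≠] z₁, x ∈ ball (0 : ℂ) 1 :=
      (isOpen_ball.eventually_mem hz₁).filter_mono nhdsWithin_le_nhds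
    obtain ⟨x, hx1, hx2, hx3⟩ := (h1.and (h2.and self_mem_nhdsWithin)).exists
    exact hx3 (hi hx2 hz₁ hx1)
  · have hz1' : ‖z₁‖ < 1 := by simpa using hz₁
    obtain ⟨r, hr1, hr2⟩ := exists_between hz1'
    have h1 : f '' ball 0 r ∈ 𝓝 (f z₁) := by
      apply h
      exact image_mem_map (isOpen_ball.mem_nhds (by simpa using hr1))
    have h2 := hlim.eventually h1
    have h3 : ∀ᶠ x in 𝓝[ball 0 1] z, r < ‖x‖ := by
      have : Tendsto (fun x : ℂ => ‖x‖) (𝓝[ball 0 1] z) (𝓝 ‖z‖) :=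
        (continuous_norm.tendsto z).mono_left nhdsWithin_le_nhds
      rw [mem_sphere_zero_iff_norm.mp hz] at this
      exact this.eventually (lt_mem_nhds hr2)
    have hne : (𝓝[ball (0 : ℂ) 1] z).NeBot := by
      rw [← mem_closure_iff_nhdsWithin_neBot, closure_ball _ one_ne_zero]
      exact sphere_subset_closedBall hz
    obtain ⟨x, ⟨y, hy, hxy⟩, hx2, hx3⟩ := (h2.and (h3.and self_mem_nhdsWithin)).exists
    have hy' : ‖y‖ < r := by simpa using hy
    have : y = x := hi (by simpa using hy'.trans hr2) hx3 hxy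
    rw [this] at hy'
    exact lt_asymm hy' hx2

/-- A continuous logarithm of a differentiable function is differentiable. -/
theorem differentiableAt_of_exp {g h : ℂ → ℂ} {z : ℂ} (hg : ContinuousAt g z)
    (he : ∀ᶠ x in 𝓝 z, exp (g x) = h x) (hh : DifferentiableAt ℂ h z) :
    DifferentiableAt ℂ g z := by
  have hz : exp (g z) = h z := he.self_of_nhds
  have h0 : h z ≠ 0 := by rw [← hz]; exact exp_ne_zero _
  have h1 : DifferentiableAt ℂ (fun x => g z + log (h x / h z)) z := by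
    refine (DifferentiableAt.clog (hh.div_const _) ?_).const_add _
    rw [div_self h0]
    exact one_mem_slitPlane
  apply h1.congr_of_eventuallyEq
  have h4 : ∀ᶠ x in 𝓝 z, ‖g x - g z‖ < 1 := by
    have : Tendsto (fun x => ‖g x - g z‖) (𝓝 z) (𝓝 0) := by
      have := (hg.tendsto.sub_const (g z)).norm
      simpa using this
    exact this.eventually (gt_mem_nhds one_pos)
  filter_upwards [h4, he] with x hx hx0
  rw [← hx0, ← hz, ← exp_sub, log_exp]
  · ring
  · have := (abs_im_le_norm (g x - g z))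
    have := neg_abs_le ((g x - g z).im)
    linarith [Real.pi_gt_three]
  · have := (abs_im_le_norm (g x - g z))
    have := le_abs_self ((g x - g z).im)
    linarith [Real.pi_gt_three]

/-- The closed disc without `-1`. -/
def D : Set ℂ := closedBall 0 1 \ {-1}

theorem mem_D_iff {z : ℂ} : z ∈ D ↔ ‖z‖ ≤ 1 ∧ z ≠ -1 := by
  simp [D]

theorem D_eq : D = closedBall 0 1 ∩ {z : ℂ | -1 < z.re} := by
  ext z
  rw [mem_D_iff, mem_inter_iff, mem_closedBall_zero_iff, mem_ofPred_eq]
  refine and_congr_right fun hz => ⟨fun h => ?_, fun h h2 => ?_⟩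
  · by_contra hcon
    push Not at hcon
    apply h
    have h1 := abs_re_le_norm z
    have h2 : z.re = -1 := by
      have := neg_abs_le z.re
      linarith
    have h3 : ‖z‖ ^ 2 = z.re ^ 2 + z.im ^ 2 := by rw [← normSq_eq_norm_sq, normSq_apply]; ring
    have h4 : z.im = 0 := by
      have h5 : ‖z‖ ^ 2 ≤ 1 := by nlinarith [norm_nonneg z]
      rw [h2] at h3
      nlinarith
    apply Complex.ext
    · simp [h2]
    · simp [h4]
  · rw [h2] at h
    simp at h

theorem convex_D : Convex ℝ D := by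
  rw [D_eq]
  exact (convex_closedBall _ _).inter (convex_halfSpace_re_gt _)

theorem ball_subset_D : ball (0 : ℂ) 1 ⊆ D := by
  intro z hz
  have hz' : ‖z‖ < 1 := by simpa using hz
  rw [mem_D_iff]
  refine ⟨hz'.le, fun h => ?_⟩
  rw [h] at hz'
  simp at hz'

theorem one_add_mem_slitPlane {z : ℂ} (hz : z ∈ D) : 1 + z ∈ slitPlane := by
  rw [D_eq] at hz
  left
  have : -1 < z.re := hz.2
  simp only [add_re, one_re]
  linarith

theorem exists_boundary {f : ℂ → ℂ} (hf : ClassS f) {ω : ℂ} {φ : ℝ} (hφ1 : -Real.pi < φ)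
    (hφ2 : φ < Real.pi) (ht : HasTipAt f ω φ) (hω : ω ∉ f '' ball 0 1) :
    ∃ fb : ℂ → ℂ, ContinuousOn fb D ∧ (∀ z ∈ ball (0 : ℂ) 1, fb z = f z) ∧
      Tendsto (fun z => ‖fb z‖) (𝓝[D] (-1)) atTop ∧
      (∀ z ∈ sphere (0 : ℂ) 1, z ≠ -1 → fb z ∉ f '' ball 0 1) ∧ fb (exp (φ * I)) = ω ∧
      (∀ u : ℕ → ℂ, (∀ n, u n ∈ ball (0 : ℂ) 1) → Tendsto (fun n => f (u n)) atTop (𝓝 ω) →
        Tendsto u atTop (𝓝 (exp (φ * I)))) := by
  obtain ⟨F, hF, hFf, hFi, hFω⟩ := ht
  have hfin : ∀ z ∈ D, ∃ w : ℂ, F z = w := by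
    intro z hz
    rw [mem_D_iff] at hz
    have : F z ≠ OnePoint.infty := by
      rcases hz.1.lt_or_eq with h | h
      · rw [hFf z (by simpa using h)]
        exact OnePoint.coe_ne_infty _
      · rw [Ne, hFi z (by simpa using h)]
        exact hz.2
    obtain ⟨y, hy⟩ := OnePoint.ne_infty_iff_exists.mp this
    exact ⟨y, hy.symm⟩
  choose! fb hfb using hfin
  have hDc : D ⊆ closedBall 0 1 := sdiff_subset
  have hcont : ContinuousOn fb D := by
    rw [OnePoint.isOpenEmbedding_coe.isInducing.continuousOn_iff]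
    refine (hF.mono hDc).congr ?_
    intro z hz
    exact (hfb z hz).symm
  have hball : ∀ z ∈ ball (0 : ℂ) 1, fb z = f z := by
    intro z hz
    have h1 := hfb z (ball_subset_D hz)
    rw [hFf z hz] at h1
    exact (OnePoint.coe_injective h1).symm
  have hm1 : (-1 : ℂ) ∈ sphere (0 : ℂ) 1 := by simp
  have hlim1 : Tendsto (fun z => ‖fb z‖) (𝓝[D] (-1)) atTop := by
    have h1 : Tendsto F (𝓝[D] (-1)) (𝓝 OnePoint.infty) := by
      have h2 := (hF (-1) (sphere_subset_closedBall hm1)).mono hDc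
      have h3 : F (-1) = OnePoint.infty := (hFi _ hm1).mpr rfl
      rw [ContinuousWithinAt, h3] at h2
      exact h2
    have h2 : Tendsto (fun z => ((fb z : ℂ) : OnePoint ℂ)) (𝓝[D] (-1)) (𝓝 OnePoint.infty) := by
      refine h1.congr' ?_
      filter_upwards [self_mem_nhdsWithin] with z hz using hfb z hz
    have h3 : Tendsto fb (𝓝[D] (-1)) (cocompact ℂ) := by
      rw [← coclosedCompact_eq_cocompact, ← OnePoint.comap_coe_nhds_infty, tendsto_comap_iff]
      exact h2
    exact tendsto_norm_cocompact_atTop.comp h3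
  have hzφ : exp (φ * I) ∈ sphere (0 : ℂ) 1 := by
    rw [mem_sphere_zero_iff_norm]; exact norm_exp_ofReal_mul_I φ
  have hne : exp (φ * I) ≠ -1 := by
    intro h
    have h1 : log (exp (φ * I)) = φ * I := log_exp (by simpa using hφ1) (by simpa using hφ2.le)
    rw [h, log_neg_one] at h1
    have h2 := congrArg im h1
    simp at h2
    exact hφ2.ne h2.symm
  refine ⟨fb, hcont, hball, hlim1, ?_, ?_, ?_⟩
  · intro z hz hz1
    have hzD : z ∈ D := by
      rw [mem_D_iff]
      exact ⟨(mem_sphere_zero_iff_norm.mp hz).le, hz1⟩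
    apply notMem_image_of_boundary hf.diff hf.inj hz
    have h1 : Tendsto fb (𝓝[ball 0 1] z) (𝓝 (fb z)) := (hcont z hzD).mono ball_subset_D
    refine h1.congr' ?_
    filter_upwards [self_mem_nhdsWithin] with x hx using hball x hx
  · have h1 := hfb (exp (φ * I)) (by rw [mem_D_iff]; exact ⟨(mem_sphere_zero_iff_norm.mp hzφ).le, hne⟩)
    rw [(hFω _ hzφ).mpr rfl] at h1
    exact (OnePoint.coe_injective h1).symm
  · intro u hu hlim
    apply (isCompact_closedBall (0 : ℂ) 1).tendsto_nhds_of_unique_mapClusterPt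
      (Eventually.of_forall fun n => ball_subset_closedBall (hu n))
    intro x hx hcl
    obtain ⟨ψ, hψ, hψ2⟩ := MapClusterPt.tendsto_subseq hcl
    have h1 : Tendsto (fun n => F (u (ψ n))) atTop (𝓝 (F x)) := by
      have h2 : Tendsto (u ∘ ψ) atTop (𝓝[closedBall 0 1] x) := by
        rw [tendsto_nhdsWithin_iff]
        exact ⟨hψ2, Eventually.of_forall fun n => ball_subset_closedBall (hu _)⟩
      exact (hF x hx).tendsto.comp h2
    have h2 : Tendsto (fun n => F (u (ψ n))) atTop (𝓝 (ω : OnePoint ℂ)) := by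
      have h3 : Tendsto (fun n => ((f (u (ψ n)) : ℂ) : OnePoint ℂ)) atTop (𝓝 (ω : OnePoint ℂ)) :=
        (OnePoint.continuous_coe.tendsto ω).comp (hlim.comp hψ.tendsto_atTop)
      refine h3.congr fun n => ?_
      rw [hFf _ (hu _)]
    have h3 : F x = (ω : OnePoint ℂ) := tendsto_nhds_unique h1 h2
    have h4 : x ∈ sphere (0 : ℂ) 1 := by
      rw [mem_sphere_zero_iff_norm]
      rw [mem_closedBall_zero_iff] at hx
      rcases hx.lt_or_eq with h | h
      · exfalso
        have hxb : x ∈ ball (0 : ℂ) 1 := by simpa using h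
        rw [hFf x hxb] at h3
        exact hω ⟨x, hxb, OnePoint.coe_injective h3⟩
      · exact h
    exact (hFω x h4).mp h3

/-- A continuous logarithm of `fb z / z`. -/
theorem exp_mul_I_mem {θ : ℝ} (h1 : -Real.pi < θ) (h2 : θ < Real.pi) :
    exp (θ * I) ∈ sphere (0 : ℂ) 1 ∧ exp (θ * I) ≠ -1 ∧ exp (θ * I) ∈ D := by
  have hz : exp (θ * I) ∈ sphere (0 : ℂ) 1 := by
    rw [mem_sphere_zero_iff_norm]; exact norm_exp_ofReal_mul_I θ
  have hne : exp (θ * I) ≠ -1 := by
    intro h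
    have h3 : log (exp (θ * I)) = θ * I := log_exp (by simpa using h1) (by simpa using h2.le)
    rw [h, log_neg_one] at h3
    have h4 := congrArg im h3
    simp at h4
    exact h2.ne h4.symm
  exact ⟨hz, hne, mem_D_iff.mpr ⟨(mem_sphere_zero_iff_norm.mp hz).le, hne⟩⟩


theorem norm_half_le {z : ℂ} (hz : ‖z‖ ≤ 1) : ‖(1 + z) / 2‖ ≤ 1 := by
  rw [norm_div]
  have h1 : ‖(1 : ℂ) + z‖ ≤ 2 := by
    refine (norm_add_le _ _).trans ?_
    rw [norm_one]; linarith
  have h2 : ‖(2 : ℂ)‖ = 2 := by simp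
  rw [h2]
  linarith

theorem half_mem_slitPlane {z : ℂ} (hz : z ∈ D) : (1 + z) / 2 ∈ slitPlane := by
  rw [D_eq] at hz
  left
  have h : -1 < z.re := hz.2
  have : ((1 + z) / 2).re = (1 + z.re) / 2 := by
    rw [show (1 + z) / 2 = (1 + z) / ((2 : ℝ) : ℂ) by simp, div_ofReal_re]
    simp
  rw [this]
  linarith


end Pool.Agent.H790R2.Tip
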