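import Mathlib
import Pool.Agent.H790R2.TipTools
import Pool.Agent.H790R2.TipHalf

set_option autoImplicit false

open Set Filter Topology Complex Metric

namespace Pool.Agent.H790R2.Tip

lemma re_conj_mul_lt {e z : ℂ} (he : ‖e‖ = 1) (hz : ‖z‖ ≤ 1) : z ≠ e ↔ ((starRingEnd ℂ) e * z).re < 1 := by
  have h1 : ‖z - e‖ ^ 2 = ‖z‖ ^ 2 - 2 * ((starRingEnd ℂ) e * z).re + ‖e‖ ^ 2 := by
    simp only [← Complex.normSq_eq_norm_sq, Complex.normSq_apply, Complex.sub_re, Complex.sub_im,
      Complex.mul_re, Complex.conj_re, Complex.conj_im]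
    ring
  rw [he] at h1
  constructor
  · intro h
    have h2 : 0 < ‖z - e‖ := norm_pos_iff.2 (sub_ne_zero.2 h)
    have h3 : ‖z‖ ^ 2 ≤ 1 := by nlinarith [norm_nonneg z]
    nlinarith
  · rintro h rfl
    rw [sub_self, norm_zero, he] at h1
    linarith

/-- The closed disc without `-1` and `exp (i φ)`. -/
def D2 (φ : ℝ) : Set ℂ := D \ {exp (φ * I)}

lemma mem_D2 {φ : ℝ} {z : ℂ} : z ∈ D2 φ ↔ z ∈ D ∧ z ≠ exp (φ * I) := by
  unfold D2; simp

lemma D2_sub {φ : ℝ} : D2 φ ⊆ D := sdiff_subset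

lemma convex_D2 (φ : ℝ) : Convex ℝ (D2 φ) := by
  have h : D2 φ = D ∩ {z : ℂ | ((starRingEnd ℂ) (exp (φ * I)) * z).re < 1} := by
    ext z
    rw [mem_D2, mem_inter_iff, mem_ofPred_eq]
    refine and_congr_right fun hz => ?_
    exact re_conj_mul_lt (norm_exp_ofReal_mul_I φ) (mem_D_iff.mp hz).1
  rw [h]
  apply convex_D.inter
  have h2 : IsLinearMap ℝ (fun z : ℂ => ((starRingEnd ℂ) (exp (φ * I)) * z).re) := by
    constructor
    · intro x y
      rw [mul_add, add_re]
    · intro c x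
      rw [Complex.real_smul, smul_eq_mul, mul_left_comm, re_ofReal_mul]
  exact convex_halfSpace_lt h2 1

lemma ball_subset_D2 {φ : ℝ} : ball (0:ℂ) 1 ⊆ D2 φ := by
  intro z hz
  rw [mem_D2]
  refine ⟨ball_subset_D hz, ?_⟩
  rintro rfl
  rw [mem_ball_zero_iff, norm_exp_ofReal_mul_I] at hz
  exact lt_irrefl _ hz

/-- `(1 - e⁻¹ z) / 2` -/
noncomputable def vv (φ : ℝ) (z : ℂ) : ℂ := (1 - (starRingEnd ℂ) (exp (φ * I)) * z) / 2

lemma vv_norm_le {φ : ℝ} {z : ℂ} (hz : ‖z‖ ≤ 1) : ‖vv φ z‖ ≤ 1 := by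
  unfold vv
  rw [norm_div]
  have h1 : ‖(1 : ℂ) - (starRingEnd ℂ) (exp (φ * I)) * z‖ ≤ 2 := by
    refine (norm_sub_le _ _).trans ?_
    rw [norm_one, norm_mul, RCLike.norm_conj, norm_exp_ofReal_mul_I]; linarith
  have h2 : ‖(2 : ℂ)‖ = 2 := by simp
  rw [h2]
  linarith

lemma vv_mem_slit {φ : ℝ} {z : ℂ} (hz : z ∈ D2 φ) : vv φ z ∈ slitPlane := by
  left
  have h1 := (re_conj_mul_lt (norm_exp_ofReal_mul_I φ) (mem_D_iff.mp (mem_D2.1 hz).1).1).1 (mem_D2.1 hz).2
  have : (vv φ z).re = (1 - ((starRingEnd ℂ) (exp (φ * I)) * z).re) / 2 := by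
    unfold vv
    rw [show ((1 : ℂ) - (starRingEnd ℂ) (exp (φ * I)) * z) / 2 =
      (1 - (starRingEnd ℂ) (exp (φ * I)) * z) / ((2 : ℝ) : ℂ) by simp, div_ofReal_re]
    simp only [sub_re, one_re]
  rw [this]
  linarith

lemma vv_zero {φ : ℝ} : vv φ (exp (φ * I)) = 0 := by
  unfold vv
  have : (starRingEnd ℂ) (exp (φ * I)) * exp (φ * I) = 1 := by
    rw [mul_comm, Complex.mul_conj, Complex.normSq_eq_norm_sq, norm_exp_ofReal_mul_I]; simp
  rw [this]; simp

/-- Maximum principle with two exceptional boundary points. -/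
theorem max_principle2 {φ : ℝ} {L : ℂ → ℂ} (hL : ContinuousOn L (D2 φ)) (hd : DifferentiableOn ℂ L (ball 0 1))
    {M C : ℝ} (hC : ∀ z ∈ ball (0 : ℂ) 1, (L z).im ≤ C)
    (hb : ∀ z ∈ sphere (0 : ℂ) 1, z ≠ -1 → z ≠ exp (φ * I) → (L z).im ≤ M) :
    ∀ z ∈ ball (0 : ℂ) 1, (L z).im ≤ M := by
  have hmem : ∀ z ∈ closedBall (0 : ℂ) 1, z ≠ -1 → z ≠ exp (φ * I) → z ∈ D2 φ :=
    fun z hz h h' => ⟨⟨hz, h⟩, h'⟩
  have key : ∀ ε : ℝ, 0 < ε → ∀ z ∈ ball (0 : ℂ) 1,
      Real.exp ((L z).im) * (‖(1 + z) / 2‖ ^ ε * ‖vv φ z‖ ^ ε) ≤ Real.exp M := by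
    intro ε hε
    let H : ℂ → ℂ := fun z => exp (-I * L z) * (((1 + z) / 2) ^ (ε : ℂ) * (vv φ z) ^ (ε : ℂ))
    have hHn : ∀ z, ‖H z‖ = Real.exp ((L z).im) * (‖(1 + z) / 2‖ ^ ε * ‖vv φ z‖ ^ ε) := by
      intro z
      simp only [H]
      rw [norm_mul, norm_mul, norm_exp, norm_cpow_real, norm_cpow_real]
      congr 2
      simp
    have hvc : Continuous (vv φ) := by unfold vv; fun_prop
    have hHD : ContinuousOn H (D2 φ) := by
      apply ContinuousOn.mul (continuousOn_const.mul hL).cexp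
      apply ContinuousOn.mul
      · refine ContinuousOn.cpow (Continuous.continuousOn (by fun_prop)) continuousOn_const ?_
        intro z hz
        exact half_mem_slitPlane (D2_sub hz)
      · refine ContinuousOn.cpow hvc.continuousOn continuousOn_const ?_
        intro z hz
        exact vv_mem_slit hz
    have hDopen : ∀ z ∈ D2 φ, 𝓝[closedBall 0 1] z ≤ 𝓝[D2 φ] z := by
      intro z hz
      have h1 : ({-1, exp (φ * I)}ᶜ : Set ℂ) ∈ 𝓝 z := by
        apply (Set.Finite.isClosed (by simp)).isOpen_compl.mem_nhds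
        rw [mem_compl_iff, mem_insert_iff, mem_singleton_iff, not_or]
        exact ⟨(mem_D_iff.mp (mem_D2.1 hz).1).2, (mem_D2.1 hz).2⟩
      have h2 : D2 φ = closedBall 0 1 ∩ {-1, exp (φ * I)}ᶜ := by
        ext x
        rw [mem_D2, mem_D_iff, mem_inter_iff, mem_compl_iff, mem_insert_iff, mem_singleton_iff, not_or,
          mem_closedBall_zero_iff]
        tauto
      rw [h2, nhdsWithin_inter_of_mem' (mem_nhdsWithin_of_mem_nhds h1)]
    -- bound on the closed disc away from the exceptional points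
    have hbound : ∀ z ∈ closedBall (0 : ℂ) 1, z ≠ -1 → z ≠ exp (φ * I) → (L z).im ≤ max C M := by
      intro z hz h h'
      rw [mem_closedBall_zero_iff] at hz
      rcases hz.lt_or_eq with h1 | h1
      · exact (hC z (by simpa using h1)).trans (le_max_left _ _)
      · exact (hb z (by simpa using h1) h h').trans (le_max_right _ _)
    have hzero1 : H (-1) = 0 := by
      simp only [H]
      have : ((1 : ℂ) + -1) / 2 = 0 := by simp
      rw [this, zero_cpow (by exact_mod_cast hε.ne'), zero_mul, mul_zero]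
    have hzero2 : H (exp (φ * I)) = 0 := by
      simp only [H]
      rw [vv_zero, zero_cpow (by exact_mod_cast hε.ne'), mul_zero, mul_zero]
    have hle1 : ∀ z ∈ closedBall (0 : ℂ) 1, ‖H z‖ ≤ Real.exp (max C M) * ‖(1 + z) / 2‖ ^ ε := by
      intro z hz
      have hz' : ‖z‖ ≤ 1 := by simpa using hz
      by_cases h : z = -1
      · rw [h, hzero1, norm_zero]; positivity
      by_cases h' : z = exp (φ * I)
      · rw [h', hzero2, norm_zero]; positivity
      rw [hHn]
      have h3 : ‖vv φ z‖ ^ ε ≤ 1 := Real.rpow_le_one (norm_nonneg _) (vv_norm_le hz') hε.le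
      calc Real.exp ((L z).im) * (‖(1 + z) / 2‖ ^ ε * ‖vv φ z‖ ^ ε)
          ≤ Real.exp (max C M) * (‖(1 + z) / 2‖ ^ ε * 1) := by
            apply mul_le_mul (Real.exp_le_exp.2 (hbound z hz h h')) _ (by positivity) (Real.exp_nonneg _)
            exact mul_le_mul_of_nonneg_left h3 (by positivity)
        _ = _ := by rw [mul_one]
    have hle2 : ∀ z ∈ closedBall (0 : ℂ) 1, ‖H z‖ ≤ Real.exp (max C M) * ‖vv φ z‖ ^ ε := by
      intro z hz
      have hz' : ‖z‖ ≤ 1 := by simpa using hz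
      by_cases h : z = -1
      · rw [h, hzero1, norm_zero]; positivity
      by_cases h' : z = exp (φ * I)
      · rw [h', hzero2, norm_zero]; positivity
      rw [hHn]
      have h3 : ‖(1 + z) / 2‖ ^ ε ≤ 1 := Real.rpow_le_one (norm_nonneg _) (norm_half_le hz') hε.le
      calc Real.exp ((L z).im) * (‖(1 + z) / 2‖ ^ ε * ‖vv φ z‖ ^ ε)
          ≤ Real.exp (max C M) * (1 * ‖vv φ z‖ ^ ε) := by
            apply mul_le_mul (Real.exp_le_exp.2 (hbound z hz h h')) _ (by positivity) (Real.exp_nonneg _)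
            exact mul_le_mul_of_nonneg_right h3 (by positivity)
        _ = _ := by rw [one_mul]
    have hneg1 : ContinuousWithinAt H (closedBall 0 1) (-1) := by
      rw [ContinuousWithinAt, hzero1]
      apply squeeze_zero_norm' (a := fun z => Real.exp (max C M) * ‖(1 + z) / 2‖ ^ ε)
      · filter_upwards [self_mem_nhdsWithin] with z hz using hle1 z hz
      · have h2 : Tendsto (fun z : ℂ => Real.exp (max C M) * ‖(1 + z) / 2‖ ^ ε) (𝓝 (-1))
            (𝓝 (Real.exp (max C M) * ‖(1 + (-1 : ℂ)) / 2‖ ^ ε)) := by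
          apply Tendsto.const_mul
          apply Tendsto.rpow_const _ (Or.inr hε.le)
          exact Continuous.tendsto (by fun_prop) _
        have h3 : Real.exp (max C M) * ‖(1 + (-1 : ℂ)) / 2‖ ^ ε = 0 := by
          have : ((1 : ℂ) + -1) / 2 = 0 := by simp
          rw [this, norm_zero, Real.zero_rpow hε.ne', mul_zero]
        rw [h3] at h2
        exact h2.mono_left nhdsWithin_le_nhds
    have hneg2 : ContinuousWithinAt H (closedBall 0 1) (exp (φ * I)) := by
      rw [ContinuousWithinAt, hzero2]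
      apply squeeze_zero_norm' (a := fun z => Real.exp (max C M) * ‖vv φ z‖ ^ ε)
      · filter_upwards [self_mem_nhdsWithin] with z hz using hle2 z hz
      · have h2 : Tendsto (fun z : ℂ => Real.exp (max C M) * ‖vv φ z‖ ^ ε) (𝓝 (exp (φ * I)))
            (𝓝 (Real.exp (max C M) * ‖vv φ (exp (φ * I))‖ ^ ε)) := by
          apply Tendsto.const_mul
          apply Tendsto.rpow_const _ (Or.inr hε.le)
          exact (hvc.norm).tendsto _
        rw [vv_zero, norm_zero, Real.zero_rpow hε.ne', mul_zero] at h2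
        exact h2.mono_left nhdsWithin_le_nhds
    have hcont : ContinuousOn H (closedBall 0 1) := by
      intro z hz
      by_cases h : z = -1
      · rw [h]; exact hneg1
      by_cases h' : z = exp (φ * I)
      · rw [h']; exact hneg2
      exact (hHD z (hmem z hz h h')).mono_left (hDopen z (hmem z hz h h'))
    have hdiff : DifferentiableOn ℂ H (ball 0 1) := by
      intro z hz
      have hz1 : DifferentiableAt ℂ L z := hd.differentiableAt (isOpen_ball.mem_nhds hz)
      apply DifferentiableAt.differentiableWithinAt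
      apply DifferentiableAt.mul (hz1.const_mul _).cexp
      apply DifferentiableAt.mul
      · apply DifferentiableAt.cpow (by fun_prop) (by fun_prop)
        exact half_mem_slitPlane (ball_subset_D hz)
      · apply DifferentiableAt.cpow (by unfold vv; fun_prop) (by fun_prop)
        exact vv_mem_slit (ball_subset_D2 hz)
    have hdc : DiffContOnCl ℂ H (ball 0 1) := by
      refine ⟨hdiff, ?_⟩
      rwa [closure_ball _ one_ne_zero]
    intro z hz
    rw [← hHn]
    apply norm_le_of_forall_mem_frontier_norm_le isBounded_ball hdc _ (subset_closure hz)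
    intro x hx
    rw [frontier_ball _ one_ne_zero] at hx
    have hx1 : ‖x‖ = 1 := by simpa using hx
    by_cases h : x = -1
    · rw [h, hzero1, norm_zero]; positivity
    by_cases h' : x = exp (φ * I)
    · rw [h', hzero2, norm_zero]; positivity
    rw [hHn]
    have h1 : Real.exp ((L x).im) ≤ Real.exp M := Real.exp_le_exp.2 (hb x hx h h')
    have h2 : ‖(1 + x) / 2‖ ^ ε ≤ 1 :=
      Real.rpow_le_one (norm_nonneg _) (norm_half_le hx1.le) hε.le
    have h3 : ‖vv φ x‖ ^ ε ≤ 1 := Real.rpow_le_one (norm_nonneg _) (vv_norm_le hx1.le) hε.le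
    calc Real.exp ((L x).im) * (‖(1 + x) / 2‖ ^ ε * ‖vv φ x‖ ^ ε) ≤ Real.exp M * (1 * 1) := by
          apply mul_le_mul h1 _ (by positivity) (Real.exp_nonneg _)
          exact mul_le_mul h2 h3 (by positivity) zero_le_one
      _ = Real.exp M := by rw [mul_one, mul_one]
  intro z hz
  have hpos1 : 0 < ‖(1 + z) / 2‖ :=
    norm_pos_iff.mpr (slitPlane_ne_zero (half_mem_slitPlane (ball_subset_D hz)))
  have hpos2 : 0 < ‖vv φ z‖ :=
    norm_pos_iff.mpr (slitPlane_ne_zero (vv_mem_slit (ball_subset_D2 hz)))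
  have h1 : Tendsto (fun ε : ℝ => Real.exp ((L z).im) * (‖(1 + z) / 2‖ ^ ε * ‖vv φ z‖ ^ ε)) (𝓝[>] 0)
      (𝓝 (Real.exp ((L z).im) * (‖(1 + z) / 2‖ ^ (0 : ℝ) * ‖vv φ z‖ ^ (0:ℝ)))) := by
    apply Tendsto.const_mul
    apply Tendsto.mono_left _ nhdsWithin_le_nhds
    exact ((Real.continuousAt_const_rpow hpos1.ne').tendsto).mul ((Real.continuousAt_const_rpow hpos2.ne').tendsto)
  have h2 : Real.exp ((L z).im) * (‖(1 + z) / 2‖ ^ (0 : ℝ) * ‖vv φ z‖ ^ (0:ℝ)) ≤ Real.exp M := by
    apply le_of_tendsto h1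
    filter_upwards [self_mem_nhdsWithin] with ε hε using key ε hε z hz
  rw [Real.rpow_zero, Real.rpow_zero, mul_one, mul_one, Real.exp_le_exp] at h2
  exact h2

/-- Minimum principle with two exceptional boundary points. -/
theorem min_principle2 {φ : ℝ} {L : ℂ → ℂ} (hL : ContinuousOn L (D2 φ)) (hd : DifferentiableOn ℂ L (ball 0 1))
    {M C : ℝ} (hC : ∀ z ∈ ball (0 : ℂ) 1, C ≤ (L z).im)
    (hb : ∀ z ∈ sphere (0 : ℂ) 1, z ≠ -1 → z ≠ exp (φ * I) → M ≤ (L z).im) :
    ∀ z ∈ ball (0 : ℂ) 1, M ≤ (L z).im := by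
  intro z hz
  have := max_principle2 (φ := φ) (L := fun z => -L z) (M := -M) (C := -C) hL.neg hd.neg
    (fun z hz => by rw [neg_im]; linarith [hC z hz])
    (fun z hz h h' => by rw [neg_im]; linarith [hb z hz h h']) z hz
  rw [neg_im] at this
  linarith

end Pool.Agent.H790R2.Tip
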