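import Mathlib
import Pool.Agent.H790R2.TipMax
import Pool.Agent.H790R2.TipCone

set_option autoImplicit false

open Set Filter Topology Complex Metric

namespace Pool.Agent.H790R2.Tip

lemma exp_eq_of_lt {x y : ℝ} (h : exp (x * I) = exp (y * I)) (hxy : |x - y| < 2 * Real.pi) : x = y := by
  rw [exp_eq_exp_iff_exists_int] at h
  obtain ⟨n, hn⟩ := h
  have h1 : x = y + n * (2 * Real.pi) := by
    have := congrArg im hn
    simpa using this
  have h2 : x - y = n * (2 * Real.pi) := by linarith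
  rw [h2, abs_mul, abs_of_pos Real.two_pi_pos] at hxy
  have hpi := Real.pi_pos
  have h3 : |(n:ℝ)| < 1 := by
    by_contra hcon
    push Not at hcon
    nlinarith
  have h4 : n = 0 := by
    have : |n| < 1 := by exact_mod_cast h3
    exact Int.abs_lt_one_iff.1 this
  rw [h4] at h1
  simpa using h1

lemma cont_inv {f : ℂ → ℂ} (hd : DifferentiableOn ℂ f (ball 0 1)) (hi : InjOn f (ball 0 1)) :
    ContinuousOn (Function.invFunOn f (ball 0 1)) (f '' ball 0 1) := by
  have hopen : ∀ s ⊆ ball (0:ℂ) 1, IsOpen s → IsOpen (f '' s) := by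
    have han : AnalyticOnNhd ℂ f (ball 0 1) := hd.analyticOnNhd isOpen_ball
    rcases han.is_constant_or_isOpen (convex_ball (0:ℂ) 1).isPreconnected with h | h
    · exfalso
      obtain ⟨w, hw⟩ := h
      have h0 : (0:ℂ) ∈ ball (0:ℂ) 1 := mem_ball_self one_pos
      have h1 : (1/2:ℂ) ∈ ball (0:ℂ) 1 := by
        rw [mem_ball_zero_iff]; norm_num
      have := hi h0 h1 (by rw [hw 0 h0, hw _ h1])
      norm_num at this
    · exact h
  rw [_root_.continuousOn_iff']
  intro t ht
  refine ⟨f '' (t ∩ ball 0 1), hopen _ inter_subset_right (ht.inter isOpen_ball), ?_⟩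
  ext w
  constructor
  · rintro ⟨h1, z, hz, rfl⟩
    have h2 : Function.invFunOn f (ball 0 1) (f z) = z := hi.leftInvOn_invFunOn hz
    rw [mem_preimage, h2] at h1
    exact ⟨⟨z, ⟨h1, hz⟩, rfl⟩, ⟨z, hz, rfl⟩⟩
  · rintro ⟨⟨z, hz, rfl⟩, -⟩
    have h2 : Function.invFunOn f (ball 0 1) (f z) = z := hi.leftInvOn_invFunOn hz.2
    refine ⟨?_, ⟨z, hz.2, rfl⟩⟩
    rw [mem_preimage, h2]
    exact hz.1

/-- Everything about the branch of the argument of `(f - ω) / ω`. -/
theorem structure_of_slit {f : ℂ → ℂ} {γ : ℝ → ℂ} {φ a b : ℝ} (hf : IsSlitMap f γ) (hγ : InCone a b γ)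
    (ha : -Real.pi < a) (hab : a ≤ b) (hb : b < Real.pi)
    (hφ1 : -Real.pi < φ) (hφ2 : φ < Real.pi) (ht : HasTipAt f (γ 0) φ) :
    ∃ l : ℂ → ℂ, ContinuousOn l (D2 φ) ∧ DifferentiableOn ℂ l (ball 0 1) ∧ l 0 = Real.pi * I ∧
      (∀ z ∈ D2 φ, a ≤ (l z).im ∧ (l z).im ≤ b + 2 * Real.pi) ∧
      (∀ z ∈ sphere (0:ℂ) 1, z ≠ -1 → z ≠ exp (φ * I) → (l z).im ≤ b ∨ a + 2 * Real.pi ≤ (l z).im) ∧
      (∀ z ∈ ball (0:ℂ) 1, exp (l z) = (f z - γ 0) / γ 0) := by
  have hpi := Real.pi_pos
  have h0b : (0:ℂ) ∈ ball (0:ℂ) 1 := mem_ball_self one_pos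
  obtain ⟨ω, hω⟩ : ∃ ω, ω = γ 0 := ⟨_, rfl⟩
  have hωc : ω ∉ f '' ball 0 1 := by
    rw [← mem_compl_iff, hf.compl, hω]
    exact ⟨0, self_mem_Ici, rfl⟩
  have hω0 : ω ≠ 0 := by
    intro h
    apply hωc
    rw [h]
    exact ⟨0, h0b, hf.mem.map_zero⟩
  rw [← hω] at ht
  obtain ⟨fb, hfbc, hfbf, -, hfbs, hfbt, hseq⟩ := exists_boundary hf.mem hφ1 hφ2 ht hωc
  -- the function `q`
  have hq0 : ∀ z ∈ D2 φ, (fb z - ω) / ω ≠ 0 := by
    intro z hz
    apply div_ne_zero _ hω0
    rw [sub_ne_zero]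
    intro h
    have hz1 := mem_D_iff.mp (mem_D2.1 hz).1
    rcases hz1.1.lt_or_eq with h1 | h1
    · have hzb : z ∈ ball (0:ℂ) 1 := by simpa using h1
      rw [hfbf z hzb] at h
      exact hωc ⟨z, hzb, h⟩
    · apply (mem_D2.1 hz).2
      have hcl : z ∈ closure (ball (0:ℂ) 1) := by
        rw [closure_ball _ one_ne_zero, mem_closedBall_zero_iff, h1]
      obtain ⟨u, hu1, hu2⟩ := mem_closure_iff_seq_limit.1 hcl
      have hlim : Tendsto (fun n => f (u n)) atTop (𝓝 ω) := by
        have h2 : Tendsto u atTop (𝓝[D] z) := by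
          rw [tendsto_nhdsWithin_iff]
          exact ⟨hu2, Eventually.of_forall fun n => ball_subset_D (hu1 n)⟩
        have h3 := (hfbc z (mem_D2.1 hz).1).tendsto.comp h2
        rw [h] at h3
        refine h3.congr fun n => ?_
        exact hfbf _ (hu1 n)
      exact tendsto_nhds_unique hu2 (hseq u hu1 hlim)
  have hqc : ContinuousOn (fun z => (fb z - ω) / ω) (D2 φ) :=
    ((hfbc.mono D2_sub).sub continuousOn_const).div_const _
  have h0D : (0:ℂ) ∈ D2 φ := ball_subset_D2 h0b
  obtain ⟨l, hlc, hl0, hle⟩ := exists_log_on_convex (convex_D2 φ) h0D hqc hq0 (e := Real.pi * I) (by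
    rw [exp_pi_mul_I, hfbf 0 h0b, hf.mem.map_zero, zero_sub, neg_div, div_self hω0])
  have hleb : ∀ z ∈ ball (0:ℂ) 1, exp (l z) = (f z - ω) / ω := by
    intro z hz
    rw [hle z (ball_subset_D2 hz), hfbf z hz]
  -- the open sector consists of values of `f`
  have hW : ∀ r θ : ℝ, 0 < r → b < θ → θ < a + 2 * Real.pi → ω * (1 + r * exp (θ * I)) ∈ f '' ball 0 1 := by
    intro r θ hr h1 h2
    by_contra hcon
    rw [← mem_compl_iff, hf.compl] at hcon
    have e1 : (ω * (1 + r * exp (θ * I)) - ω) / ω = r * exp (θ * I) := by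
      field_simp; ring
    have hne : ω * (1 + r * exp (θ * I)) ≠ ω := by
      intro h
      rw [h, sub_self, zero_div] at e1
      exact (mul_ne_zero (by exact_mod_cast hr.ne') (exp_ne_zero _)) e1.symm
    obtain ⟨θ', h3, h4⟩ := hγ _ hcon (by rw [← hω]; exact hne)
    rw [← hω, e1, norm_mul, norm_exp_ofReal_mul_I, mul_one, norm_real, Real.norm_eq_abs, abs_of_pos hr] at h4
    have h5 : exp (θ * I) = exp (θ' * I) := mul_left_cancel₀ (by exact_mod_cast hr.ne') h4
    have h6 := exp_eq_of_lt h5 (by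
      rw [abs_lt]
      constructor <;> linarith [h3.1, h3.2])
    rw [h6] at h1
    linarith [h3.2]
  -- the branch on the open sector
  have hginv : ∀ w ∈ f '' ball 0 1, Function.invFunOn f (ball 0 1) w ∈ ball (0:ℂ) 1 ∧
      f (Function.invFunOn f (ball 0 1) w) = w := by
    rintro w ⟨z, hz, rfl⟩
    have h2 : Function.invFunOn f (ball 0 1) (f z) = z := hf.mem.inj.leftInvOn_invFunOn hz
    rw [h2]
    exact ⟨hz, rfl⟩
  have hgc := cont_inv hf.mem.diff hf.mem.inj
  have hbr : ∀ r θ : ℝ, 0 < r → b < θ → θ < a + 2 * Real.pi →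
      l (Function.invFunOn f (ball 0 1) (ω * (1 + r * exp (θ * I)))) = Real.log r + θ * I := by
    intro r θ hr h1 h2
    let S : Set (ℝ × ℝ) := Ioi 0 ×ˢ Ioo b (a + 2 * Real.pi)
    have hS : IsPreconnected S := ((convex_Ioi 0).prod (convex_Ioo _ _)).isPreconnected
    let c : ℝ × ℝ → ℂ := fun p => l (Function.invFunOn f (ball 0 1) (ω * (1 + p.1 * exp (p.2 * I)))) -
      (Real.log p.1 + p.2 * I)
    have hcc : ContinuousOn c S := by
      apply ContinuousOn.sub
      · apply hlc.comp (t := D2 φ)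
        · apply hgc.comp (Continuous.continuousOn (by fun_prop))
          intro p hp
          exact hW p.1 p.2 hp.1 hp.2.1 hp.2.2
        · intro p hp
          exact ball_subset_D2 (hginv _ (hW p.1 p.2 hp.1 hp.2.1 hp.2.2)).1
      · apply ContinuousOn.add
        · apply continuous_ofReal.comp_continuousOn
          apply ContinuousOn.log continuous_fst.continuousOn
          intro p hp
          exact (ne_of_gt hp.1)
        · exact Continuous.continuousOn (by fun_prop)
    have hexp : ∀ p ∈ S, exp (c p) = 1 := by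
      intro p hp
      have h3 := hginv _ (hW p.1 p.2 hp.1 hp.2.1 hp.2.2)
      have hp1 : 0 < p.1 := hp.1
      simp only [c]
      rw [exp_sub, hleb _ h3.1, h3.2, exp_add, ← ofReal_exp, Real.exp_log hp1]
      have h4 : (p.1 : ℂ) * exp (p.2 * I) ≠ 0 := mul_ne_zero (by exact_mod_cast hp1.ne') (exp_ne_zero _)
      rw [div_eq_one_iff_eq h4]
      field_simp; ring
    have hp1 : (r, θ) ∈ S := ⟨hr, h1, h2⟩
    have hp2 : ((1:ℝ), Real.pi) ∈ S := ⟨by show (0:ℝ) < 1; exact one_pos, hb, by show Real.pi < a + 2 * Real.pi; linarith⟩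
    have h5 := eq_of_exp_eq_one hS hcc hexp hp1 hp2
    have h6 : c (1, Real.pi) = 0 := by
      simp only [c]
      rw [exp_pi_mul_I, Real.log_one]
      have h7 : ω * (1 + ((1:ℝ):ℂ) * -1) = 0 := by push_cast; ring
      have h8 : Function.invFunOn f (ball 0 1) 0 = 0 := by
        have := hf.mem.inj.leftInvOn_invFunOn h0b
        rwa [hf.mem.map_zero] at this
      rw [h7, h8, hl0]
      push_cast; ring
    rw [h6] at h5
    simp only [c] at h5
    exact sub_eq_zero.1 h5
  have hgap : ∀ z ∈ D2 φ, ∀ k : ℤ, b < (l z).im - 2 * Real.pi * k → (l z).im - 2 * Real.pi * k < a + 2 * Real.pi →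
      z ∈ ball (0:ℂ) 1 ∧ (l z).im < a + 2 * Real.pi ∧ b < (l z).im := by
    intro z hz k h1 h2
    obtain ⟨r, hr⟩ : ∃ r, r = Real.exp (l z).re := ⟨_, rfl⟩
    obtain ⟨θ, hθ⟩ : ∃ θ, θ = (l z).im - 2 * Real.pi * k := ⟨_, rfl⟩
    have hr0 : 0 < r := by rw [hr]; exact Real.exp_pos _
    rw [← hθ] at h1 h2
    have e1 : exp (l z) = r * exp (θ * I) := by
      have : l z = ((l z).re : ℂ) + (θ * I + k * (2 * Real.pi * I)) := by
        apply Complex.ext
        · simp
        · simp [hθ]; ring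
      rw [this, exp_add, exp_add, ← ofReal_exp, hr, exp_int_mul_two_pi_mul_I, mul_one, ofReal_exp]
    have e2 : fb z = ω * (1 + r * exp (θ * I)) := by
      have := hle z hz
      rw [e1] at this
      rw [this]
      field_simp
      ring_nf
    have h3 := hW r θ hr0 h1 h2
    have hzb : z ∈ ball (0:ℂ) 1 := by
      have hz1 := mem_D_iff.mp (mem_D2.1 hz).1
      rcases hz1.1.lt_or_eq with h4 | h4
      · simpa using h4
      · exfalso
        apply hfbs z (by simpa using h4) hz1.2
        rw [e2]; exact h3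
    have h4 := hbr r θ hr0 h1 h2
    have h5 : Function.invFunOn f (ball 0 1) (ω * (1 + r * exp (θ * I))) = z := by
      rw [← e2, hfbf z hzb]
      exact hf.mem.inj.leftInvOn_invFunOn hzb
    rw [h5] at h4
    have h6 : (l z).im = θ := by rw [h4]; simp
    rw [h6]
    exact ⟨hzb, h2, h1⟩
  have hcim : ContinuousOn (fun z => (l z).im) (D2 φ) := continuous_im.comp_continuousOn hlc
  have hl0im : (l 0).im = Real.pi := by rw [hl0]; simp
  have hpc : IsPreconnected (D2 φ) := (convex_D2 φ).isPreconnected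
  have hrange : ∀ z ∈ D2 φ, a ≤ (l z).im ∧ (l z).im ≤ b + 2 * Real.pi := by
    intro z hz
    constructor
    · by_contra hcon
      push Not at hcon
      let y : ℝ := max (l z).im ((b - 2 * Real.pi + a) / 2)
      have hy1 : y < a := max_lt hcon (by linarith)
      have hy2 : b - 2 * Real.pi < y := lt_of_lt_of_le (by linarith) (le_max_right _ _)
      obtain ⟨z', hz', hzy⟩ := hpc.intermediate_value hz h0D hcim ⟨le_max_left _ _, by
        show y ≤ (l 0).im
        rw [hl0im]; linarith⟩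
      have hzy' : (l z').im = y := hzy
      have := hgap z' hz' (-1) (by rw [hzy']; push_cast; linarith) (by rw [hzy']; push_cast; linarith)
      rw [hzy'] at this
      linarith [this.2.2]
    · by_contra hcon
      push Not at hcon
      let y : ℝ := min (l z).im ((b + 2 * Real.pi + (a + 4 * Real.pi)) / 2)
      have hy1 : b + 2 * Real.pi < y := lt_min hcon (by linarith)
      have hy2 : y < a + 4 * Real.pi := lt_of_le_of_lt (min_le_right _ _) (by linarith)
      obtain ⟨z', hz', hzy⟩ := hpc.intermediate_value h0D hz hcim ⟨by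
        show (l 0).im ≤ y
        rw [hl0im]; linarith, min_le_left _ _⟩
      have hzy' : (l z').im = y := hzy
      have := hgap z' hz' 1 (by rw [hzy']; push_cast; linarith) (by rw [hzy']; push_cast; linarith)
      rw [hzy'] at this
      linarith [this.2.1]
  refine ⟨l, hlc, ?_, hl0, hrange, ?_, ?_⟩
  · intro z hz
    have hzn : ball (0:ℂ) 1 ∈ 𝓝 z := isOpen_ball.mem_nhds hz
    apply DifferentiableAt.differentiableWithinAt
    have hdf : DifferentiableAt ℂ (fun z => (f z - ω) / ω) z :=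
      ((hf.mem.diff.differentiableAt hzn).sub_const _).div_const _
    apply differentiableAt_of_exp (hlc.continuousAt (mem_of_superset hzn ball_subset_D2)) _ hdf
    filter_upwards [hzn] with x hx using hleb x hx
  · intro z hz h1 h2
    by_contra hcon
    push Not at hcon
    have hzD : z ∈ D2 φ := by
      rw [mem_D2, mem_D_iff]
      exact ⟨⟨(mem_sphere_zero_iff_norm.1 hz).le, h1⟩, h2⟩
    have h3 := (hgap z hzD 0 (by simpa using hcon.1) (by simpa using hcon.2)).1
    rw [mem_ball_zero_iff, mem_sphere_zero_iff_norm.1 hz] at h3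
    exact lt_irrefl _ h3
  · rw [← hω]; exact hleb

end Pool.Agent.H790R2.Tip
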