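import Mathlib
import Pool.Agent.H790R2.TipUpper

set_option autoImplicit false

open Set Filter Topology Complex Metric

namespace Pool.Agent.H790R2.Tip

/-- A point of the circle other than `-1`. -/
theorem exists_angle {z : ℂ} (hz : z ∈ sphere (0 : ℂ) 1) (hz1 : z ≠ -1) :
    -Real.pi < arg z ∧ arg z < Real.pi ∧ z = exp (arg z * I) := by
  have hzn : ‖z‖ = 1 := by simpa using hz
  have h1 : z = exp (arg z * I) := by
    have := norm_mul_exp_arg_mul_I z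
    rw [hzn, ofReal_one, one_mul] at this
    exact this.symm
  refine ⟨neg_pi_lt_arg z, lt_of_le_of_ne (arg_le_pi z) ?_, h1⟩
  intro h
  apply hz1
  rw [h1, h, exp_pi_mul_I]

lemma uu_circle {ψ θ : ℝ} (h1 : -Real.pi < θ) (h2 : θ < Real.pi) :
    uu ψ (exp (θ * I)) = ((Real.sin (ψ - θ / 2) / Real.cos (θ / 2) : ℝ) : ℂ) * I := by
  have hcos : 0 < Real.cos (θ / 2) := Real.cos_pos_of_mem_Ioo ⟨by linarith, by linarith⟩
  have hc : (Real.cos (θ / 2) : ℂ) ≠ 0 := by exact_mod_cast hcos.ne'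
  have e1 : exp (θ * I) = ee (θ / 2) * ee (θ / 2) := by
    unfold ee
    rw [← exp_add]; congr 1; push_cast; ring
  have e2 : 1 + exp (θ * I) = ee (θ / 2) * (2 * Real.cos (θ / 2)) := by
    rw [e1, ← ee_add, mul_add, ee_mul]; ring
  have e3 : ee ψ - ee (-ψ) * exp (θ * I) = ee (θ / 2) * (2 * Real.sin (ψ - θ / 2) * I) := by
    have e4 : 2 * (Real.sin (ψ - θ / 2) : ℂ) * I = ee (ψ - θ / 2) - ee (-(ψ - θ / 2)) := by
      unfold ee
      push_cast
      rw [Complex.sin]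
      have : I * I = -1 := I_mul_I
      ring_nf
      rw [I_sq]; ring
    rw [e4, e1, mul_sub]
    have e5 : ee (θ / 2) * ee (ψ - θ / 2) = ee ψ := by
      unfold ee; rw [← exp_add]; congr 1; push_cast; ring
    have e6 : ee (θ / 2) * ee (-(ψ - θ / 2)) = ee (-ψ) * (ee (θ / 2) * ee (θ / 2)) := by
      unfold ee; rw [← exp_add, ← exp_add, ← exp_add]; congr 1; push_cast; ring
    rw [e5, e6]
  unfold uu
  rw [e2, e3, mul_div_mul_left _ _ (ee_ne _)]
  rw [ofReal_div]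
  field_simp

lemma uu_mem_slit {ψ : ℝ} (hψ : 0 < Real.cos ψ) {z : ℂ} (hz : z ∈ D2 (2 * ψ)) : uu ψ z ∈ slitPlane := by
  have hzD := mem_D_iff.mp (mem_D2.1 hz).1
  have h1 : 1 + z ≠ 0 := by
    intro h; apply hzD.2; linear_combination h
  have h2 := uu_re (ψ := ψ) h1
  have h3 : 0 < ‖1 + z‖ ^ 2 := by have := norm_pos_iff.2 h1; positivity
  rcases hzD.1.lt_or_eq with h4 | h4
  · left
    exact uu_re_pos hψ (by simpa using h4)
  · right
    rw [h4, one_pow, sub_self, mul_zero, zero_div] at h2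
    intro h5
    have h6 : uu ψ z = 0 := Complex.ext h2 h5
    unfold uu at h6
    rw [div_eq_zero_iff, or_iff_left h1] at h6
    apply (mem_D2.1 hz).2
    rw [← ee_sq]
    linear_combination (-ee ψ) * h6 - z * ee_mul ψ

lemma arg_I_mul_pos {x : ℝ} (hx : 0 < x) : arg ((x : ℂ) * I) = Real.pi / 2 := by
  rw [arg_real_mul _ hx, arg_I]

lemma arg_I_mul_neg {x : ℝ} (hx : x < 0) : arg ((x : ℂ) * I) = -(Real.pi / 2) := by
  have : (x : ℂ) * I = ((-x : ℝ) : ℂ) * (-I) := by push_cast; ring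
  rw [this, arg_real_mul _ (by linarith), arg_neg_I]

lemma arg_uu_circle {ψ θ : ℝ} (hψ1 : -(Real.pi / 2) < ψ) (hψ2 : ψ < Real.pi / 2) (h1 : -Real.pi < θ) (h2 : θ < Real.pi) :
    (θ < 2 * ψ → arg (uu ψ (exp (θ * I))) = Real.pi / 2) ∧
    (2 * ψ < θ → arg (uu ψ (exp (θ * I))) = -(Real.pi / 2)) := by
  have hcos : 0 < Real.cos (θ / 2) := Real.cos_pos_of_mem_Ioo ⟨by linarith, by linarith⟩
  rw [uu_circle h1 h2]
  constructor
  · intro h
    apply arg_I_mul_pos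
    exact div_pos (Real.sin_pos_of_pos_of_lt_pi (by linarith) (by linarith)) hcos
  · intro h
    apply arg_I_mul_neg
    exact div_neg_of_neg_of_pos (Real.sin_neg_of_neg_of_neg_pi_lt (by linarith) (by linarith)) hcos

lemma dichotomy {S : Set ℝ} (hS : IsPreconnected S) {B : ℝ → ℝ} (hB : ContinuousOn B S) {p q : ℝ} (hpq : p < q)
    (h : ∀ x ∈ S, B x ≤ p ∨ q ≤ B x) : (∀ x ∈ S, B x ≤ p) ∨ (∀ x ∈ S, q ≤ B x) := by
  by_contra hcon
  push Not at hcon
  obtain ⟨⟨x, hx, h1⟩, ⟨y, hy, h2⟩⟩ := hcon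
  have h3 := (h x hx).resolve_left (not_le.2 h1)
  have h4 := (h y hy).resolve_right (not_le.2 h2)
  obtain ⟨z, hz, hz2⟩ := hS.intermediate_value hy hx hB (show (p + q) / 2 ∈ Icc (B y) (B x) from ⟨by linarith, by linarith⟩)
  have hz3 : B z = (p + q) / 2 := hz2
  rcases h z hz with h5 | h5 <;> linarith

/-- Harnack / Schwarz bound for functions with positive real part. -/
lemma harnack {P : ℂ → ℂ} (hd : DifferentiableOn ℂ P (ball 0 1)) (hP : ∀ z ∈ ball (0:ℂ) 1, 0 < (P z).re)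
    {z : ℂ} (hz : z ∈ ball (0:ℂ) 1) : ‖P z‖ * (1 - ‖z‖) ≤ 2 * ‖P 0‖ := by
  have h0b : (0:ℂ) ∈ ball (0:ℂ) 1 := mem_ball_self one_pos
  have hz1 : ‖z‖ < 1 := by simpa using hz
  have hden : ∀ w ∈ ball (0:ℂ) 1, P w + (starRingEnd ℂ) (P 0) ≠ 0 := by
    intro w hw h
    have := congrArg re h
    simp only [add_re, conj_re, zero_re] at this
    linarith [hP w hw, hP 0 h0b]
  let σ : ℂ → ℂ := fun w => (P w - P 0) / (P w + (starRingEnd ℂ) (P 0))
  have hσd : DifferentiableOn ℂ σ (ball 0 1) := (hd.sub_const _).div (hd.add_const _) hden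
  have hσ0 : σ 0 = 0 := by simp [σ]
  have hσ1 : ∀ w ∈ ball (0:ℂ) 1, ‖σ w‖ ≤ 1 := by
    intro w hw
    simp only [σ]
    rw [norm_div, div_le_one (norm_pos_iff.2 (hden w hw))]
    apply le_of_sq_le_sq _ (norm_nonneg _)
    have : ‖P w - P 0‖ ^ 2 = ‖P w + (starRingEnd ℂ) (P 0)‖ ^ 2 - 4 * (P w).re * (P 0).re := by
      simp only [← Complex.normSq_eq_norm_sq, Complex.normSq_apply, sub_re, sub_im, add_re, add_im, conj_re, conj_im]
      ring
    rw [this]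
    have := mul_pos (hP w hw) (hP 0 h0b)
    nlinarith
  have hmaps : MapsTo σ (ball 0 1) (closedBall (σ 0) 1) := by
    intro w hw
    rw [hσ0, mem_closedBall_zero_iff]
    exact hσ1 w hw
  have h1 := Complex.norm_dslope_le_div_of_mapsTo_ball hσd hmaps hz
  have h2 := sub_smul_dslope σ 0 z
  rw [sub_zero, hσ0, sub_zero, smul_eq_mul] at h2
  have h3 : ‖dslope σ 0 z‖ ≤ 1 := by simpa using h1
  have hσz : ‖σ z‖ ≤ ‖z‖ := by
    rw [← h2, norm_mul]
    exact mul_le_of_le_one_right (norm_nonneg _) h3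
  have h4 : P z * (1 - σ z) = P 0 + (starRingEnd ℂ) (P 0) * σ z := by
    simp only [σ]
    have := hden z hz
    field_simp
    ring
  have h5 : ‖P z‖ * ‖1 - σ z‖ ≤ 2 * ‖P 0‖ := by
    rw [← norm_mul, h4]
    calc ‖P 0 + (starRingEnd ℂ) (P 0) * σ z‖ ≤ ‖P 0‖ + ‖(starRingEnd ℂ) (P 0) * σ z‖ := norm_add_le _ _
      _ = ‖P 0‖ + ‖P 0‖ * ‖σ z‖ := by rw [norm_mul, RCLike.norm_conj]
      _ ≤ ‖P 0‖ + ‖P 0‖ * 1 := by
          gcongr
          exact hσ1 z hz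
      _ = 2 * ‖P 0‖ := by ring
  have h6 : 1 - ‖z‖ ≤ ‖1 - σ z‖ := by
    have := norm_sub_norm_le (1:ℂ) (σ z)
    rw [norm_one] at this
    linarith
  calc ‖P z‖ * (1 - ‖z‖) ≤ ‖P z‖ * ‖1 - σ z‖ := mul_le_mul_of_nonneg_left h6 (norm_nonneg _)
    _ ≤ _ := h5

end Pool.Agent.H790R2.Tip
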