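import Mathlib
import Pool.Agent.H790R2.TipFinal

set_option autoImplicit false

open Set Filter Topology Complex Metric

namespace Pool.Agent.H790R2.Tip

lemma tendsto_norm_of_tip {f : ℂ → ℂ} (hf : ClassS f) {ω : ℂ} {φ : ℝ} (hφ1 : -Real.pi < φ)
    (hφ2 : φ < Real.pi) (ht : HasTipAt f ω φ) (hω : ω ∉ f '' ball 0 1) :
    Tendsto (fun z => ‖f z‖) (𝓝[ball 0 1] (-1)) atTop := by
  obtain ⟨fb, -, hfbf, hlim, -, -, -⟩ := exists_boundary hf hφ1 hφ2 ht hω
  refine (hlim.mono_left (nhdsWithin_mono _ ball_subset_D)).congr' ?_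
  filter_upwards [self_mem_nhdsWithin] with z hz
  rw [hfbf z hz]

/-- The growth argument excluding the wrong orientation. -/
lemma no_wrong_orientation {f : ℂ → ℂ} {ω : ℂ} {ψ a b : ℝ} (hψ : 0 < Real.cos ψ) (hab : a ≤ b)
    (hba : b - a < 2 * Real.pi) (hω : ω ≠ 0)
    (hlim : Tendsto (fun z => ‖f z‖) (𝓝[ball 0 1] (-1)) atTop) {l : ℂ → ℂ}
    (hd : DifferentiableOn ℂ l (ball 0 1))
    (he : ∀ z ∈ ball (0:ℂ) 1, exp (l z) = (f z - ω) / ω)
    (hb : ∀ z ∈ ball (0:ℂ) 1, a + Real.pi ≤ (l z + 2 * log (uu ψ z)).im ∧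
      (l z + 2 * log (uu ψ z)).im ≤ b + Real.pi) : False := by
  have hpi := Real.pi_pos
  let κ : ℝ := ((b - a) / 2 + Real.pi) / 2
  have hκ1 : (b - a) / 2 < κ := by simp only [κ]; linarith
  have hκ2 : κ < Real.pi := by simp only [κ]; linarith
  have hκ0 : 0 < κ := by simp only [κ]; linarith
  let L : ℂ → ℂ := fun z => l z + 2 * log (uu ψ z)
  have hLd : DifferentiableOn ℂ L (ball 0 1) := by
    intro z hz
    have h1 : DifferentiableAt ℂ (uu ψ) z := (uu_hasDerivAt (one_add_ne hz)).differentiableAt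
    have h2 : DifferentiableAt ℂ l z := hd.differentiableAt (isOpen_ball.mem_nhds hz)
    apply DifferentiableAt.differentiableWithinAt
    exact h2.add ((h1.clog (Or.inl (uu_re_pos hψ hz))).const_mul 2)
  let P : ℂ → ℂ := fun z => exp ((L z - ((a + b) / 2 + Real.pi : ℝ) * I) * ((Real.pi / (2 * κ) : ℝ) : ℂ))
  have hPd : DifferentiableOn ℂ P (ball 0 1) := ((hLd.sub_const _).mul_const _).cexp
  have hPre : ∀ z ∈ ball (0:ℂ) 1, 0 < (P z).re := by
    intro z hz
    simp only [P]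
    rw [exp_re]
    apply mul_pos (Real.exp_pos _)
    apply Real.cos_pos_of_mem_Ioo
    rw [im_mul_ofReal]
    have h1 : (L z - ((a + b) / 2 + Real.pi : ℝ) * I).im = (L z).im - ((a + b) / 2 + Real.pi) := by
      rw [sub_im, im_ofReal_mul, I_im, mul_one]
    rw [h1]
    have h2 := hb z hz
    have h3 : |(L z).im - ((a + b) / 2 + Real.pi)| < κ := by
      rw [abs_lt]
      constructor
      · linarith [h2.1]
      · linarith [h2.2]
    have h4 : |((L z).im - ((a + b) / 2 + Real.pi)) * (Real.pi / (2 * κ))| < Real.pi / 2 := by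
      rw [abs_mul, abs_of_pos (show 0 < Real.pi / (2 * κ) by positivity)]
      calc _ < κ * (Real.pi / (2 * κ)) := mul_lt_mul_of_pos_right h3 (by positivity)
        _ = Real.pi / 2 := by field_simp
    rw [abs_lt] at h4
    exact h4
  have hnormP : ∀ z, ‖P z‖ = Real.exp ((L z).re * (Real.pi / (2 * κ))) := by
    intro z
    simp only [P]
    rw [norm_exp, re_mul_ofReal]
    congr 2
    simp
  -- along the radius
  have hrad : ∀ t ∈ Ioo (0:ℝ) 1, (l (-(t:ℂ))).re ≤
      2 * κ / Real.pi * (Real.log (2 * ‖P 0‖) - Real.log (1 - t)) - 2 * (Real.log (Real.cos ψ) - Real.log (1 - t)) := by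
    intro t ht
    have htn : ‖(-(t:ℂ))‖ = t := by rw [norm_neg, norm_real, Real.norm_eq_abs, abs_of_pos ht.1]
    have hz : (-(t:ℂ)) ∈ ball (0:ℂ) 1 := by rw [mem_ball_zero_iff, htn]; exact ht.2
    have h1t : 0 < 1 - t := by linarith [ht.2]
    have h1 := harnack hPd hPre hz
    rw [htn, hnormP] at h1
    have hP0 : 0 < ‖P 0‖ := by rw [hnormP]; exact Real.exp_pos _
    have h2 : (L (-(t:ℂ))).re * (Real.pi / (2 * κ)) + Real.log (1 - t) ≤ Real.log (2 * ‖P 0‖) := by
      have := Real.log_le_log (mul_pos (Real.exp_pos _) h1t) h1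
      rwa [Real.log_mul (Real.exp_ne_zero _) h1t.ne', Real.log_exp] at this
    have h3 : (L (-(t:ℂ))).re ≤ 2 * κ / Real.pi * (Real.log (2 * ‖P 0‖) - Real.log (1 - t)) := by
      have e : (L (-(t:ℂ))).re = 2 * κ / Real.pi * ((L (-(t:ℂ))).re * (Real.pi / (2 * κ))) := by
        field_simp
      rw [e]
      apply mul_le_mul_of_nonneg_left _ (by positivity)
      linarith
    have h4 : (L (-(t:ℂ))).re = (l (-(t:ℂ))).re + 2 * Real.log ‖uu ψ (-(t:ℂ))‖ := by
      simp only [L]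
      rw [add_re]
      congr 1
      rw [show (2:ℂ) = ((2:ℝ):ℂ) by norm_num, re_ofReal_mul, log_re]
    have h5 : Real.log (Real.cos ψ) - Real.log (1 - t) ≤ Real.log ‖uu ψ (-(t:ℂ))‖ := by
      rw [← Real.log_div hψ.ne' h1t.ne']
      apply Real.log_le_log (by positivity)
      have h6 : (uu ψ (-(t:ℂ))).re = Real.cos ψ * (1 + t) / (1 - t) := by
        rw [uu_re (one_add_ne hz), htn]
        have : ‖1 + -(t:ℂ)‖ = 1 - t := by
          rw [show (1 + -(t:ℂ)) = ((1 - t : ℝ) : ℂ) by push_cast; ring, norm_real, Real.norm_eq_abs, abs_of_pos h1t]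
        rw [this]
        field_simp
        ring
      have h7 : Real.cos ψ / (1 - t) ≤ (uu ψ (-(t:ℂ))).re := by
        rw [h6]
        apply div_le_div_of_nonneg_right _ h1t.le
        nlinarith [ht.1]
      exact h7.trans ((le_abs_self _).trans (abs_re_le_norm _))
    rw [h4] at h3
    linarith
  -- `f` tends to infinity along the radius
  have hpath : Tendsto (fun t : ℝ => (-(t:ℂ))) (𝓝[<] 1) (𝓝[ball 0 1] (-1)) := by
    rw [tendsto_nhdsWithin_iff]
    constructor
    · have : Tendsto (fun t : ℝ => (-(t:ℂ))) (𝓝 1) (𝓝 (-((1:ℝ):ℂ))) := Continuous.tendsto (by fun_prop) _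
      rw [ofReal_one] at this
      exact this.mono_left nhdsWithin_le_nhds
    · have h0 : ∀ᶠ t : ℝ in 𝓝[<] 1, 0 < t := by
        apply eventually_nhdsWithin_of_eventually_nhds
        exact lt_mem_nhds one_pos
      filter_upwards [self_mem_nhdsWithin, h0] with t ht h0
      have ht' : t < 1 := ht
      rw [mem_ball_zero_iff, norm_neg, norm_real, Real.norm_eq_abs, abs_of_pos h0]
      exact ht'
  have hf1 : Tendsto (fun t : ℝ => ‖f (-(t:ℂ))‖) (𝓝[<] 1) atTop := hlim.comp hpath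
  have hf2 : Tendsto (fun t : ℝ => ‖(f (-(t:ℂ)) - ω) / ω‖) (𝓝[<] 1) atTop := by
    have h1 : Tendsto (fun t : ℝ => (‖f (-(t:ℂ))‖ + -‖ω‖) / ‖ω‖) (𝓝[<] 1) atTop := by
      apply Tendsto.atTop_div_const (norm_pos_iff.2 hω)
      exact tendsto_atTop_add_const_right _ _ hf1
    apply tendsto_atTop_mono _ h1
    intro t
    rw [norm_div]
    apply div_le_div_of_nonneg_right _ (norm_nonneg _)
    have := norm_sub_norm_le (f (-(t:ℂ))) ω
    linarith
  have hf3 : Tendsto (fun t : ℝ => (l (-(t:ℂ))).re) (𝓝[<] 1) atTop := by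
    refine (Real.tendsto_log_atTop.comp hf2).congr' ?_
    have h0 : ∀ᶠ t : ℝ in 𝓝[<] 1, 0 < t := by
      apply eventually_nhdsWithin_of_eventually_nhds
      exact lt_mem_nhds one_pos
    filter_upwards [self_mem_nhdsWithin, h0] with t ht h0
    have ht' : t < 1 := ht
    have hz : (-(t:ℂ)) ∈ ball (0:ℂ) 1 := by
      rw [mem_ball_zero_iff, norm_neg, norm_real, Real.norm_eq_abs, abs_of_pos h0]
      exact ht'
    simp only [Function.comp]
    rw [← he _ hz, norm_exp, Real.log_exp]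
  -- the right-hand side is bounded above
  have hlog : ∀ᶠ t : ℝ in 𝓝[<] 1, Real.log (1 - t) ≤ 0 := by
    have h0 : ∀ᶠ t : ℝ in 𝓝[<] 1, 0 < t := by
      apply eventually_nhdsWithin_of_eventually_nhds
      exact lt_mem_nhds one_pos
    filter_upwards [self_mem_nhdsWithin, h0] with t ht h0
    have ht' : t < 1 := ht
    exact Real.log_nonpos (by linarith) (by linarith)
  have h0 : ∀ᶠ t : ℝ in 𝓝[<] 1, 0 < t := by
    apply eventually_nhdsWithin_of_eventually_nhds
    exact lt_mem_nhds one_pos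
  have hbig := hf3.eventually (eventually_gt_atTop (2 * κ / Real.pi * Real.log (2 * ‖P 0‖) - 2 * Real.log (Real.cos ψ)))
  obtain ⟨t, h1, h2, h3, h4⟩ := (hbig.and (hlog.and (h0.and self_mem_nhdsWithin))).exists
  have h4' : t < 1 := h4
  have h5 := hrad t ⟨h3, h4'⟩
  have h6 : 2 * κ / Real.pi < 2 := by
    rw [div_lt_iff₀ hpi]; linarith
  nlinarith

/-- Position of the tip. -/
theorem tip_mem {f : ℂ → ℂ} {γ : ℝ → ℂ} {φ a b : ℝ} (hf : IsSlitMap f γ) (hγ : InCone a b γ)
    (ha : -Real.pi < a) (hab : a ≤ b) (hb : b < Real.pi)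
    (hφ1 : -Real.pi < φ) (hφ2 : φ < Real.pi) (ht : HasTipAt f (γ 0) φ) :
    -b ≤ φ ∧ φ ≤ -a := by
  have hpi := Real.pi_pos
  obtain ⟨ψ, hψφ⟩ : ∃ ψ, ψ = φ / 2 := ⟨_, rfl⟩
  have hφψ : φ = 2 * ψ := by linarith
  have hψ1 : -(Real.pi / 2) < ψ := by linarith
  have hψ2 : ψ < Real.pi / 2 := by linarith
  have hψ : 0 < Real.cos ψ := Real.cos_pos_of_mem_Ioo ⟨hψ1, hψ2⟩
  obtain ⟨l, hlc, hld, hl0, hrange, hdich, hexp⟩ := structure_of_slit hf hγ ha hab hb hφ1 hφ2 ht
  have h0b : (0:ℂ) ∈ ball (0:ℂ) 1 := mem_ball_self one_pos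
  have hl0im : (l 0).im = Real.pi := by rw [hl0]; simp
  -- points of the circle
  have hpt : ∀ θ : ℝ, -Real.pi < θ → θ < Real.pi → θ ≠ φ → exp (θ * I) ∈ sphere (0:ℂ) 1 ∧
      exp (θ * I) ≠ -1 ∧ exp (θ * I) ≠ exp (φ * I) ∧ exp (θ * I) ∈ D2 φ := by
    intro θ h1 h2 h3
    obtain ⟨e1, e2, e3⟩ := exp_mul_I_mem h1 h2
    have e4 : exp (θ * I) ≠ exp (φ * I) := by
      intro h
      exact h3 (exp_eq_of_lt h (by rw [abs_lt]; constructor <;> linarith))
    exact ⟨e1, e2, e4, mem_D2.2 ⟨e3, e4⟩⟩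
  have hcB : ∀ S : Set ℝ, (∀ θ ∈ S, -Real.pi < θ ∧ θ < Real.pi ∧ θ ≠ φ) →
      ContinuousOn (fun θ : ℝ => (l (exp (θ * I))).im) S := by
    intro S hS
    apply continuous_im.comp_continuousOn
    apply hlc.comp (Continuous.continuousOn (by fun_prop))
    intro θ hθ
    obtain ⟨h1, h2, h3⟩ := hS θ hθ
    exact (hpt θ h1 h2 h3).2.2.2
  have hJ1 : ∀ θ ∈ Ioo (-Real.pi) φ, -Real.pi < θ ∧ θ < Real.pi ∧ θ ≠ φ :=
    fun θ hθ => ⟨hθ.1, hθ.2.trans hφ2, hθ.2.ne⟩
  have hJ2 : ∀ θ ∈ Ioo φ Real.pi, -Real.pi < θ ∧ θ < Real.pi ∧ θ ≠ φ :=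
    fun θ hθ => ⟨hφ1.trans hθ.1, hθ.2, hθ.1.ne'⟩
  have hd1 := dichotomy isPreconnected_Ioo (hcB _ hJ1) (p := b) (q := a + 2 * Real.pi) (by linarith)
    (fun θ hθ => by
      obtain ⟨h1, h2, h3⟩ := hJ1 θ hθ
      obtain ⟨e1, e2, e3, e4⟩ := hpt θ h1 h2 h3
      exact hdich _ e1 e2 e3)
  have hd2 := dichotomy isPreconnected_Ioo (hcB _ hJ2) (p := b) (q := a + 2 * Real.pi) (by linarith)
    (fun θ hθ => by
      obtain ⟨h1, h2, h3⟩ := hJ2 θ hθ
      obtain ⟨e1, e2, e3, e4⟩ := hpt θ h1 h2 h3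
      exact hdich _ e1 e2 e3)
  -- from arcs to the circle
  have hcirc : ∀ Q : ℂ → Prop, (∀ θ ∈ Ioo (-Real.pi) φ, Q (exp (θ * I))) → (∀ θ ∈ Ioo φ Real.pi, Q (exp (θ * I))) →
      ∀ z ∈ sphere (0:ℂ) 1, z ≠ -1 → z ≠ exp (φ * I) → Q z := by
    intro Q h1 h2 z hz h3 h4
    obtain ⟨e1, e2, e3⟩ := exists_angle hz h3
    rw [e3]
    rcases lt_trichotomy (arg z) φ with h | h | h
    · exact h1 _ ⟨e1, h⟩
    · exfalso; apply h4; rw [e3, h]
    · exact h2 _ ⟨h, e2⟩
  have hrD : ∀ θ : ℝ, -Real.pi < θ → θ < Real.pi → θ ≠ φ → a ≤ (l (exp (θ * I))).im ∧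
      (l (exp (θ * I))).im ≤ b + 2 * Real.pi := fun θ h1 h2 h3 => hrange _ (hpt θ h1 h2 h3).2.2.2
  -- logarithm of the Moebius map
  have hlogc : ContinuousOn (fun z => log (uu ψ z)) (D2 φ) := by
    apply ContinuousOn.clog
    · intro z hz
      have h1 : 1 + z ≠ 0 := by
        intro h; apply (mem_D_iff.mp (mem_D2.1 hz).1).2; linear_combination h
      exact (uu_hasDerivAt h1).continuousAt.continuousWithinAt
    · intro z hz
      rw [hφψ] at hz
      exact uu_mem_slit hψ hz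
  have hlogd : DifferentiableOn ℂ (fun z => log (uu ψ z)) (ball 0 1) := by
    intro z hz
    have h1 : DifferentiableAt ℂ (uu ψ) z := (uu_hasDerivAt (one_add_ne hz)).differentiableAt
    exact (h1.clog (Or.inl (uu_re_pos hψ hz))).differentiableWithinAt
  have hlog0 : (2 * log (uu ψ 0)).im = φ := by
    have : uu ψ 0 = exp (ψ * I) := by simp [uu, ee]
    rw [this, log_exp (by simp; linarith) (by simp; linarith), hφψ]
    simp
  have himlog : ∀ z, (2 * log (uu ψ z)).im = 2 * arg (uu ψ z) := by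
    intro z
    rw [show (2:ℂ) = ((2:ℝ):ℂ) by norm_num, im_ofReal_mul, log_im]
  have hargb : ∀ z, |arg (uu ψ z)| ≤ Real.pi := fun z => abs_arg_le_pi _
  have harg1 : ∀ θ ∈ Ioo (-Real.pi) φ, (2 * log (uu ψ (exp (θ * I)))).im = Real.pi := by
    intro θ hθ
    rw [himlog, (arg_uu_circle hψ1 hψ2 hθ.1 (hθ.2.trans hφ2)).1 (by rw [← hφψ]; exact hθ.2)]
    ring
  have harg2 : ∀ θ ∈ Ioo φ Real.pi, (2 * log (uu ψ (exp (θ * I)))).im = -Real.pi := by
    intro θ hθ
    rw [himlog, (arg_uu_circle hψ1 hψ2 (hφ1.trans hθ.1) hθ.2).2 (by rw [← hφψ]; exact hθ.1)]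
    ring
  have h2logc : ContinuousOn (fun z => 2 * log (uu ψ z)) (D2 φ) := continuousOn_const.mul hlogc
  have h2logd : DifferentiableOn ℂ (fun z => 2 * log (uu ψ z)) (ball 0 1) := hlogd.const_mul 2
  have hrb : ∀ z ∈ ball (0:ℂ) 1, a ≤ (l z).im ∧ (l z).im ≤ b + 2 * Real.pi := fun z hz => hrange z (ball_subset_D2 hz)
  rcases hd1 with h1 | h1 <;> rcases hd2 with h2 | h2
  · -- low, low
    exfalso
    have := max_principle2 hlc hld (fun z hz => (hrb z hz).2) (hcirc (fun z => (l z).im ≤ b) h1 h2) 0 h0b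
    rw [hl0im] at this
    linarith
  · -- low, high: wrong orientation
    exfalso
    have hup := max_principle2 (φ := φ) (L := fun z => l z + 2 * log (uu ψ z)) (M := b + Real.pi)
      (C := b + 2 * Real.pi + 2 * Real.pi) (hlc.add h2logc) (hld.add h2logd)
      (fun z hz => by
        rw [add_im, himlog]
        have := (abs_le.1 (hargb z)).2
        linarith [(hrb z hz).2])
      (hcirc (fun z => (l z + 2 * log (uu ψ z)).im ≤ b + Real.pi)
        (fun θ hθ => by
          show (l (exp (θ * I)) + 2 * log (uu ψ (exp (θ * I)))).im ≤ b + Real.pi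
          rw [add_im, harg1 θ hθ]
          have := h1 θ hθ
          linarith)
        (fun θ hθ => by
          show (l (exp (θ * I)) + 2 * log (uu ψ (exp (θ * I)))).im ≤ b + Real.pi
          rw [add_im, harg2 θ hθ]
          obtain ⟨e1, e2, e3⟩ := hJ2 θ hθ
          linarith [(hrD θ e1 e2 e3).2]))
    have hlow := min_principle2 (φ := φ) (L := fun z => l z + 2 * log (uu ψ z)) (M := a + Real.pi)
      (C := a - 2 * Real.pi) (hlc.add h2logc) (hld.add h2logd)
      (fun z hz => by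
        rw [add_im, himlog]
        have := (abs_le.1 (hargb z)).1
        linarith [(hrb z hz).1])
      (hcirc (fun z => a + Real.pi ≤ (l z + 2 * log (uu ψ z)).im)
        (fun θ hθ => by
          show a + Real.pi ≤ (l (exp (θ * I)) + 2 * log (uu ψ (exp (θ * I)))).im
          rw [add_im, harg1 θ hθ]
          obtain ⟨e1, e2, e3⟩ := hJ1 θ hθ
          linarith [(hrD θ e1 e2 e3).1])
        (fun θ hθ => by
          show a + Real.pi ≤ (l (exp (θ * I)) + 2 * log (uu ψ (exp (θ * I)))).im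
          rw [add_im, harg2 θ hθ]
          have := h2 θ hθ
          linarith))
    have hωc : γ 0 ∉ f '' ball 0 1 := by
      rw [← mem_compl_iff, hf.compl]
      exact ⟨0, self_mem_Ici, rfl⟩
    have hω0 : γ 0 ≠ 0 := by
      intro h
      apply hωc
      rw [h]
      exact ⟨0, h0b, hf.mem.map_zero⟩
    exact no_wrong_orientation hψ hab (by linarith) hω0 (tendsto_norm_of_tip hf.mem hφ1 hφ2 ht hωc) hld hexp
      (fun z hz => ⟨hlow z hz, hup z hz⟩)
  · -- high, low: the right orientation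
    have hup := max_principle2 (φ := φ) (L := fun z => l z - 2 * log (uu ψ z)) (M := b + Real.pi)
      (C := b + 2 * Real.pi + 2 * Real.pi) (hlc.sub h2logc) (hld.sub h2logd)
      (fun z hz => by
        rw [sub_im, himlog]
        have := (abs_le.1 (hargb z)).1
        linarith [(hrb z hz).2])
      (hcirc (fun z => (l z - 2 * log (uu ψ z)).im ≤ b + Real.pi)
        (fun θ hθ => by
          show (l (exp (θ * I)) - 2 * log (uu ψ (exp (θ * I)))).im ≤ b + Real.pi
          rw [sub_im, harg1 θ hθ]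
          obtain ⟨e1, e2, e3⟩ := hJ1 θ hθ
          linarith [(hrD θ e1 e2 e3).2])
        (fun θ hθ => by
          show (l (exp (θ * I)) - 2 * log (uu ψ (exp (θ * I)))).im ≤ b + Real.pi
          rw [sub_im, harg2 θ hθ]
          have := h2 θ hθ
          linarith)) 0 h0b
    have hlow := min_principle2 (φ := φ) (L := fun z => l z - 2 * log (uu ψ z)) (M := a + Real.pi)
      (C := a - 2 * Real.pi) (hlc.sub h2logc) (hld.sub h2logd)
      (fun z hz => by
        rw [sub_im, himlog]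
        have := (abs_le.1 (hargb z)).2
        linarith [(hrb z hz).1])
      (hcirc (fun z => a + Real.pi ≤ (l z - 2 * log (uu ψ z)).im)
        (fun θ hθ => by
          show a + Real.pi ≤ (l (exp (θ * I)) - 2 * log (uu ψ (exp (θ * I)))).im
          rw [sub_im, harg1 θ hθ]
          have := h1 θ hθ
          linarith)
        (fun θ hθ => by
          show a + Real.pi ≤ (l (exp (θ * I)) - 2 * log (uu ψ (exp (θ * I)))).im
          rw [sub_im, harg2 θ hθ]
          obtain ⟨e1, e2, e3⟩ := hJ2 θ hθ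
          linarith [(hrD θ e1 e2 e3).1])) 0 h0b
    rw [sub_im, hlog0, hl0im] at hup hlow
    constructor <;> linarith
  · -- high, high
    exfalso
    have := min_principle2 hlc hld (fun z hz => (hrb z hz).1)
      (hcirc (fun z => a + 2 * Real.pi ≤ (l z).im) h1 h2) 0 h0b
    rw [hl0im] at this
    linarith

end Pool.Agent.H790R2.Tip
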